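import Pool.Agent.Lib.MP_dd84fd_nt.L2G.Avg
import Pool.Agent.Lib.MP_dd84fd_nt.E2.SupClose

/-!
# MP_e3f158_nt, theorem U: the mean square of a convolution with an arbitrary set
-/

set_option autoImplicit false

namespace Pool.Agent.Lib.MP_e3f158_nt.U

open Finset Pool.MP_67663b_nt.Odd Pool.MP_dd84fd_nt.En Pool.MP_dd84fd_nt.E2 Pool.MP_dd84fd_nt.L2G

theorem l2 (N : ℕ) (A : Finset ℕ) (hA : A ⊆ Icc 1 N) (v : ℕ → ℝ) (K : ℝ)
    (hK : ∀ θ : ℝ, ‖∑ n ∈ Icc 1 N, (v n : ℂ) * ee ((n : ℝ) * θ)‖ ≤ K) :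
    ∑ n ∈ Icc 1 N, (∑ r ∈ A.filter (fun r => r < n), v (n - r)) ^ 2 ≤ K ^ 2 * A.card := by
  classical
  let c : ℕ → ℝ := fun n => ∑ r ∈ A, ∑ m ∈ Icc 1 N, (if r + m = n then v m else 0)
  have hprod : ∀ θ : ℝ, ∑ n ∈ range (2 * N + 1), ((c n : ℝ) : ℂ) * ee ((n : ℝ) * θ) =
      (∑ r ∈ A, (1 : ℂ) * ee ((r : ℝ) * θ)) * ∑ n ∈ Icc 1 N, (v n : ℂ) * ee ((n : ℝ) * θ) := by
    intro θ
    rw [sum_mul_sum]
    have h1 : ∀ n ∈ range (2 * N + 1), ((c n : ℝ) : ℂ) * ee ((n : ℝ) * θ) =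
        ∑ r ∈ A, ∑ m ∈ Icc 1 N, (if r + m = n then (v m : ℂ) * ee ((n : ℝ) * θ) else 0) := by
      intro n _
      show ((∑ r ∈ A, ∑ m ∈ Icc 1 N, (if r + m = n then v m else 0) : ℝ) : ℂ) * ee ((n : ℝ) * θ) = _
      push_cast
      rw [sum_mul]
      apply sum_congr rfl
      intro r _
      rw [sum_mul]
      apply sum_congr rfl
      intro m _
      split_ifs <;> simp
    rw [sum_congr rfl h1, sum_comm]
    apply sum_congr rfl
    intro r hr
    rw [sum_comm]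
    apply sum_congr rfl
    intro m hm
    have h2 := mem_Icc.1 (hA hr)
    have h3 := mem_Icc.1 hm
    rw [sum_eq_single (r + m)]
    · rw [if_pos rfl]
      have h4 : (((r + m : ℕ) : ℝ)) * θ = (r : ℝ) * θ + (m : ℝ) * θ := by push_cast; ring
      rw [h4, ee_add]
      ring
    · intro n _ hn
      rw [if_neg (Ne.symm hn)]
    · intro h5
      exact absurd (mem_range.2 (by omega)) h5
  have hpar := parseval (N := 2 * N + 1) (range (2 * N + 1)) (fun n hn => mem_range.1 hn)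
    (fun n => ((c n : ℝ) : ℂ))
  have hparA := parseval (N := 2 * N + 1) A (fun n hn => by
    have := (mem_Icc.1 (hA hn)).2
    omega) (fun _ => (1 : ℂ))
  have hK0 : 0 ≤ K := (norm_nonneg _).trans (hK 0)
  have h5 : av (2 * N + 1) (fun θ => ‖∑ n ∈ range (2 * N + 1), ((c n : ℝ) : ℂ) * ee ((n : ℝ) * θ)‖ ^ 2) ≤
      av (2 * N + 1) (fun θ => K ^ 2 * ‖∑ r ∈ A, (1 : ℂ) * ee ((r : ℝ) * θ)‖ ^ 2) := by
    apply av_mono
    intro θ
    rw [hprod θ, norm_mul, mul_pow, mul_comm]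
    apply mul_le_mul_of_nonneg_right _ (by positivity)
    exact pow_le_pow_left₀ (norm_nonneg _) (hK θ) 2
  rw [av_mul_left, hpar, hparA] at h5
  have h6 : ∑ r ∈ A, ‖(1 : ℂ)‖ ^ 2 = A.card := by simp
  rw [h6] at h5
  refine le_trans ?_ h5
  have h7 : ∑ n ∈ Icc 1 N, ‖((c n : ℝ) : ℂ)‖ ^ 2 ≤ ∑ n ∈ range (2 * N + 1), ‖((c n : ℝ) : ℂ)‖ ^ 2 := by
    apply sum_le_sum_of_subset_of_nonneg
    · intro n hn
      have := mem_Icc.1 hn
      exact mem_range.2 (by omega)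
    · intro n _ _
      positivity
  refine le_trans (le_of_eq ?_) h7
  apply sum_congr rfl
  intro n hn
  have hn' := mem_Icc.1 hn
  rw [Complex.norm_real, Real.norm_eq_abs, sq_abs]
  congr 1
  show _ = ∑ r ∈ A, ∑ m ∈ Icc 1 N, (if r + m = n then v m else 0)
  rw [sum_filter]
  apply sum_congr rfl
  intro r hr
  have h2 := mem_Icc.1 (hA hr)
  by_cases h8 : r < n
  · rw [if_pos h8, sum_eq_single (n - r)]
    · rw [if_pos (by omega)]
    · intro m _ hm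
      rw [if_neg (by omega)]
    · intro h9
      exact absurd (mem_Icc.2 (by omega)) h9
  · rw [if_neg h8]
    symm
    apply sum_eq_zero
    intro m hm
    have := mem_Icc.1 hm
    rw [if_neg (by omega)]

open Classical in
/-- number of representations of `n` as a sum of an element of `A` and a prime -/
noncomputable def RA (A : Finset ℕ) (n : ℕ) : ℝ :=
  ∑ r ∈ A.filter (fun r => r < n), (if (n - r).Prime then (1 : ℝ) else 0)

/-- its model -/
noncomputable def Rz (z : ℕ) (A : Finset ℕ) (n : ℕ) : ℝ :=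
  ∑ r ∈ A.filter (fun r => r < n), f2 z (n - r)

theorem l2_primes (B : ℕ) : ∃ D0 : ℕ, ∀ D : ℕ, D0 ≤ D → ∃ X0 : ℕ, ∀ N : ℕ, X0 ≤ N →
    ∀ A : Finset ℕ, A ⊆ Icc 1 N →
    ∑ n ∈ Icc 1 N, (RA A n - Rz (wX D N) A n) ^ 2 ≤ (N / (Real.log N) ^ B) ^ 2 * A.card := by
  obtain ⟨D0, hD0⟩ := sup_close B
  refine ⟨D0, fun D hD => ?_⟩
  obtain ⟨X0, hX0⟩ := hD0 D hD
  refine ⟨X0, fun N hN A hA => ?_⟩
  have h1 := l2 N A hA (fun n => (if n.Prime then (1 : ℝ) else 0) - f2 (wX D N) n)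
    (N / (Real.log N) ^ B) (fun θ => by
      refine le_trans (le_of_eq ?_) (hX0 N hN θ)
      congr 1
      unfold P1 F2
      rw [sum_filter, ← sum_sub_distrib]
      apply sum_congr rfl
      intro n _
      split_ifs <;> push_cast <;> ring)
  refine le_trans (le_of_eq ?_) h1
  apply sum_congr rfl
  intro n _
  unfold RA Rz
  rw [← sum_sub_distrib]

end Pool.Agent.Lib.MP_e3f158_nt.U
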