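import Mathlib

/-!
# MP_e3f158_nt, theorem U: the algebra of the final inequality (real numbers only)
-/

set_option autoImplicit false

namespace Pool.Agent.Lib.MP_e3f158_nt.U

theorem S2b_hlog (ρ ε LN LY : ℝ) (hε : 0 < ε) (hε1 : ε ≤ 1) (hL : 0 < LN) (hY : 0 < LY)
    (h5 : (1 - ε / 4) * LN ≤ LY) : (ρ / LY) ^ 2 ≤ (1 + ε) * (ρ / LN) ^ 2 := by
  rw [div_pow, div_pow, ← mul_div_assoc, div_le_div_iff₀ (by positivity) (by positivity)]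
  have e1 : (1 - ε / 4) ^ 2 * LN ^ 2 ≤ LY ^ 2 := by
    rw [← mul_pow]
    exact pow_le_pow_left₀ (mul_nonneg (by linarith) hL.le) h5 2
  have e2 : 1 ≤ (1 + ε) * (1 - ε / 4) ^ 2 := by nlinarith [mul_pos hε hε]
  have e3 : LN ^ 2 ≤ (1 + ε) * LY ^ 2 := by
    have e4 : LN ^ 2 ≤ (1 + ε) * (1 - ε / 4) ^ 2 * LN ^ 2 :=
      le_mul_of_one_le_left (sq_nonneg _) e2
    have e5 := mul_le_mul_of_nonneg_left e1 (by linarith : (0 : ℝ) ≤ 1 + ε)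
    linarith
  have e6 := mul_le_mul_of_nonneg_left e3 (sq_nonneg ρ)
  linarith

theorem S2b_alg (ρ q ψ FFv F n H m Ex Nd ε E P LN LY : ℝ) (hε : 0 < ε) (hε1 : ε ≤ 1)
    (hρ1 : 1 ≤ ρ) (hρψ : 1 ≤ ρ * ψ)
    (hρqψ : 1 ≤ ρ * (ψ * q)) (hFF0 : 0 ≤ FFv) (hFF : FFv ≤ F) (hF1 : (H * ψ) ^ 2 ≤ F)
    (hn : 0 < n) (hm : 0 ≤ m) (hEx : 0 ≤ Ex) (hE : 0 ≤ E) (hP : 0 ≤ P)
    (hL : 0 < LN) (hY : 0 < LY) (h1 : m ≤ Nd) (h2 : ρ ^ 3 * (2 * Ex + 1) ≤ ε * n)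
    (h3 : ρ ^ 8 * E ≤ ε) (h4 : ρ ^ 2 * P ≤ ε * Nd) (h5 : (1 - ε / 4) * LN ≤ LY) :
    (ρ / LY) ^ 2 * (m * (q ^ 2 * ((1 + ε) * (n ^ 2 * FFv) + ρ * ((2 * Ex + 1) * (n * H ^ 2)))) +
      n ^ 2 * H ^ 2 * (m * (ρ ^ 6 * E) + P)) ≤
      (1 + ε) * (1 + 4 * ε) * ((ρ / LN) ^ 2 * (Nd * (q ^ 2 * (n ^ 2 * F)))) := by
  have hρ0 : 0 < ρ := by linarith
  have hFFb0 : 0 ≤ F := (sq_nonneg _).trans hF1
  have hNd0 : 0 ≤ Nd := hm.trans h1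
  have hEx1 : (0 : ℝ) ≤ 2 * Ex + 1 := by linarith
  have hn2 : 0 ≤ n ^ 2 := sq_nonneg _
  have hH2 : 0 ≤ H ^ 2 := sq_nonneg _
  -- second term
  have c2 : ρ * ((2 * Ex + 1) * (n * H ^ 2)) ≤ ε * (n ^ 2 * F) := by
    have e1 : ρ * (2 * Ex + 1) ≤ ε * n * ψ ^ 2 := by
      have e2 : ρ * (2 * Ex + 1) ≤ (ρ ^ 3 * (2 * Ex + 1)) * ψ ^ 2 := by
        have e3 : (ρ ^ 3 * (2 * Ex + 1)) * ψ ^ 2 = (ρ * (2 * Ex + 1)) * (ρ * ψ) ^ 2 := by ring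
        rw [e3]
        exact le_mul_of_one_le_right (mul_nonneg hρ0.le hEx1) (one_le_pow₀ hρψ)
      exact e2.trans (mul_le_mul_of_nonneg_right h2 (sq_nonneg _))
    calc ρ * ((2 * Ex + 1) * (n * H ^ 2)) = (ρ * (2 * Ex + 1)) * (n * H ^ 2) := by ring
      _ ≤ (ε * n * ψ ^ 2) * (n * H ^ 2) :=
          mul_le_mul_of_nonneg_right e1 (mul_nonneg hn.le hH2)
      _ = ε * (n ^ 2 * (H * ψ) ^ 2) := by ring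
      _ ≤ _ := mul_le_mul_of_nonneg_left (mul_le_mul_of_nonneg_left hF1 hn2) hε.le
  have c1 : (1 + ε) * (n ^ 2 * FFv) ≤ (1 + ε) * (n ^ 2 * F) :=
    mul_le_mul_of_nonneg_left (mul_le_mul_of_nonneg_left hFF hn2) (by linarith)
  have hq1 : 1 ≤ ρ ^ 2 * (ψ * q) ^ 2 := by
    rw [← mul_pow]
    exact one_le_pow₀ hρqψ
  -- third term
  have c3 : n ^ 2 * H ^ 2 * (ρ ^ 6 * E) ≤ ε * (q ^ 2 * (n ^ 2 * F)) := by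
    have e1 : ρ ^ 6 * E ≤ ε * (ψ * q) ^ 2 := by
      have e2 : ρ ^ 6 * E ≤ (ρ ^ 8 * E) * (ψ * q) ^ 2 := by
        have e3 : (ρ ^ 8 * E) * (ψ * q) ^ 2 = (ρ ^ 6 * E) * (ρ ^ 2 * (ψ * q) ^ 2) := by ring
        rw [e3]
        exact le_mul_of_one_le_right (mul_nonneg (pow_nonneg hρ0.le 6) hE) hq1
      exact e2.trans (mul_le_mul_of_nonneg_right h3 (sq_nonneg _))
    calc n ^ 2 * H ^ 2 * (ρ ^ 6 * E) ≤ n ^ 2 * H ^ 2 * (ε * (ψ * q) ^ 2) :=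
          mul_le_mul_of_nonneg_left e1 (mul_nonneg hn2 hH2)
      _ = ε * (q ^ 2 * (n ^ 2 * (H * ψ) ^ 2)) := by ring
      _ ≤ _ := mul_le_mul_of_nonneg_left (mul_le_mul_of_nonneg_left
          (mul_le_mul_of_nonneg_left hF1 hn2) (sq_nonneg _)) hε.le
  -- fourth term
  have c4 : n ^ 2 * H ^ 2 * P ≤ ε * (Nd * (q ^ 2 * (n ^ 2 * F))) := by
    have e1 : P ≤ ε * Nd * (ψ * q) ^ 2 := by
      have e2 : P ≤ (ρ ^ 2 * P) * (ψ * q) ^ 2 := by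
        have e3 : (ρ ^ 2 * P) * (ψ * q) ^ 2 = P * (ρ ^ 2 * (ψ * q) ^ 2) := by ring
        rw [e3]
        exact le_mul_of_one_le_right hP hq1
      exact e2.trans (mul_le_mul_of_nonneg_right h4 (sq_nonneg _))
    calc n ^ 2 * H ^ 2 * P ≤ n ^ 2 * H ^ 2 * (ε * Nd * (ψ * q) ^ 2) :=
          mul_le_mul_of_nonneg_left e1 (mul_nonneg hn2 hH2)
      _ = ε * (Nd * (q ^ 2 * (n ^ 2 * (H * ψ) ^ 2))) := by ring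
      _ ≤ _ := mul_le_mul_of_nonneg_left (mul_le_mul_of_nonneg_left (mul_le_mul_of_nonneg_left
          (mul_le_mul_of_nonneg_left hF1 hn2) (sq_nonneg _)) hNd0) hε.le
  have hlog := S2b_hlog ρ ε LN LY hε hε1 hL hY h5
  have hq2 : 0 ≤ q ^ 2 := sq_nonneg _
  have hmain : m * (q ^ 2 * ((1 + ε) * (n ^ 2 * FFv) + ρ * ((2 * Ex + 1) * (n * H ^ 2)))) +
      n ^ 2 * H ^ 2 * (m * (ρ ^ 6 * E) + P) ≤ (1 + 4 * ε) * (Nd * (q ^ 2 * (n ^ 2 * F))) := by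
    have t1 : (1 + ε) * (n ^ 2 * FFv) + ρ * ((2 * Ex + 1) * (n * H ^ 2)) ≤
        (1 + 2 * ε) * (n ^ 2 * F) := by linarith
    have t0 : 0 ≤ (1 + ε) * (n ^ 2 * FFv) + ρ * ((2 * Ex + 1) * (n * H ^ 2)) :=
      add_nonneg (mul_nonneg (by linarith) (mul_nonneg hn2 hFF0))
        (mul_nonneg hρ0.le (mul_nonneg hEx1 (mul_nonneg hn.le hH2)))
    have t2 : m * (q ^ 2 * ((1 + ε) * (n ^ 2 * FFv) + ρ * ((2 * Ex + 1) * (n * H ^ 2)))) ≤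
        Nd * (q ^ 2 * ((1 + 2 * ε) * (n ^ 2 * F))) :=
      mul_le_mul h1 (mul_le_mul_of_nonneg_left t1 hq2) (mul_nonneg hq2 t0) hNd0
    have t3 : n ^ 2 * H ^ 2 * (m * (ρ ^ 6 * E)) ≤ Nd * (ε * (q ^ 2 * (n ^ 2 * F))) := by
      calc n ^ 2 * H ^ 2 * (m * (ρ ^ 6 * E)) = m * (n ^ 2 * H ^ 2 * (ρ ^ 6 * E)) := by ring
        _ ≤ Nd * (ε * (q ^ 2 * (n ^ 2 * F))) :=
            mul_le_mul h1 c3 (mul_nonneg (mul_nonneg hn2 hH2)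
              (mul_nonneg (pow_nonneg hρ0.le 6) hE)) hNd0
    rw [mul_add (n ^ 2 * H ^ 2)]
    have t4 : Nd * (q ^ 2 * ((1 + 2 * ε) * (n ^ 2 * F))) + (Nd * (ε * (q ^ 2 * (n ^ 2 * F))) +
        ε * (Nd * (q ^ 2 * (n ^ 2 * F)))) = (1 + 4 * ε) * (Nd * (q ^ 2 * (n ^ 2 * F))) := by ring
    linarith
  have hR0 : 0 ≤ (1 + 4 * ε) * (Nd * (q ^ 2 * (n ^ 2 * F))) :=
    mul_nonneg (by linarith) (mul_nonneg hNd0 (mul_nonneg hq2 (mul_nonneg hn2 hFFb0)))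
  calc _ ≤ (ρ / LY) ^ 2 * ((1 + 4 * ε) * (Nd * (q ^ 2 * (n ^ 2 * F)))) :=
        mul_le_mul_of_nonneg_left hmain (sq_nonneg _)
    _ ≤ ((1 + ε) * (ρ / LN) ^ 2) * ((1 + 4 * ε) * (Nd * (q ^ 2 * (n ^ 2 * F)))) :=
        mul_le_mul_of_nonneg_right hlog hR0
    _ = _ := by ring

/-- The final algebra. -/
theorem final_alg (L κ ρ ψ q n M Nd G S1e S2 H δ : ℝ) (hL : 0 < L) (hρ : 0 < ρ) (hψ : 0 < ψ) (hψ1 : ψ ≤ 1)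
    (hq : 0 < q) (hn : 0 < n) (hH : 1 ≤ H) (hNd : 0 < Nd) (hδ : 0 < δ) (hδ1 : δ ≤ 1 / 8)
    (hκ : κ = ρ * (ψ * q)) (hG : 0 ≤ G)
    (h1 : (1 - 2 * δ) * (H * n * (κ * M / L)) ≤ S1e) (h2 : S1e ^ 2 ≤ G * S2)
    (h3 : S2 ≤ (1 + δ) * ((ρ / L) ^ 2 * (Nd * (q ^ 2 * (n ^ 2 * ((H * ψ) ^ 2 + H * ψ * (1 - ψ)))))))
    (h4 : (1 - δ) * Nd ≤ M) :
    (H * ψ / (1 + (H - 1) * ψ) - 8 * δ) * Nd ≤ G := by
  have hHψ : 0 < H * ψ := by positivity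
  have hden : 0 < 1 + (H - 1) * ψ := by
    have : 0 ≤ (H - 1) * ψ := mul_nonneg (by linarith) hψ.le
    linarith
  have hM : 0 ≤ M := (mul_nonneg (by linarith) hNd.le).trans h4
  have hκ0 : 0 < κ := by rw [hκ]; positivity
  have hFFb : (H * ψ) ^ 2 + H * ψ * (1 - ψ) = H * ψ * (1 + (H - 1) * ψ) := by ring
  rw [hFFb] at h3
  have hl0 : 0 ≤ (1 - 2 * δ) * (H * n * (κ * M / L)) := by
    apply mul_nonneg (by linarith)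
    positivity
  have h5 : ((1 - 2 * δ) * (H * n * (κ * M / L))) ^ 2 ≤ G * S2 := (pow_le_pow_left₀ hl0 h1 2).trans h2
  have h6 : G * S2 ≤ G * ((1 + δ) * ((ρ / L) ^ 2 * (Nd * (q ^ 2 * (n ^ 2 * (H * ψ * (1 + (H - 1) * ψ))))))) :=
    mul_le_mul_of_nonneg_left h3 hG
  have h7 : ((1 - 2 * δ) * (H * n * (κ * M / L))) ^ 2 =
      ((ρ / L) ^ 2 * (q ^ 2 * (n ^ 2 * (H * ψ)))) * ((1 - 2 * δ) ^ 2 * (H * ψ) * M ^ 2) := by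
    rw [hκ]
    field_simp
  have h8 : G * ((1 + δ) * ((ρ / L) ^ 2 * (Nd * (q ^ 2 * (n ^ 2 * (H * ψ * (1 + (H - 1) * ψ))))))) =
      ((ρ / L) ^ 2 * (q ^ 2 * (n ^ 2 * (H * ψ)))) * (G * ((1 + δ) * Nd * (1 + (H - 1) * ψ))) := by ring
  have hpos : 0 < (ρ / L) ^ 2 * (q ^ 2 * (n ^ 2 * (H * ψ))) := by positivity
  have h9 : (1 - 2 * δ) ^ 2 * (H * ψ) * M ^ 2 ≤ G * ((1 + δ) * Nd * (1 + (H - 1) * ψ)) := by
    have := h5.trans h6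
    rw [h7, h8] at this
    exact le_of_mul_le_mul_left this hpos
  have h10 : ((1 - δ) * Nd) ^ 2 ≤ M ^ 2 := pow_le_pow_left₀ (mul_nonneg (by linarith) hNd.le) h4 2
  have h11 : (1 - 2 * δ) ^ 2 * (H * ψ) * ((1 - δ) * Nd) ^ 2 ≤ G * ((1 + δ) * Nd * (1 + (H - 1) * ψ)) :=
    (mul_le_mul_of_nonneg_left h10 (by positivity)).trans h9
  have h12 : (1 - 2 * δ) ^ 2 * (1 - δ) ^ 2 * (H * ψ) * Nd ≤ G * ((1 + δ) * (1 + (H - 1) * ψ)) := by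
    have e1 : (1 - 2 * δ) ^ 2 * (H * ψ) * ((1 - δ) * Nd) ^ 2 = ((1 - 2 * δ) ^ 2 * (1 - δ) ^ 2 * (H * ψ) * Nd) * Nd := by ring
    have e2 : G * ((1 + δ) * Nd * (1 + (H - 1) * ψ)) = (G * ((1 + δ) * (1 + (H - 1) * ψ))) * Nd := by ring
    rw [e1, e2] at h11
    exact le_of_mul_le_mul_right h11 hNd
  have h13 : (1 - 8 * δ) * (1 + δ) ≤ (1 - 2 * δ) ^ 2 * (1 - δ) ^ 2 := by
    have e1 : (1 - 2 * δ) ^ 2 * (1 - δ) ^ 2 = ((1 - 2 * δ) * (1 - δ)) ^ 2 := by ring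
    have e2 : (1 - 2 * δ) * (1 - δ) = 1 - 3 * δ + 2 * δ ^ 2 := by ring
    rw [e1, e2]
    nlinarith [sq_nonneg (3 * δ - 2 * δ ^ 2), sq_nonneg δ]
  have h14 : (1 - 8 * δ) * (H * ψ) * Nd ≤ G * (1 + (H - 1) * ψ) := by
    have e1 : (1 - 8 * δ) * (1 + δ) * ((H * ψ) * Nd) ≤ (1 - 2 * δ) ^ 2 * (1 - δ) ^ 2 * ((H * ψ) * Nd) :=
      mul_le_mul_of_nonneg_right h13 (by positivity)
    have e2 : ((1 - 8 * δ) * (H * ψ) * Nd) * (1 + δ) ≤ (G * (1 + (H - 1) * ψ)) * (1 + δ) := by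
      calc ((1 - 8 * δ) * (H * ψ) * Nd) * (1 + δ) = (1 - 8 * δ) * (1 + δ) * ((H * ψ) * Nd) := by ring
        _ ≤ (1 - 2 * δ) ^ 2 * (1 - δ) ^ 2 * ((H * ψ) * Nd) := e1
        _ = (1 - 2 * δ) ^ 2 * (1 - δ) ^ 2 * (H * ψ) * Nd := by ring
        _ ≤ G * ((1 + δ) * (1 + (H - 1) * ψ)) := h12
        _ = _ := by ring
    exact le_of_mul_le_mul_right e2 (by linarith)
  have h15 : (1 - 8 * δ) * (H * ψ / (1 + (H - 1) * ψ)) * Nd ≤ G := by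
    have e1 : (1 - 8 * δ) * (H * ψ / (1 + (H - 1) * ψ)) * Nd = ((1 - 8 * δ) * (H * ψ) * Nd) / (1 + (H - 1) * ψ) := by
      field_simp
    rw [e1, div_le_iff₀ hden]
    exact h14
  have h16 : H * ψ / (1 + (H - 1) * ψ) ≤ 1 := by
    rw [div_le_one hden]
    linarith
  have h17 : (H * ψ / (1 + (H - 1) * ψ) - 8 * δ) ≤ (1 - 8 * δ) * (H * ψ / (1 + (H - 1) * ψ)) := by
    nlinarith
  exact (mul_le_mul_of_nonneg_right h17 hNd.le).trans h15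

end Pool.Agent.Lib.MP_e3f158_nt.U
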