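import Pool.Agent.Lib.MP_e3f158_nt.U.Core
import Pool.Agent.Lib.MP_e3f158_nt.U.AlgA

/-!
# MP_e3f158_nt, theorem U: the algebra of the final inequality
-/

set_option autoImplicit false

namespace Pool.Agent.Lib.MP_e3f158_nt.U

open Finset

theorem S2b_le (w z d Y X H m1 r0 n N : ℕ) (ε : ℝ) (hε : 0 < ε) (hε1 : ε ≤ 1) (hwz : w ≤ z)
    (hn : 0 < n) (hL : 0 < Real.log N) (hY : 0 < Real.log Y)
    (h1 : (m1 : ℝ) + 1 ≤ N / d) (h2 : rho z ^ 3 * (2 * Ex w z X ε + 1) ≤ ε * n)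
    (h3 : rho z ^ 8 * Real.exp (-(2 * r0)) ≤ ε) (h4 : rho z ^ 2 * (1 + 2 * z) ^ (2 * r0) ≤ ε * (N / d))
    (h5 : (1 - ε / 4) * Real.log N ≤ Real.log Y) :
    S2b w z d Y X H m1 r0 n ε ≤ (1 + ε) * (1 + 4 * ε) * ((rho z / Real.log N) ^ 2 * ((N / d) *
      (ps (PQ w z d) ^ 2 * ((n : ℝ) ^ 2 * ((H * ps (PP w d)) ^ 2 + H * ps (PP w d) * (1 - ps (PP w d))))))) := by
  have hnr : (0 : ℝ) < n := by exact_mod_cast hn
  have hψ0 : 0 ≤ ps (PP w d) := ps_nonneg _ fun p hp => PP_prime hp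
  have hψ1 : ps (PP w d) ≤ 1 := ps_le_one _ fun p hp => PP_prime hp
  have hρqψ : 1 ≤ rho z * (ps (PP w d) * ps (PQ w z d)) := by
    rw [← ps_split hwz]
    exact one_le_rho_mul_ps z z d le_rfl
  have hFF0 : 0 ≤ FF (PP w d) H := by
    unfold FF
    exact sum_nonneg fun h _ => sum_nonneg fun h' _ => LP_nonneg _ (fun p hp => PP_prime hp) _
  have hF1 : ((H : ℝ) * ps (PP w d)) ^ 2 ≤ (H * ps (PP w d)) ^ 2 + H * ps (PP w d) * (1 - ps (PP w d)) :=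
    le_add_of_nonneg_right (mul_nonneg (mul_nonneg (Nat.cast_nonneg _) hψ0) (by linarith))
  have hz0 : (0 : ℝ) ≤ 1 + 2 * (z : ℝ) := by positivity
  exact S2b_alg (rho z) (ps (PQ w z d)) (ps (PP w d)) (FF (PP w d) H) _ n H ((m1 : ℝ) + 1)
    (Ex w z X ε) (N / d) ε (Real.exp (-(2 * r0))) ((1 + 2 * z) ^ (2 * r0)) (Real.log N) (Real.log Y)
    hε hε1 (rho_ge_one z) (one_le_rho_mul_ps z w d hwz) hρqψ hFF0
    (redwin (PP w d) (fun p hp => PP_prime hp) H) hF1 hnr (by positivity)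
    (Nat.cast_nonneg _) (Real.exp_pos _).le (pow_nonneg hz0 _) hL hY h1 h2 h3 h4 h5

end Pool.Agent.Lib.MP_e3f158_nt.U
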