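import Pool.Agent.Lib.MP_dd84fd_nt.E2.F2Class

/-!
# MP_e3f158_nt, theorem U: first moment of the model along a progression
-/

set_option autoImplicit false

namespace Pool.Agent.Lib.MP_e3f158_nt.U

open Finset Pool.MP_67663b_nt.Odd Pool.MP_dd84fd_nt.En Pool.MP_dd84fd_nt.E2

theorem Li_diff (N t1 t2 : ℕ) (h1 : 2 ≤ t1) (h12 : t1 ≤ t2) (h2 : t2 ≤ N) :
    ((t2 : ℝ) - t1) / Real.log N ≤ Li t2 - Li t1 := by
  have hsplit : Li t2 = Li t1 + ∑ m ∈ Ioc t1 t2, 1 / Real.log (m : ℝ) := by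
    unfold Li
    rw [← sum_union]
    · congr 1
      ext m
      simp only [mem_union, mem_Icc, mem_Ioc]
      omega
    · rw [disjoint_left]
      intro m hm hm'
      have := mem_Icc.1 hm
      have := mem_Ioc.1 hm'
      omega
  rw [hsplit, add_sub_cancel_left]
  have h3 : ∑ m ∈ Ioc t1 t2, 1 / Real.log (N : ℝ) = ((t2 : ℝ) - t1) / Real.log N := by
    rw [sum_const, Nat.card_Ioc, nsmul_eq_mul, Nat.cast_sub h12]
    ring
  rw [← h3]
  apply sum_le_sum
  intro m hm
  have hm' := mem_Ioc.1 hm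
  have hm2 : (2 : ℝ) < m := by exact_mod_cast (by omega : 2 < m)
  have hlog : 0 < Real.log (m : ℝ) := Real.log_pos (by linarith)
  apply one_div_le_one_div_of_le hlog
  apply Real.log_le_log (by linarith)
  exact_mod_cast (by omega : m ≤ N)

theorem first_one (z N d h r m0 m1 : ℕ) (E : ℝ) (hd : 0 < d) (hcop : Nat.Coprime r d)
    (hr : r + 2 ≤ d * (m0 + h)) (hm : m0 ≤ m1) (hN : d * (m1 + h) ≤ N)
    (hcl : ∀ c : ℕ, Nat.Coprime c d → ∀ t : ℕ, t ≤ N →
      |∑ n ∈ (Icc 1 t).filter (fun n => n ≡ c [MOD d]), f2 z n - Li t / (Nat.totient d : ℝ)| ≤ E) :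
    (d : ℝ) / (Nat.totient d : ℝ) * ((m1 : ℝ) - m0) / Real.log N - 2 * E ≤
      ∑ m ∈ Ioc m0 m1, f2 z (d * (m + h) - r) := by
  set t1 := d * (m0 + h) - r with ht1
  set t2 := d * (m1 + h) - r with ht2
  have hle : d * (m0 + h) ≤ d * (m1 + h) := Nat.mul_le_mul_left d (by omega)
  have h12 : t1 ≤ t2 := by omega
  have h2N : t2 ≤ N := by omega
  have h1N : t1 ≤ N := by omega
  have ht1r : t1 + r = d * (m0 + h) := by omega
  have hc : Nat.Coprime t1 d := by
    have hg1 : Nat.gcd t1 d ∣ t1 := Nat.gcd_dvd_left _ _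
    have hg2 : Nat.gcd t1 d ∣ d := Nat.gcd_dvd_right _ _
    have hg3 : Nat.gcd t1 d ∣ t1 + r := by
      rw [ht1r]
      exact hg2.mul_right _
    have hg4 : Nat.gcd t1 d ∣ r := (Nat.dvd_add_right hg1).1 hg3
    exact Nat.eq_one_of_dvd_one (hcop ▸ Nat.dvd_gcd hg4 hg2)
  have hbij : ∑ m ∈ Ioc m0 m1, f2 z (d * (m + h) - r) =
      ∑ n ∈ (Ioc t1 t2).filter (fun n => n ≡ t1 [MOD d]), f2 z n := by
    have himg : (Ioc t1 t2).filter (fun n => n ≡ t1 [MOD d]) =
        (Ioc m0 m1).image (fun m => d * (m + h) - r) := by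
      ext n
      simp only [mem_filter, mem_Ioc, mem_image]
      constructor
      · rintro ⟨⟨h3, h4⟩, h5⟩
        have h6 : d ∣ n - t1 := (Nat.modEq_iff_dvd' h3.le).1 h5.symm
        obtain ⟨k, hk⟩ := h6
        refine ⟨m0 + k, ⟨?_, ?_⟩, ?_⟩
        · have : 0 < k := by
            rcases Nat.eq_zero_or_pos k with h7 | h7
            · rw [h7, mul_zero] at hk; omega
            · exact h7
          omega
        · have h7 : d * k ≤ d * (m1 + h) - d * (m0 + h) := by omega
          rw [← Nat.mul_sub] at h7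
          have := Nat.le_of_mul_le_mul_left h7 hd
          omega
        · have h8 : d * (m0 + k + h) = d * (m0 + h) + d * k := by ring
          rw [h8]
          omega
      · rintro ⟨m, ⟨h3, h4⟩, rfl⟩
        obtain ⟨k, rfl⟩ : ∃ k, m = m0 + k := ⟨m - m0, by omega⟩
        have hk : 0 < k := by omega
        have h8 : d * (m0 + k + h) = d * (m0 + h) + d * k := by ring
        have h9 : 0 < d * k := Nat.mul_pos hd hk
        have h10 : d * (m0 + k + h) ≤ d * (m1 + h) := Nat.mul_le_mul_left d (by omega)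
        refine ⟨⟨by omega, by omega⟩, ?_⟩
        have h11 : d * (m0 + k + h) - r = t1 + d * k := by omega
        rw [h11]
        exact Nat.modEq_iff_dvd.2 ⟨-(k : ℤ), by push_cast; ring⟩
    rw [himg, sum_image]
    intro x hx y hy hxy
    have hx' := mem_Ioc.1 (mem_coe.1 hx)
    have hy' := mem_Ioc.1 (mem_coe.1 hy)
    have h3 : d * (m0 + h) ≤ d * (x + h) := Nat.mul_le_mul_left d (by omega)
    have h4 : d * (m0 + h) ≤ d * (y + h) := Nat.mul_le_mul_left d (by omega)
    have h5 : d * (x + h) = d * (y + h) := by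
      have : d * (x + h) - r = d * (y + h) - r := hxy
      omega
    have := Nat.eq_of_mul_eq_mul_left hd h5
    omega
  have hsplit : ∑ n ∈ (Icc 1 t2).filter (fun n => n ≡ t1 [MOD d]), f2 z n =
      ∑ n ∈ (Icc 1 t1).filter (fun n => n ≡ t1 [MOD d]), f2 z n +
      ∑ n ∈ (Ioc t1 t2).filter (fun n => n ≡ t1 [MOD d]), f2 z n := by
    rw [← sum_union]
    · congr 1
      ext m
      simp only [mem_union, mem_filter, mem_Icc, mem_Ioc]
      constructor
      · rintro ⟨h3, h4⟩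
        by_cases h5 : m ≤ t1
        · exact Or.inl ⟨by omega, h4⟩
        · exact Or.inr ⟨by omega, h4⟩
      · rintro (⟨h3, h4⟩ | ⟨h3, h4⟩)
        · exact ⟨by omega, h4⟩
        · exact ⟨by omega, h4⟩
    · rw [disjoint_left]
      intro m hm hm'
      have := mem_Icc.1 (mem_filter.1 hm).1
      have := mem_Ioc.1 (mem_filter.1 hm').1
      omega
  have hc1 := abs_le.1 (hcl t1 hc t1 h1N)
  have hc2 := abs_le.1 (hcl t1 hc t2 h2N)
  have hLi := Li_diff N t1 t2 (by omega) h12 h2N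
  have hφ : 0 < (Nat.totient d : ℝ) := by exact_mod_cast Nat.totient_pos.2 hd
  have hdiff : ((t2 : ℝ) - t1) = d * ((m1 : ℝ) - m0) := by
    have h3 : t2 = t1 + d * (m1 - m0) := by
      have h4 : d * (m1 + h) = d * (m0 + h) + d * (m1 - m0) := by
        rw [← mul_add]
        congr 1
        omega
      omega
    rw [h3]
    push_cast
    rw [Nat.cast_sub hm]
    ring
  have h5 : (d : ℝ) / (Nat.totient d : ℝ) * ((m1 : ℝ) - m0) / Real.log N ≤
      Li t2 / (Nat.totient d : ℝ) - Li t1 / (Nat.totient d : ℝ) := by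
    rw [← sub_div, le_div_iff₀ hφ]
    refine le_trans (le_of_eq ?_) hLi
    rw [hdiff]
    field_simp
  rw [hbij]
  linarith [hc1.1, hc1.2, hc2.1, hc2.2]

end Pool.Agent.Lib.MP_e3f158_nt.U
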