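import Pool.Agent.Lib.MP_e3f158_nt.U.Second
import Pool.Agent.Lib.MP_e3f158_nt.U.First

/-!
# MP_e3f158_nt, theorem U: the inequality between the moments
-/

set_option autoImplicit false

namespace Pool.Agent.Lib.MP_e3f158_nt.U

open Finset Pool.MP_67663b_nt.Odd Pool.MP_dd84fd_nt.En Pool.MP_dd84fd_nt.E2

theorem cs_count (s : Finset ℕ) (T Tz : ℕ → ℝ) (hT : ∀ m ∈ s, 0 ≤ T m)
    (S1 S2 E2 e : ℝ) (h1 : S1 ≤ ∑ m ∈ s, Tz m) (h2 : ∑ m ∈ s, Tz m ^ 2 ≤ S2)
    (h3 : ∑ m ∈ s, (T m - Tz m) ^ 2 ≤ E2) (he0 : 0 ≤ e) (he : (s.card : ℝ) * E2 ≤ e ^ 2) (heS : e ≤ S1) :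
    (S1 - e) ^ 2 ≤ ((s.filter (fun m => 0 < T m)).card : ℝ) * S2 := by
  classical
  set G := s.filter (fun m => 0 < T m) with hG
  set G' := s.filter (fun m => ¬ 0 < T m) with hG'
  have hsplit : ∑ m ∈ s, Tz m = ∑ m ∈ G, Tz m + ∑ m ∈ G', Tz m :=
    (sum_filter_add_sum_filter_not s (fun m => 0 < T m) Tz).symm
  have h4 : (∑ m ∈ G, Tz m) ^ 2 ≤ (G.card : ℝ) * S2 := by
    refine sq_sum_le_card_mul_sum_sq.trans ?_
    apply mul_le_mul_of_nonneg_left _ (by positivity)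
    refine (sum_le_sum_of_subset_of_nonneg (filter_subset _ _) fun m _ _ => sq_nonneg _).trans h2
  have h5 : ∑ m ∈ G', Tz m ≤ e := by
    have h6 : ∑ m ∈ G', Tz m = -∑ m ∈ G', (T m - Tz m) := by
      rw [← sum_neg_distrib]
      apply sum_congr rfl
      intro m hm
      have h7 := mem_filter.1 hm
      have h8 : T m = 0 := le_antisymm (not_lt.1 h7.2) (hT m h7.1)
      rw [h8]; ring
    have h9 : (∑ m ∈ G', (T m - Tz m)) ^ 2 ≤ e ^ 2 := by
      refine sq_sum_le_card_mul_sum_sq.trans ?_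
      refine le_trans ?_ he
      have h10 : ∑ m ∈ G', (T m - Tz m) ^ 2 ≤ E2 :=
        (sum_le_sum_of_subset_of_nonneg (filter_subset _ _) fun m _ _ => sq_nonneg _).trans h3
      have h11 : (G'.card : ℝ) ≤ s.card := by exact_mod_cast card_le_card (filter_subset _ _)
      have h12 : 0 ≤ ∑ m ∈ G', (T m - Tz m) ^ 2 := sum_nonneg fun m _ => sq_nonneg _
      calc (G'.card : ℝ) * ∑ m ∈ G', (T m - Tz m) ^ 2 ≤ s.card * ∑ m ∈ G', (T m - Tz m) ^ 2 :=
            mul_le_mul_of_nonneg_right h11 h12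
        _ ≤ s.card * E2 := mul_le_mul_of_nonneg_left h10 (by positivity)
    rw [h6]
    have := abs_le_of_sq_le_sq h9 he0
    linarith [(abs_le.1 this).1]
  have h6 : S1 - e ≤ ∑ m ∈ G, Tz m := by linarith
  have h7 : 0 ≤ S1 - e := by linarith
  exact (pow_le_pow_left₀ h7 h6 2).trans h4

/-- the number of `m ∈ (m0, m1]` for which some `d (m + h)`, `h < H`, is a sum of an element of `A`
and a prime -/
noncomputable def Gd (A : Finset ℕ) (d H m0 m1 : ℕ) : ℝ :=
  (((Ioc m0 m1).filter (fun m => 0 < ∑ h ∈ range H, RA A (d * (m + h)))).card : ℝ)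

/-- bound for the second moment -/
noncomputable def S2b (w z d Y X H m1 r0 n : ℕ) (ε : ℝ) : ℝ :=
  (rho z / Real.log Y) ^ 2 * (
        ((m1 : ℝ) + 1) * (ps (PQ w z d) ^ 2 * ((1 + ε) * ((n : ℝ) ^ 2 * FF (PP w d) H) +
          rho z * ((2 * Ex w z X ε + 1) * (n * (H : ℝ) ^ 2)))) +
        (n : ℝ) ^ 2 * (H : ℝ) ^ 2 * (((m1 : ℝ) + 1) * (rho z ^ 6 * Real.exp (-(2 * r0))) +
          (1 + 2 * z) ^ (2 * r0)))

theorem RA_nonneg (A : Finset ℕ) (n : ℕ) : 0 ≤ RA A n := by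
  unfold RA
  apply sum_nonneg
  intro r _
  split_ifs <;> norm_num

theorem core (N d H Y X z w r0 m0 m1 : ℕ) (A : Finset ℕ) (K E ε e : ℝ) (hd : 0 < d)
    (hwz : w ≤ z) (hdz : d ≤ z) (hA : ∀ r ∈ A, r.Prime ∧ z < r ∧ r ≤ Y) (hY : 2 ≤ Y)
    (hm : m0 ≤ m1) (hm0 : 2 * Y ≤ d * m0) (hm1 : d * (m1 + H) ≤ N) (hX : Y + d * H ≤ X) (hε : 0 ≤ ε)
    (hcl : ∀ c : ℕ, Nat.Coprime c d → ∀ t : ℕ, t ≤ N →
      |∑ n ∈ (Icc 1 t).filter (fun n => n ≡ c [MOD d]), f2 z n - Li t / (Nat.totient d : ℝ)| ≤ E)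
    (hl2 : ∑ n ∈ Icc 1 N, (RA A n - Rz z A n) ^ 2 ≤ K ^ 2 * A.card)
    (he0 : 0 ≤ e) (he : ((m1 : ℝ) - m0) * ((H : ℝ) ^ 2 * (K ^ 2 * A.card)) ≤ e ^ 2)
    (heS : e ≤ H * A.card * ((d : ℝ) / (Nat.totient d : ℝ) * ((m1 : ℝ) - m0) / Real.log N - 2 * E)) :
    (H * A.card * ((d : ℝ) / (Nat.totient d : ℝ) * ((m1 : ℝ) - m0) / Real.log N - 2 * E) - e) ^ 2 ≤
      Gd A d H m0 m1 * S2b w z d Y X H m1 r0 A.card ε := by
  classical
  have hcard : (((Ioc m0 m1).card : ℕ) : ℝ) = (m1 : ℝ) - m0 := by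
    rw [Nat.card_Ioc, Nat.cast_sub hm]
  unfold Gd S2b
  apply cs_count (Ioc m0 m1) (fun m => ∑ h ∈ range H, RA A (d * (m + h)))
    (fun m => ∑ h ∈ range H, Rz z A (d * (m + h)))
    (fun m _ => sum_nonneg fun h _ => RA_nonneg A _) _ _ ((H : ℝ) ^ 2 * (K ^ 2 * A.card)) e
  · -- first moment
    rw [sum_comm]
    have h1 : ∀ h ∈ range H, (A.card : ℝ) * ((d : ℝ) / (Nat.totient d : ℝ) * ((m1 : ℝ) - m0) / Real.log N - 2 * E) ≤
        ∑ m ∈ Ioc m0 m1, Rz z A (d * (m + h)) := by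
      intro h hh
      have hh' := mem_range.1 hh
      have h2 : ∀ m ∈ Ioc m0 m1, Rz z A (d * (m + h)) = ∑ r ∈ A, f2 z (d * (m + h) - r) := by
        intro m hm'
        unfold Rz
        congr 1
        apply filter_true_of_mem
        intro r hr
        have := (hA r hr).2.2
        have h3 : d * m0 ≤ d * (m + h) := Nat.mul_le_mul_left d (by have := mem_Ioc.1 hm'; omega)
        omega
      rw [sum_congr rfl h2, sum_comm, ← nsmul_eq_mul, ← sum_const]
      apply sum_le_sum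
      intro r hr
      obtain ⟨hr1, hr2, hr3⟩ := hA r hr
      have hcop : Nat.Coprime r d := by
        rw [hr1.coprime_iff_not_dvd]
        intro h3
        have := Nat.le_of_dvd hd h3
        omega
      apply first_one z N d h r m0 m1 E hd hcop
      · have h3 : d * m0 ≤ d * (m0 + h) := Nat.mul_le_mul_left d (by omega)
        omega
      · exact hm
      · have h3 : d * (m1 + h) ≤ d * (m1 + H) := Nat.mul_le_mul_left d (by omega)
        omega
      · exact hcl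
    have h2 := sum_le_sum h1
    rw [sum_const, card_range, nsmul_eq_mul, ← mul_assoc] at h2
    exact h2
  · exact second w z d Y X H m0 m1 r0 hwz ε hε A (fun r hr => (hA r hr).2.2) hX hY hm0
  · -- error
    have h1 : ∀ m ∈ Ioc m0 m1, (∑ h ∈ range H, RA A (d * (m + h)) - ∑ h ∈ range H, Rz z A (d * (m + h))) ^ 2 ≤
        H * ∑ h ∈ range H, (RA A (d * (m + h)) - Rz z A (d * (m + h))) ^ 2 := by
      intro m _
      rw [← sum_sub_distrib]
      have := sq_sum_le_card_mul_sum_sq (s := range H) (f := fun h => RA A (d * (m + h)) - Rz z A (d * (m + h)))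
      rw [card_range] at this
      exact this
    refine (sum_le_sum h1).trans ?_
    rw [← mul_sum, sum_comm]
    have h2 : ∀ h ∈ range H, ∑ m ∈ Ioc m0 m1, (RA A (d * (m + h)) - Rz z A (d * (m + h))) ^ 2 ≤ K ^ 2 * A.card := by
      intro h hh
      have hh' := mem_range.1 hh
      refine le_trans ?_ hl2
      rw [← sum_image (s := Ioc m0 m1) (g := fun m => d * (m + h))
        (f := fun n => (RA A n - Rz z A n) ^ 2)]
      · apply sum_le_sum_of_subset_of_nonneg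
        · intro n hn
          rw [mem_image] at hn
          obtain ⟨m, hm', rfl⟩ := hn
          have hm2 := mem_Ioc.1 hm'
          rw [mem_Icc]
          constructor
          · exact Nat.mul_pos hd (by omega)
          · have h3 : d * (m + h) ≤ d * (m1 + H) := Nat.mul_le_mul_left d (by omega)
            omega
        · intro n _ _
          exact sq_nonneg _
      · intro x _ y _ hxy
        have := Nat.eq_of_mul_eq_mul_left hd hxy
        omega
    have h3 := sum_le_sum h2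
    rw [sum_const, card_range, nsmul_eq_mul] at h3
    calc (H : ℝ) * ∑ h ∈ range H, ∑ m ∈ Ioc m0 m1, (RA A (d * (m + h)) - Rz z A (d * (m + h))) ^ 2
        ≤ H * (H * (K ^ 2 * A.card)) := mul_le_mul_of_nonneg_left h3 (by positivity)
      _ = _ := by ring
  · exact he0
  · rw [hcard]
    exact he
  · exact heS

end Pool.Agent.Lib.MP_e3f158_nt.U
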