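import Pool.Agent.Lib.MP_e3f158_nt.U.Defs

/-!
# MP_e3f158_nt, theorem U: correlations at a lag are at most the correlations at lag zero
-/

namespace Pool.Agent.Lib.MP_e3f158_nt.U

open Finset

private theorem sq_expand {ι γ : Type*} [DecidableEq γ] [Fintype γ] (X : Finset ι) (φ : ι → γ) :
    ∑ x ∈ X, ∑ y ∈ X, (if φ x = φ y then (1 : ℝ) else 0) =
      ∑ c : γ, (∑ x ∈ X, (if φ x = c then (1 : ℝ) else 0)) ^ 2 := by
  have h1 : ∀ c : γ, (∑ x ∈ X, (if φ x = c then (1 : ℝ) else 0)) ^ 2 =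
      ∑ x ∈ X, ∑ y ∈ X, (if φ x = c then (1 : ℝ) else 0) * (if φ y = c then (1 : ℝ) else 0) := by
    intro c
    rw [sq, sum_mul_sum]
  simp only [h1]
  symm
  rw [sum_comm]
  apply sum_congr rfl
  intro x _
  rw [sum_comm]
  apply sum_congr rfl
  intro y _
  rw [sum_eq_single (φ x)]
  · have h : (φ y = φ x) ↔ (φ x = φ y) := eq_comm
    rw [if_pos rfl, one_mul]
    simp only [h]
  · intro c _ hc
    rw [if_neg (fun h => hc h.symm)]; simp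
  · intro h
    exact absurd (mem_univ _) h

theorem pairs_le (t : ℕ) (ht : 0 < t) (d : ℤ) (A : Finset ℕ) (H : ℕ) :
    ∑ x ∈ A ×ˢ range H, ∑ y ∈ A ×ˢ range H,
      (if (t : ℤ) ∣ (x.1 : ℤ) - y.1 - d * ((x.2 : ℤ) - y.2) then (1 : ℝ) else 0) ≤
    (A.card : ℝ) ^ 2 * ∑ h ∈ range H, ∑ h' ∈ range H,
      (if (t : ℤ) ∣ d * ((h : ℤ) - h') then (1 : ℝ) else 0) := by
  have : NeZero t := ⟨ht.ne'⟩
  let φ : ℕ × ℕ → ZMod t := fun x => ((((x.1 : ℤ) - d * x.2 : ℤ)) : ZMod t)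
  have hφ : ∀ x y : ℕ × ℕ, ((t : ℤ) ∣ (x.1 : ℤ) - y.1 - d * ((x.2 : ℤ) - y.2)) ↔ φ x = φ y := by
    intro x y
    have h1 : (x.1 : ℤ) - y.1 - d * ((x.2 : ℤ) - y.2) = ((x.1 : ℤ) - d * x.2) - ((y.1 : ℤ) - d * y.2) := by ring
    rw [h1, ← ZMod.intCast_zmod_eq_zero_iff_dvd, Int.cast_sub, sub_eq_zero]
  simp only [hφ]
  rw [sq_expand]
  have h2 : ∀ c : ZMod t, (∑ x ∈ A ×ˢ range H, (if φ x = c then (1 : ℝ) else 0)) ^ 2 ≤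
      (A.card : ℝ) * ∑ r ∈ A, (∑ h ∈ range H, (if φ (r, h) = c then (1 : ℝ) else 0)) ^ 2 := by
    intro c
    rw [sum_product]
    exact sq_sum_le_card_mul_sum_sq
  refine (sum_le_sum fun c _ => h2 c).trans ?_
  rw [← mul_sum, sum_comm]
  have h3 : ∀ r ∈ A, ∑ c : ZMod t, (∑ h ∈ range H, (if φ (r, h) = c then (1 : ℝ) else 0)) ^ 2 =
      ∑ h ∈ range H, ∑ h' ∈ range H, (if (t : ℤ) ∣ d * ((h : ℤ) - h') then (1 : ℝ) else 0) := by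
    intro r _
    rw [← sq_expand (range H) (fun h => φ (r, h))]
    apply sum_congr rfl
    intro h _
    apply sum_congr rfl
    intro h' _
    have h4 : φ (r, h) = φ (r, h') ↔ (t : ℤ) ∣ d * ((h : ℤ) - h') := by
      rw [← hφ]
      have h5 : ((((r, h) : ℕ × ℕ).1 : ℤ)) - (((r, h') : ℕ × ℕ).1 : ℤ) -
          d * ((((r, h) : ℕ × ℕ).2 : ℤ) - (((r, h') : ℕ × ℕ).2 : ℤ)) = -(d * ((h : ℤ) - h')) := by
        push_cast; ring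
      rw [h5, dvd_neg]
    simp only [h4]
  rw [sum_congr rfl h3, sum_const, nsmul_eq_mul, sq, mul_assoc]

theorem forall_dvd_iff (T : Finset ℕ) (hT : ∀ p ∈ T, p.Prime) (k : ℤ) :
    (∀ p ∈ T, (p : ℤ) ∣ k) ↔ ((∏ p ∈ T, p : ℕ) : ℤ) ∣ k := by
  constructor
  · intro h
    push_cast
    apply Finset.prod_dvd_of_coprime
    · intro p hp q hq hpq
      show IsCoprime (p : ℤ) (q : ℤ)
      rw [Nat.isCoprime_iff_coprime]
      exact (Nat.coprime_primes (hT p hp) (hT q hq)).2 hpq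
    · exact h
  · intro h p hp
    refine dvd_trans ?_ h
    exact_mod_cast dvd_prod_of_mem (fun p => p) hp

theorem LP_expand (S : Finset ℕ) (hS : ∀ p ∈ S, p.Prime) (k : ℤ) :
    LP S k = ∑ T ∈ S.powerset, ((∏ p ∈ T, 1 / (p : ℝ)) * ∏ p ∈ S \ T, (1 - 2 / (p : ℝ))) *
      (if ((∏ p ∈ T, p : ℕ) : ℤ) ∣ k then (1 : ℝ) else 0) := by
  unfold LP
  have h1 : ∀ p ∈ S, loc p k = (if (p : ℤ) ∣ k then 1 / (p : ℝ) else 0) + (1 - 2 / (p : ℝ)) := by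
    intro p _
    unfold loc
    split_ifs <;> ring
  rw [prod_congr rfl h1, prod_add]
  apply sum_congr rfl
  intro T hT
  rw [mem_powerset] at hT
  have h2 : ∏ p ∈ T, (if (p : ℤ) ∣ k then 1 / (p : ℝ) else 0) =
      (∏ p ∈ T, 1 / (p : ℝ)) * (if ((∏ p ∈ T, p : ℕ) : ℤ) ∣ k then (1 : ℝ) else 0) := by
    by_cases h : ∀ p ∈ T, (p : ℤ) ∣ k
    · rw [if_pos ((forall_dvd_iff T (fun p hp => hS p (hT hp)) k).1 h), mul_one]
      exact prod_congr rfl fun p hp => if_pos (h p hp)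
    · rw [if_neg (fun h' => h ((forall_dvd_iff T (fun p hp => hS p (hT hp)) k).2 h')), mul_zero]
      push Not at h
      obtain ⟨p, hp, hpk⟩ := h
      exact prod_eq_zero hp (if_neg hpk)
  rw [h2]
  ring

theorem corr (S : Finset ℕ) (hS : ∀ p ∈ S, p.Prime) (d : ℤ) (hd : ∀ p ∈ S, ¬ (p : ℤ) ∣ d)
    (A : Finset ℕ) (H : ℕ) :
    ∑ x ∈ A ×ˢ range H, ∑ y ∈ A ×ˢ range H, LP S ((x.1 : ℤ) - y.1 - d * ((x.2 : ℤ) - y.2)) ≤
      (A.card : ℝ) ^ 2 * FF S H := by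
  have hFF : FF S H = ∑ h ∈ range H, ∑ h' ∈ range H, LP S (d * ((h : ℤ) - h')) := by
    unfold FF
    apply sum_congr rfl
    intro h _
    apply sum_congr rfl
    intro h' _
    unfold LP
    apply prod_congr rfl
    intro p hp
    unfold loc
    have h1 : (p : ℤ) ∣ d * ((h : ℤ) - h') ↔ (p : ℤ) ∣ (h : ℤ) - h' := by
      constructor
      · intro h2
        exact ((Nat.prime_iff_prime_int.1 (hS p hp)).dvd_or_dvd h2).resolve_left (hd p hp)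
      · intro h2
        exact h2.mul_left _
    simp only [h1]
  rw [hFF]
  have hexp := LP_expand S hS
  simp only [hexp]
  have h1 : ∑ x ∈ A ×ˢ range H, ∑ y ∈ A ×ˢ range H, ∑ T ∈ S.powerset,
      ((∏ p ∈ T, 1 / (p : ℝ)) * ∏ p ∈ S \ T, (1 - 2 / (p : ℝ))) *
      (if ((∏ p ∈ T, p : ℕ) : ℤ) ∣ (x.1 : ℤ) - y.1 - d * ((x.2 : ℤ) - y.2) then (1 : ℝ) else 0) =
      ∑ T ∈ S.powerset, ((∏ p ∈ T, 1 / (p : ℝ)) * ∏ p ∈ S \ T, (1 - 2 / (p : ℝ))) *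
      ∑ x ∈ A ×ˢ range H, ∑ y ∈ A ×ˢ range H,
      (if ((∏ p ∈ T, p : ℕ) : ℤ) ∣ (x.1 : ℤ) - y.1 - d * ((x.2 : ℤ) - y.2) then (1 : ℝ) else 0) := by
    simp only [mul_sum]
    have : ∀ x ∈ A ×ˢ range H, ∑ y ∈ A ×ˢ range H, ∑ T ∈ S.powerset,
      ((∏ p ∈ T, 1 / (p : ℝ)) * ∏ p ∈ S \ T, (1 - 2 / (p : ℝ))) *
      (if ((∏ p ∈ T, p : ℕ) : ℤ) ∣ (x.1 : ℤ) - y.1 - d * ((x.2 : ℤ) - y.2) then (1 : ℝ) else 0) =
      ∑ T ∈ S.powerset, ∑ y ∈ A ×ˢ range H,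
      ((∏ p ∈ T, 1 / (p : ℝ)) * ∏ p ∈ S \ T, (1 - 2 / (p : ℝ))) *
      (if ((∏ p ∈ T, p : ℕ) : ℤ) ∣ (x.1 : ℤ) - y.1 - d * ((x.2 : ℤ) - y.2) then (1 : ℝ) else 0) :=
      fun x _ => sum_comm
    rw [sum_congr rfl this, sum_comm]
  have h2 : ∑ h ∈ range H, ∑ h' ∈ range H, ∑ T ∈ S.powerset,
      ((∏ p ∈ T, 1 / (p : ℝ)) * ∏ p ∈ S \ T, (1 - 2 / (p : ℝ))) *
      (if ((∏ p ∈ T, p : ℕ) : ℤ) ∣ d * ((h : ℤ) - h') then (1 : ℝ) else 0) =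
      ∑ T ∈ S.powerset, ((∏ p ∈ T, 1 / (p : ℝ)) * ∏ p ∈ S \ T, (1 - 2 / (p : ℝ))) *
      ∑ h ∈ range H, ∑ h' ∈ range H,
      (if ((∏ p ∈ T, p : ℕ) : ℤ) ∣ d * ((h : ℤ) - h') then (1 : ℝ) else 0) := by
    simp only [mul_sum]
    have : ∀ h ∈ range H, ∑ h' ∈ range H, ∑ T ∈ S.powerset,
      ((∏ p ∈ T, 1 / (p : ℝ)) * ∏ p ∈ S \ T, (1 - 2 / (p : ℝ))) *
      (if ((∏ p ∈ T, p : ℕ) : ℤ) ∣ d * ((h : ℤ) - h') then (1 : ℝ) else 0) =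
      ∑ T ∈ S.powerset, ∑ h' ∈ range H,
      ((∏ p ∈ T, 1 / (p : ℝ)) * ∏ p ∈ S \ T, (1 - 2 / (p : ℝ))) *
      (if ((∏ p ∈ T, p : ℕ) : ℤ) ∣ d * ((h : ℤ) - h') then (1 : ℝ) else 0) :=
      fun h _ => sum_comm
    rw [sum_congr rfl this, sum_comm]
  rw [h1, h2, mul_sum]
  apply sum_le_sum
  intro T hT
  rw [mem_powerset] at hT
  have h3 : 0 ≤ (∏ p ∈ T, 1 / (p : ℝ)) * ∏ p ∈ S \ T, (1 - 2 / (p : ℝ)) := by
    apply mul_nonneg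
    · exact prod_nonneg fun p _ => by positivity
    · apply prod_nonneg
      intro p hp
      have hp2 : (2 : ℝ) ≤ p := by exact_mod_cast (hS p (mem_sdiff.1 hp).1).two_le
      rw [sub_nonneg, div_le_one (by linarith)]
      exact hp2
  have h4 := pairs_le (∏ p ∈ T, p) (prod_pos fun p hp => (hS p (hT hp)).pos) d A H
  calc _ ≤ ((∏ p ∈ T, 1 / (p : ℝ)) * ∏ p ∈ S \ T, (1 - 2 / (p : ℝ))) * _ := mul_le_mul_of_nonneg_left h4 h3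
    _ = _ := by ring

end Pool.Agent.Lib.MP_e3f158_nt.U
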