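import Mathlib

/-!
# MP_e3f158_nt, theorem U: definitions
-/

namespace Pool.Agent.Lib.MP_e3f158_nt.U

open Finset

/-- the probability that a random residue `x` mod `p` has `p ∤ x` and `p ∤ x + k` -/
noncomputable def loc (p : ℕ) (k : ℤ) : ℝ := 1 - (if (p : ℤ) ∣ k then 1 else 2) / (p : ℝ)

/-- product of `loc p k` over `p ∈ S` -/
noncomputable def LP (S : Finset ℕ) (k : ℤ) : ℝ := ∏ p ∈ S, loc p k

/-- `∏_{p ∈ S} (1 - 1/p)` -/
noncomputable def ps (S : Finset ℕ) : ℝ := ∏ p ∈ S, (1 - 1 / (p : ℝ))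

/-- correlation sum of a window of length `H` -/
noncomputable def FF (S : Finset ℕ) (H : ℕ) : ℝ :=
  ∑ h ∈ range H, ∑ h' ∈ range H, LP S ((h : ℤ) - h')

end Pool.Agent.Lib.MP_e3f158_nt.U
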