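import Pool.Agent.Lib.MP_e3f158_nt.U.Defs

/-!
# MP_e3f158_nt, theorem U: the numbers with many prime factors just above `w` are rare
-/

namespace Pool.Agent.Lib.MP_e3f158_nt.U

open Finset

/-- `∏ (1 - 1/p)⁻¹` over the primes `p ∈ (w, z]` dividing `k` -/
noncomputable def GG (w z : ℕ) (k : ℤ) : ℝ :=
  ∏ p ∈ (Ioc w z).filter (fun p : ℕ => p.Prime ∧ (p : ℤ) ∣ k), (1 - 1 / (p : ℝ))⁻¹

theorem inv_fac_le (p : ℕ) (hp : p.Prime) : (1 - 1 / (p : ℝ))⁻¹ ≤ Real.exp (2 / p) := by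
  have hp2 : (2 : ℝ) ≤ p := by exact_mod_cast hp.two_le
  have hp0 : (0 : ℝ) < p := by linarith
  have hp1 : (0 : ℝ) < p - 1 := by linarith
  have h1 : (1 - 1 / (p : ℝ))⁻¹ = 1 + 1 / ((p : ℝ) - 1) := by
    have h2 : (1 - 1 / (p : ℝ)) = (p - 1) / p := by field_simp
    rw [h2, inv_div]
    field_simp
    ring
  have h3 : 1 / ((p : ℝ) - 1) ≤ 2 / p := by
    rw [div_le_div_iff₀ hp1 hp0]
    linarith
  have h4 := Real.add_one_le_exp (1 / ((p : ℝ) - 1))
  have h5 : Real.exp (1 / ((p : ℝ) - 1)) ≤ Real.exp (2 / p) := Real.exp_le_exp.2 h3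
  linarith

theorem inv_fac_ge (p : ℕ) (hp : p.Prime) : 1 ≤ (1 - 1 / (p : ℝ))⁻¹ := by
  have hp2 : (2 : ℝ) ≤ p := by exact_mod_cast hp.two_le
  have h2 : 1 / (p : ℝ) ≤ 1 / 2 := one_div_le_one_div_of_le (by norm_num) hp2
  have h3 : 0 < 1 / (p : ℝ) := by positivity
  apply one_le_inv_iff₀.2
  constructor <;> linarith

theorem GG_ge_one (w z : ℕ) (k : ℤ) : 1 ≤ GG w z k := by
  unfold GG
  have h1 : ∏ p ∈ (Ioc w z).filter (fun p : ℕ => p.Prime ∧ (p : ℤ) ∣ k), (1 : ℝ) ≤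
      ∏ p ∈ (Ioc w z).filter (fun p : ℕ => p.Prime ∧ (p : ℤ) ∣ k), (1 - 1 / (p : ℝ))⁻¹ :=
    prod_le_prod (fun _ _ => zero_le_one) fun p hp => inv_fac_ge p (mem_filter.1 hp).2.1
  simpa using h1

theorem GG_le (w z : ℕ) (k : ℤ) : GG w z k ≤
    Real.exp (2 * ∑ p ∈ (Ioc w z).filter (fun p : ℕ => p.Prime ∧ (p : ℤ) ∣ k), 1 / (p : ℝ)) := by
  unfold GG
  rw [mul_sum, Real.exp_sum]
  refine prod_le_prod (fun p hp => ?_) fun p hp => ?_
  · exact zero_le_one.trans (inv_fac_ge p (mem_filter.1 hp).2.1)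
  · refine (inv_fac_le p (mem_filter.1 hp).2.1).trans (le_of_eq ?_)
    congr 1
    ring

theorem exp_moment (κ : ℝ) (hκ : 0 ≤ κ) (w z X : ℕ) (hw : 1 ≤ w) :
    ∑ k ∈ Icc 1 X, Real.exp (κ * w * ∑ p ∈ (Ioc w z).filter (fun p : ℕ => p.Prime ∧ (p : ℤ) ∣ (k : ℤ)), 1 / (p : ℝ)) ≤
      X * Real.exp (κ * Real.exp κ) := by
  classical
  set P := (Ioc w z).filter Nat.Prime with hP
  have hwr : (1 : ℝ) ≤ w := by exact_mod_cast hw
  have hPp : ∀ p ∈ P, p.Prime ∧ w < p := fun p hp =>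
    ⟨(mem_filter.1 hp).2, (mem_Ioc.1 (mem_filter.1 hp).1).1⟩
  let e : ℕ → ℝ := fun p => Real.exp (κ * w / p) - 1
  have he0 : ∀ p, 0 ≤ e p := by
    intro p
    have : (1 : ℝ) ≤ Real.exp (κ * w / p) := Real.one_le_exp (by positivity)
    show 0 ≤ Real.exp (κ * w / p) - 1
    linarith
  have h1 : ∀ k ∈ Icc 1 X, Real.exp (κ * w * ∑ p ∈ (Ioc w z).filter (fun p : ℕ => p.Prime ∧ (p : ℤ) ∣ (k : ℤ)), 1 / (p : ℝ)) =
      ∑ D ∈ P.powerset, (∏ p ∈ D, e p) * (if (∏ p ∈ D, p) ∣ k then (1 : ℝ) else 0) := by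
    intro k _
    have h2 : (Ioc w z).filter (fun p : ℕ => p.Prime ∧ (p : ℤ) ∣ (k : ℤ)) = P.filter (fun p => p ∣ k) := by
      rw [hP, filter_filter]
      apply filter_congr
      intro p _
      rw [Int.natCast_dvd_natCast]
    rw [h2, mul_sum, Real.exp_sum]
    have h3 : ∏ p ∈ P.filter (fun p => p ∣ k), Real.exp (κ * w * (1 / (p : ℝ))) =
        ∏ p ∈ P, (1 + (if p ∣ k then e p else 0)) := by
      rw [prod_filter]
      apply prod_congr rfl
      intro p _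
      by_cases h : p ∣ k
      · rw [if_pos h, if_pos h]
        show Real.exp (κ * w * (1 / (p : ℝ))) = 1 + (Real.exp (κ * w / p) - 1)
        rw [mul_one_div]; ring
      · rw [if_neg h, if_neg h]; ring
    rw [h3, prod_one_add]
    apply sum_congr rfl
    intro D hD
    rw [mem_powerset] at hD
    by_cases h : (∏ p ∈ D, p) ∣ k
    · rw [if_pos h, mul_one]
      exact prod_congr rfl fun p hp => if_pos ((dvd_prod_of_mem (fun p => p) hp).trans h)
    · rw [if_neg h, mul_zero]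
      have h4 : ¬ ∀ p ∈ D, p ∣ k := by
        intro h5
        apply h
        apply Finset.prod_primes_dvd
        · intro p hp
          exact (hPp p (hD hp)).1.prime
        · exact h5
      push Not at h4
      obtain ⟨p, hp, hpk⟩ := h4
      exact prod_eq_zero hp (if_neg hpk)
  rw [sum_congr rfl h1, sum_comm]
  have h5 : ∀ D ∈ P.powerset, ∑ k ∈ Icc 1 X, (∏ p ∈ D, e p) * (if (∏ p ∈ D, p) ∣ k then (1 : ℝ) else 0) ≤
      X * ∏ p ∈ D, (e p / p) := by
    intro D hD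
    rw [mem_powerset] at hD
    rw [← mul_sum, ← sum_filter, sum_const, nsmul_eq_mul, mul_one]
    have h6 : ((Icc 1 X).filter (fun k => (∏ p ∈ D, p) ∣ k)).card = X / (∏ p ∈ D, p) := by
      have := Nat.Ioc_filter_dvd_card_eq_div X (∏ p ∈ D, p)
      rw [← this]
      rfl
    rw [h6, prod_div_distrib]
    have h7 : ((X / (∏ p ∈ D, p) : ℕ) : ℝ) ≤ (X : ℝ) / ((∏ p ∈ D, p : ℕ) : ℝ) := Nat.cast_div_le
    push_cast at h7
    have h8 : 0 ≤ ∏ p ∈ D, e p := prod_nonneg fun p _ => he0 p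
    calc (∏ p ∈ D, e p) * ((X / (∏ p ∈ D, p) : ℕ) : ℝ) ≤ (∏ p ∈ D, e p) * ((X : ℝ) / ∏ p ∈ D, (p : ℝ)) :=
          mul_le_mul_of_nonneg_left h7 h8
      _ = _ := by ring
  refine (sum_le_sum h5).trans ?_
  rw [← mul_sum, ← prod_one_add]
  apply mul_le_mul_of_nonneg_left _ (by positivity)
  have h9 : ∏ p ∈ P, (1 + e p / p) ≤ Real.exp (∑ p ∈ P, e p / p) := by
    rw [Real.exp_sum]
    refine prod_le_prod (fun p _ => ?_) fun p _ => ?_
    · have := he0 p
      positivity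
    · have := Real.add_one_le_exp (e p / p)
      linarith
  refine h9.trans ?_
  rw [Real.exp_le_exp]
  have h10 : ∀ p ∈ P, e p / p ≤ κ * Real.exp κ * w * ((p : ℝ) ^ 2)⁻¹ := by
    intro p hp
    obtain ⟨hpp, hwp⟩ := hPp p hp
    have hp0 : (0 : ℝ) < p := by exact_mod_cast hpp.pos
    have hwp' : (w : ℝ) / p ≤ 1 := by
      rw [div_le_one hp0]
      exact_mod_cast hwp.le
    have h11 : κ * w / p ≤ κ := by
      rw [mul_div_assoc]
      nlinarith
    have h12 : (0 : ℝ) ≤ κ * w / p := by positivity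
    have h13 : Real.exp (κ * w / p) - 1 ≤ (κ * w / p) * Real.exp (κ * w / p) := by
      have h14 := Real.add_one_le_exp (-(κ * w / p))
      have h15 : Real.exp (-(κ * w / p)) * Real.exp (κ * w / p) = 1 := by
        rw [← Real.exp_add, neg_add_cancel, Real.exp_zero]
      have h16 := Real.exp_pos (κ * w / p)
      nlinarith
    have h17 : Real.exp (κ * w / p) ≤ Real.exp κ := Real.exp_le_exp.2 h11
    calc e p / p ≤ ((κ * w / p) * Real.exp κ) / p := by
          apply div_le_div_of_nonneg_right _ hp0.le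
          exact h13.trans (mul_le_mul_of_nonneg_left h17 h12)
      _ = κ * Real.exp κ * w * ((p : ℝ) ^ 2)⁻¹ := by
          field_simp
  refine (sum_le_sum h10).trans ?_
  rw [← mul_sum]
  have h18 : ∑ p ∈ P, ((p : ℝ) ^ 2)⁻¹ ≤ (w : ℝ)⁻¹ := by
    rcases Nat.lt_or_ge z w with hzw | hzw
    · have : P = ∅ := by
        rw [hP, Ioc_eq_empty (by omega)]
        simp
      rw [this, sum_empty]
      positivity
    · refine (sum_le_sum_of_subset_of_nonneg (filter_subset _ _) fun p _ _ => by positivity).trans ?_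
      have := sum_Ioc_inv_sq_le_sub (α := ℝ) (k := w) (n := z) (by omega) hzw
      have h19 : (0 : ℝ) ≤ (z : ℝ)⁻¹ := by positivity
      linarith
  calc κ * Real.exp κ * w * ∑ p ∈ P, ((p : ℝ) ^ 2)⁻¹ ≤ κ * Real.exp κ * w * (w : ℝ)⁻¹ := by
        apply mul_le_mul_of_nonneg_left h18
        have := Real.exp_pos κ
        positivity
    _ = κ * Real.exp κ := by
        have : (w : ℝ) ≠ 0 := by positivity
        field_simp

theorem exc (ε : ℝ) (hε : 0 < ε) (B : ℝ) (hB : 0 ≤ B) : ∃ C : ℝ, 0 < C ∧ ∀ w z X : ℕ, 1 ≤ w →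
    (((Icc 1 X).filter fun k : ℕ => 1 + ε < GG w z (k : ℤ)).card : ℝ) ≤ C * X * Real.exp (-(B * w)) := by
  set ε2 := Real.log (1 + ε) / 2 with hε2
  have hl : 0 < Real.log (1 + ε) := Real.log_pos (by linarith)
  have hε20 : 0 < ε2 := by positivity
  set κ := B / ε2 with hκ
  have hκ0 : 0 ≤ κ := by positivity
  refine ⟨Real.exp (κ * Real.exp κ), Real.exp_pos _, fun w z X hw => ?_⟩
  have h1 := exp_moment κ hκ0 w z X hw
  have h2 : (((Icc 1 X).filter fun k : ℕ => 1 + ε < GG w z (k : ℤ)).card : ℝ) * Real.exp (B * w) ≤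
      ∑ k ∈ Icc 1 X, Real.exp (κ * w * ∑ p ∈ (Ioc w z).filter (fun p : ℕ => p.Prime ∧ (p : ℤ) ∣ (k : ℤ)), 1 / (p : ℝ)) := by
    rw [← nsmul_eq_mul, ← sum_const]
    refine le_trans (sum_le_sum fun k hk => ?_) (sum_le_sum_of_subset_of_nonneg (filter_subset _ _)
      fun k _ _ => (Real.exp_pos _).le)
    rw [mem_filter] at hk
    rw [Real.exp_le_exp]
    have h3 := hk.2.trans_le (GG_le w z k)
    have h4 : Real.log (1 + ε) < 2 * ∑ p ∈ (Ioc w z).filter (fun p : ℕ => p.Prime ∧ (p : ℤ) ∣ (k : ℤ)), 1 / (p : ℝ) := by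
      rw [Real.log_lt_iff_lt_exp (by linarith)]
      exact h3
    have h5 : ε2 ≤ ∑ p ∈ (Ioc w z).filter (fun p : ℕ => p.Prime ∧ (p : ℤ) ∣ (k : ℤ)), 1 / (p : ℝ) := by
      rw [hε2]; linarith
    have h6 : B * w = κ * w * ε2 := by
      rw [hκ]; field_simp
    rw [h6]
    exact mul_le_mul_of_nonneg_left h5 (by positivity)
  have h3 := h2.trans h1
  have h4 : Real.exp (-(B * w)) * Real.exp (B * w) = 1 := by
    rw [← Real.exp_add, neg_add_cancel, Real.exp_zero]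
  have h5 := Real.exp_pos (B * w)
  have h6 : (((Icc 1 X).filter fun k : ℕ => 1 + ε < GG w z (k : ℤ)).card : ℝ) ≤
      X * Real.exp (κ * Real.exp κ) / Real.exp (B * w) := by
    rw [le_div_iff₀ h5]
    exact h3
  refine h6.trans (le_of_eq ?_)
  rw [Real.exp_neg]
  field_simp

end Pool.Agent.Lib.MP_e3f158_nt.U
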