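import Mathlib

/-!
# MP_e3f158_nt, theorem U: the real analysis of the final step (no project imports)
-/

set_option autoImplicit false

namespace Pool.Agent.Lib.MP_e3f158_nt.U

open Finset Filter

theorem ev_log (c : ℝ) : ∀ᶠ N : ℕ in atTop, c ≤ Real.log N :=
  (Real.tendsto_log_atTop.comp (tendsto_natCast_atTop_atTop (R := ℝ))).eventually_ge_atTop c

theorem ev_rpow (k : ℕ) (c η : ℝ) (hη : 0 < η) : ∀ᶠ N : ℕ in atTop, c * (Real.log N) ^ k ≤ (N : ℝ) ^ η := by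
  have h1 : (fun x : ℝ => Real.log x ^ (k : ℝ)) =o[atTop] fun x : ℝ => x ^ η :=
    isLittleO_log_rpow_rpow_atTop _ hη
  have h2 := h1.bound (c := 1 / (|c| + 1)) (by positivity)
  filter_upwards [tendsto_natCast_atTop_atTop.eventually h2, eventually_ge_atTop 1] with N hN hN1
  have hN1' : (1 : ℝ) ≤ N := by exact_mod_cast hN1
  have h4 : 0 ≤ Real.log (N : ℝ) := Real.log_natCast_nonneg N
  rw [Real.rpow_natCast, Real.norm_of_nonneg (by positivity), Real.norm_of_nonneg (by positivity)] at hN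
  have h5 : 0 ≤ Real.log (N : ℝ) ^ k := by positivity
  have h6 : c ≤ |c| + 1 := by linarith [le_abs_self c]
  calc c * Real.log (N : ℝ) ^ k ≤ (|c| + 1) * Real.log (N : ℝ) ^ k := mul_le_mul_of_nonneg_right h6 h5
    _ ≤ (|c| + 1) * (1 / (|c| + 1) * (N : ℝ) ^ η) := mul_le_mul_of_nonneg_left hN (by positivity)
    _ = _ := by field_simp

theorem ev_loglog (c : ℝ) : ∀ᶠ N : ℕ in atTop, c * (Real.log (Real.log N)) ^ 2 ≤ Real.log N := by
  have h1 := (Real.isLittleO_pow_log_id_atTop (n := 2)).bound (c := 1 / (|c| + 1)) (by positivity)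
  have h2 := (Real.tendsto_log_atTop.comp (tendsto_natCast_atTop_atTop (R := ℝ))).eventually h1
  filter_upwards [h2, ev_log 0] with N hN hN0
  simp only [id, Function.comp] at hN
  rw [Real.norm_of_nonneg (by positivity), Real.norm_of_nonneg hN0] at hN
  have h6 : c ≤ |c| + 1 := by linarith [le_abs_self c]
  have h5 : 0 ≤ Real.log (Real.log N) ^ 2 := sq_nonneg _
  calc c * (Real.log (Real.log N)) ^ 2 ≤ (|c| + 1) * (Real.log (Real.log N)) ^ 2 := mul_le_mul_of_nonneg_right h6 h5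
    _ ≤ (|c| + 1) * (1 / (|c| + 1) * Real.log N) := mul_le_mul_of_nonneg_left hN (by positivity)
    _ = _ := by field_simp

theorem ev_loglog1 (c : ℝ) : ∀ᶠ N : ℕ in atTop, c ≤ Real.log (Real.log N) :=
  (Real.tendsto_log_atTop.comp (Real.tendsto_log_atTop.comp
    (tendsto_natCast_atTop_atTop (R := ℝ)))).eventually_ge_atTop c

theorem fin_a (N L δ κ M Nd η1 : ℝ) (C : ℕ) (hNr : 0 < N) (hL0 : 0 < L) (hδ : 0 < δ) (hκ1 : 1 ≤ κ)
    (hMpos : 0 < M) (hNdL : N / L ^ C ≤ Nd) (hMhalf : Nd / 2 ≤ M)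
    (e8 : 4 / δ * L ^ (C + 1) ≤ N ^ η1) : 2 * N ^ (1 - η1) ≤ δ * (κ * M / L) := by
  have h1 : N ^ (1 - η1) = N / N ^ η1 := by
    rw [Real.rpow_sub hNr, Real.rpow_one]
  have h3 : (0 : ℝ) < N ^ η1 := Real.rpow_pos_of_pos hNr _
  have h4 : N / (2 * L ^ C) / L ≤ κ * M / L := by
    apply div_le_div_of_nonneg_right _ hL0.le
    have h5 : N / (2 * L ^ C) ≤ M := by
      refine le_trans ?_ hMhalf
      calc N / (2 * L ^ C) = (N / L ^ C) / 2 := by field_simp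
        _ ≤ Nd / 2 := by linarith
    exact h5.trans (le_mul_of_one_le_left hMpos.le hκ1)
  rw [h1]
  refine le_trans ?_ (mul_le_mul_of_nonneg_left h4 hδ.le)
  rw [mul_div_assoc', div_le_iff₀ h3]
  calc 2 * N = δ * (N / (2 * L ^ C) / L) * (4 / δ * L ^ (C + 1)) := by
        field_simp
        ring
    _ ≤ δ * (N / (2 * L ^ C) / L) * N ^ η1 := mul_le_mul_of_nonneg_left e8 (by positivity)

theorem fin_b (N L δ κ M Nd n : ℝ) (a C : ℕ) (hNr : 0 < N) (hL0 : 0 < L) (hL1 : 1 ≤ L) (hδ : 0 < δ)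
    (hκ1 : 1 ≤ κ) (hMpos : 0 < M) (hn : 0 < n) (hNdL : N / L ^ C ≤ Nd) (hMhalf : Nd / 2 ≤ M)
    (hAc : N / L ^ (a + 2) ≤ n) (e9 : 2 / δ ^ 2 ≤ L) :
    N / L ^ (a + C + 5) * Real.sqrt (M * n) ≤ δ * (n * (κ * M / L)) := by
  obtain ⟨K, hK⟩ : ∃ K, K = N / L ^ (a + C + 5) := ⟨_, rfl⟩
  have hK0 : 0 < K := by rw [hK]; positivity
  rw [← hK]
  have hMn : 0 ≤ M * n := (mul_pos hMpos hn).le
  have h1 : K * L ≤ δ * Real.sqrt (M * n) := by
    rw [← Real.sqrt_sq (mul_pos hK0 hL0).le, ← Real.sqrt_sq hδ.le, ← Real.sqrt_mul (sq_nonneg δ)]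
    apply Real.sqrt_le_sqrt
    have h2 : N / (2 * L ^ C) ≤ M := by
      refine le_trans ?_ hMhalf
      calc N / (2 * L ^ C) = (N / L ^ C) / 2 := by field_simp
        _ ≤ Nd / 2 := by linarith
    have h3 : N / (2 * L ^ C) * (N / L ^ (a + 2)) ≤ M * n :=
      mul_le_mul h2 hAc (by positivity) hMpos.le
    refine le_trans ?_ (mul_le_mul_of_nonneg_left h3 (sq_nonneg δ))
    have h4 : (K * L) ^ 2 = N ^ 2 / (L ^ (2 * a + 2 * C + 8)) := by
      rw [hK]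
      field_simp
      ring
    have h5 : δ ^ 2 * (N / (2 * L ^ C) * (N / L ^ (a + 2))) = δ ^ 2 * N ^ 2 / (2 * L ^ (a + C + 2)) := by
      field_simp
      ring
    rw [h4, h5, div_le_div_iff₀ (by positivity) (by positivity)]
    have h6 : 2 ≤ δ ^ 2 * L := by
      rw [div_le_iff₀ (by positivity)] at e9
      linarith
    have h7 : L ≤ L ^ (a + C + 6) := by
      calc L = L ^ 1 := (pow_one L).symm
        _ ≤ L ^ (a + C + 6) := pow_le_pow_right₀ hL1 (by omega)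
    have h8 : 2 ≤ δ ^ 2 * L ^ (a + C + 6) := h6.trans (mul_le_mul_of_nonneg_left h7 (sq_nonneg δ))
    calc N ^ 2 * (2 * L ^ (a + C + 2)) = (N ^ 2 * L ^ (a + C + 2)) * 2 := by ring
      _ ≤ (N ^ 2 * L ^ (a + C + 2)) * (δ ^ 2 * L ^ (a + C + 6)) := mul_le_mul_of_nonneg_left h8 (by positivity)
      _ = δ ^ 2 * N ^ 2 * L ^ (2 * a + 2 * C + 8) := by ring
  have hs : 0 ≤ Real.sqrt (M * n) := Real.sqrt_nonneg _
  have hss : Real.sqrt (M * n) * Real.sqrt (M * n) = M * n := Real.mul_self_sqrt hMn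
  have h2 : K * Real.sqrt (M * n) * L ≤ δ * (M * n) := by
    calc K * Real.sqrt (M * n) * L = (K * L) * Real.sqrt (M * n) := by ring
      _ ≤ (δ * Real.sqrt (M * n)) * Real.sqrt (M * n) := mul_le_mul_of_nonneg_right h1 hs
      _ = δ * (M * n) := by rw [mul_assoc, hss]
  have h3 : K * Real.sqrt (M * n) ≤ δ * (M * n) / L := by
    rw [le_div_iff₀ hL0]
    exact h2
  refine h3.trans ?_
  have h4 : δ * (M * n) / L = δ * (n * (1 * M / L)) := by ring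
  rw [h4]
  refine mul_le_mul_of_nonneg_left (mul_le_mul_of_nonneg_left ?_ hn.le) hδ.le
  exact div_le_div_of_nonneg_right (mul_le_mul_of_nonneg_right hκ1 hMpos.le) hL0.le

theorem fin_logY (N K0 Y : ℕ) (ε1 : ℝ) (hK01 : 1 ≤ K0) (hN0 : 0 < N) (hY : Y = N / K0)
    (e15 : 2 ≤ Y) (hε1 : 0 < ε1) (e6 : 4 * Real.log (2 * K0) / ε1 ≤ Real.log N) :
    (1 - ε1 / 4) * Real.log N ≤ Real.log Y := by
  have hK0pos : (0 : ℝ) < K0 := by exact_mod_cast hK01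
  have hNr : (0 : ℝ) < N := by exact_mod_cast hN0
  have hYlow : (N : ℝ) / (2 * K0) ≤ Y := by
    have f1 : N < K0 * (Y + 1) := by
      rw [hY]
      exact Nat.lt_mul_div_succ N (by omega)
    have f2 : (N : ℝ) < K0 * (Y + 1) := by exact_mod_cast f1
    have f4 : (2 : ℝ) ≤ Y := by exact_mod_cast e15
    have f3 : (Y : ℝ) + 1 ≤ 2 * Y := by linarith
    rw [div_le_iff₀ (by positivity)]
    have f5 := mul_le_mul_of_nonneg_left f3 hK0pos.le
    linarith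
  have h1 : Real.log ((N : ℝ) / (2 * K0)) ≤ Real.log Y := Real.log_le_log (by positivity) hYlow
  rw [Real.log_div hNr.ne' (by positivity)] at h1
  have h2 : 4 * Real.log (2 * K0) ≤ ε1 * Real.log N := by
    rw [div_le_iff₀ hε1] at e6
    linarith
  linarith

theorem fin_ex (N L ρ ε1 C2 Ex n X : ℝ) (a w : ℕ) (hNr : 0 < N) (hL0 : 0 < L) (hL1 : 1 ≤ L)
    (hε1 : 0 < ε1) (hC2 : 0 < C2) (hw : w = ⌊Real.log L⌋₊) (hX : X = 2 * N)
    (h1 : Ex ≤ C2 * X * Real.exp (-(((a : ℝ) + 7) * w))) (hEx0 : 0 ≤ Ex)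
    (hρ0 : 0 < ρ) (hρL : ρ ≤ L) (e12 : 8 * C2 * Real.exp (a + 7) / ε1 ≤ L)
    (e13 : 2 / ε1 * L ^ (a + 5) ≤ N) (hAc : N / L ^ (a + 2) ≤ n) :
    ρ ^ 3 * (2 * Ex + 1) ≤ ε1 * n := by
  have h2 : Real.log L - 1 ≤ w := by
    have := Nat.lt_floor_add_one (Real.log L)
    rw [hw]
    linarith
  have h3 : Real.exp (-(((a : ℝ) + 7) * w)) ≤ Real.exp (a + 7) / L ^ (a + 7) := by
    have h4 : Real.exp (-(((a : ℝ) + 7) * w)) ≤ Real.exp (((a : ℝ) + 7) - (a + 7 : ℕ) * Real.log L) := by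
      rw [Real.exp_le_exp]
      push_cast
      have h5 : (0 : ℝ) ≤ (a : ℝ) + 7 := by positivity
      have h6 := mul_le_mul_of_nonneg_left h2 h5
      linarith
    refine h4.trans (le_of_eq ?_)
    rw [Real.exp_sub, Real.exp_nat_mul, Real.exp_log hL0]
  have h4 : Ex ≤ C2 * (2 * N) * (Real.exp (a + 7) / L ^ (a + 7)) := by
    refine h1.trans ?_
    rw [hX]
    exact mul_le_mul_of_nonneg_left h3 (by positivity)
  have h5 : ρ ^ 3 ≤ L ^ 3 := pow_le_pow_left₀ hρ0.le hρL 3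
  have h6 : ρ ^ 3 * (2 * Ex + 1) ≤ L ^ 3 * (2 * (C2 * (2 * N) * (Real.exp (a + 7) / L ^ (a + 7))) + 1) := by
    apply mul_le_mul h5 _ (by linarith) (by positivity)
    linarith
  refine h6.trans ?_
  have h7 : L ^ 3 * (2 * (C2 * (2 * N) * (Real.exp (a + 7) / L ^ (a + 7)))) ≤ ε1 / 2 * (N / L ^ (a + 2)) := by
    have h8 : 8 * C2 * Real.exp (a + 7) ≤ ε1 * L := by
      rw [div_le_iff₀ hε1] at e12
      linarith
    have h9 : L ≤ L ^ 2 := by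
      rw [sq]
      exact le_mul_of_one_le_left hL0.le hL1
    have h10 : L ^ 3 * (2 * (C2 * (2 * N) * (Real.exp (a + 7) / L ^ (a + 7)))) =
        (8 * C2 * Real.exp (a + 7)) * (N / (2 * L ^ (a + 4))) := by
      field_simp
      ring
    have h11 : ε1 / 2 * (N / L ^ (a + 2)) = (ε1 * L ^ 2) * (N / (2 * L ^ (a + 4))) := by
      field_simp
      ring
    rw [h10, h11]
    apply mul_le_mul_of_nonneg_right _ (by positivity)
    exact h8.trans (mul_le_mul_of_nonneg_left h9 hε1.le)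
  have h8 : L ^ 3 ≤ ε1 / 2 * (N / L ^ (a + 2)) := by
    rw [div_mul_div_comm, le_div_iff₀ (by positivity)]
    have h10 : L ^ 3 * (2 * L ^ (a + 2)) = ε1 * (2 / ε1 * L ^ (a + 5)) := by
      field_simp
      ring
    rw [h10]
    exact mul_le_mul_of_nonneg_left e13 hε1.le
  have h9 : ε1 * (N / L ^ (a + 2)) ≤ ε1 * n := mul_le_mul_of_nonneg_left hAc hε1.le
  linarith

theorem fin_r0 (L ρ ε1 : ℝ) (r0 : ℕ) (hL0 : 0 < L) (hL1 : 1 ≤ L) (hε1 : 0 < ε1) (hρ0 : 0 < ρ)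
    (hρL : ρ ≤ L) (h3 : 5 * Real.log L ≤ r0) (e14 : 1 / ε1 ≤ L) :
    ρ ^ 8 * Real.exp (-(2 * (r0 : ℝ))) ≤ ε1 := by
  have h1 : ρ ^ 8 ≤ L ^ 8 := pow_le_pow_left₀ hρ0.le hρL 8
  have h2 : Real.exp (-(2 * (r0 : ℝ))) ≤ 1 / L ^ 10 := by
    have h4 : Real.exp (-(2 * (r0 : ℝ))) ≤ Real.exp (-((10 : ℕ) * Real.log L)) := by
      rw [Real.exp_le_exp]
      push_cast
      linarith
    refine h4.trans (le_of_eq ?_)
    rw [Real.exp_neg, Real.exp_nat_mul, Real.exp_log hL0, one_div]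
  have h3 : ρ ^ 8 * Real.exp (-(2 * (r0 : ℝ))) ≤ L ^ 8 * (1 / L ^ 10) :=
    mul_le_mul h1 h2 (Real.exp_pos _).le (by positivity)
  refine h3.trans ?_
  have h4 : L ^ 8 * (1 / L ^ 10) = 1 / L ^ 2 := by field_simp
  rw [h4, div_le_iff₀ (by positivity)]
  rw [div_le_iff₀ hε1] at e14
  have h5 := mul_le_mul e14 hL1 zero_le_one (by positivity)
  linarith

theorem fin_z (N : ℕ) (L ρ ε1 Nd cc : ℝ) (z r0 C D : ℕ) (hL : L = Real.log N) (hN : 0 < N)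
    (hL1 : 1 ≤ L) (e5 : 4 ≤ L) (hε1 : 0 < ε1) (hρ0 : 0 < ρ) (hρL : ρ ≤ L) (hzL : (z : ℝ) ≤ L ^ D)
    (hu : 4 ≤ Real.log L) (hr0 : r0 = ⌈5 * Real.log L⌉₊) (hNdL : (N : ℝ) / L ^ C ≤ Nd)
    (hcc : cc = 60 * ((D : ℝ) + 2) + (C + 2) + |Real.log ε1|) (e11 : cc * Real.log L ^ 2 ≤ L) :
    ρ ^ 2 * (1 + 2 * (z : ℝ)) ^ (2 * r0) ≤ ε1 * Nd := by
  have hL0 : 0 < L := by linarith
  have hNr : (0 : ℝ) < N := by exact_mod_cast hN
  have h1 : (1 : ℝ) + 2 * z ≤ Real.exp (((D : ℝ) + 2) * Real.log L) := by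
    have h2 : (1 : ℝ) ≤ L ^ D := one_le_pow₀ hL1
    have h3 : (1 : ℝ) + 2 * z ≤ 3 * L ^ D := by linarith
    have h4 : Real.exp (((D : ℝ) + 2) * Real.log L) = L ^ D * L ^ 2 := by
      have : ((D : ℝ) + 2) = ((D + 2 : ℕ) : ℝ) := by push_cast; ring
      rw [this, Real.exp_nat_mul, Real.exp_log hL0, pow_add]
    rw [h4]
    have h5 : 3 ≤ L ^ 2 := by
      have h6 := mul_le_mul e5 e5 (by norm_num) hL0.le
      rw [sq]
      linarith
    have h6 := mul_le_mul_of_nonneg_left h5 (by positivity : (0 : ℝ) ≤ L ^ D)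
    linarith
  have h2 : (r0 : ℝ) ≤ 6 * Real.log L := by
    have := Nat.ceil_lt_add_one (by linarith : (0 : ℝ) ≤ 5 * Real.log L)
    rw [hr0]
    linarith
  have h3 : ((1 : ℝ) + 2 * z) ^ (2 * r0) ≤ Real.exp (12 * ((D : ℝ) + 2) * Real.log L ^ 2) := by
    calc ((1 : ℝ) + 2 * z) ^ (2 * r0) ≤ (Real.exp (((D : ℝ) + 2) * Real.log L)) ^ (2 * r0) :=
          pow_le_pow_left₀ (by positivity) h1 _
      _ = Real.exp (((2 * r0 : ℕ) : ℝ) * (((D : ℝ) + 2) * Real.log L)) := by rw [Real.exp_nat_mul]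
      _ ≤ _ := by
          rw [Real.exp_le_exp]
          push_cast
          have h4 : 0 ≤ ((D : ℝ) + 2) * Real.log L := mul_nonneg (by positivity) (by linarith)
          have h5 := mul_le_mul_of_nonneg_right h2 h4
          linarith
  have h4 : ρ ^ 2 ≤ L ^ 2 := pow_le_pow_left₀ hρ0.le hρL 2
  have h5 : ρ ^ 2 * ((1 : ℝ) + 2 * z) ^ (2 * r0) ≤ L ^ 2 * Real.exp (12 * ((D : ℝ) + 2) * Real.log L ^ 2) :=
    mul_le_mul h4 h3 (by positivity) (by positivity)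
  refine h5.trans ?_
  refine le_trans ?_ (mul_le_mul_of_nonneg_left hNdL hε1.le)
  rw [mul_div_assoc', le_div_iff₀ (by positivity)]
  have h6 : L ^ 2 * Real.exp (12 * ((D : ℝ) + 2) * Real.log L ^ 2) * L ^ C =
      Real.exp (12 * ((D : ℝ) + 2) * Real.log L ^ 2 + (C + 2 : ℕ) * Real.log L) := by
    rw [Real.exp_add, Real.exp_nat_mul, Real.exp_log hL0]
    ring
  have h7 : ε1 * (N : ℝ) = Real.exp (Real.log ε1 + L) := by
    rw [Real.exp_add, Real.exp_log hε1, hL, Real.exp_log hNr]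
  rw [h6, h7, Real.exp_le_exp]
  push_cast
  have h9 : Real.log L ≤ Real.log L ^ 2 := by
    rw [sq]
    exact le_mul_of_one_le_left (by linarith) (by linarith)
  have h10 : -|Real.log ε1| ≤ Real.log ε1 := neg_abs_le _
  have h11 : |Real.log ε1| ≤ |Real.log ε1| * Real.log L ^ 2 := by
    exact le_mul_of_one_le_right (abs_nonneg _) (one_le_pow₀ (by linarith))
  have h12 : ((C : ℝ) + 2) * Real.log L ≤ ((C : ℝ) + 2) * Real.log L ^ 2 :=
    mul_le_mul_of_nonneg_left h9 (by positivity)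
  have h13 : 12 * ((D : ℝ) + 2) * Real.log L ^ 2 ≤ 60 * ((D : ℝ) + 2) * Real.log L ^ 2 := by
    apply mul_le_mul_of_nonneg_right _ (sq_nonneg _)
    have : (0 : ℝ) ≤ (D : ℝ) + 2 := by positivity
    linarith
  have h14 : cc * Real.log L ^ 2 = 60 * ((D : ℝ) + 2) * Real.log L ^ 2 + ((C : ℝ) + 2) * Real.log L ^ 2 +
      |Real.log ε1| * Real.log L ^ 2 := by
    rw [hcc]; ring
  linarith

/-- the sizes of the interval of `m` -/
theorem fin_sizes (N d H K0 Y m0 m1 C : ℕ) (L δ Nd : ℝ) (hN : 0 < N) (hd : 1 ≤ d)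
    (hdC : (d : ℝ) ≤ L ^ C) (hH : 1 ≤ H) (hHL : (H : ℝ) ≤ L) (hL1 : 1 ≤ L) (e5 : 4 ≤ L)
    (hδ : 0 < δ) (hδ1 : δ ≤ 1 / 8) (hK0 : 0 < K0) (hK0' : 2 / (K0 : ℝ) ≤ δ / 2) (hY : Y = N / K0)
    (hNd : Nd = (N : ℝ) / d) (hm0 : m0 = 2 * Y / d + 1) (hm1 : m1 = N / d - H)
    (e7 : 8 / δ * L ^ (C + 1) ≤ N) :
    0 < Nd ∧ (N : ℝ) / L ^ C ≤ Nd ∧ 1 ≤ Nd ∧ H ≤ N / d ∧ (m1 : ℝ) = ((N / d : ℕ) : ℝ) - H ∧
    ((N / d : ℕ) : ℝ) ≤ Nd ∧
    (1 - δ) * Nd ≤ (m1 : ℝ) - m0 ∧ 0 < (m1 : ℝ) - m0 ∧ m0 ≤ m1 ∧ Nd / 2 ≤ (m1 : ℝ) - m0 ∧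
    2 * Y < d * m0 ∧ d * (m1 + H) ≤ N := by
  have hL0 : 0 < L := by linarith
  have hNr : (0 : ℝ) < N := by exact_mod_cast hN
  have hdr : (1 : ℝ) ≤ d := by exact_mod_cast hd
  have hHr : (1 : ℝ) ≤ H := by exact_mod_cast hH
  have hd0 : 0 < d := by omega
  have hdpos : (0 : ℝ) < d := by linarith
  have hK0pos : (0 : ℝ) < K0 := by exact_mod_cast hK0
  have hNd0 : 0 < Nd := by rw [hNd]; positivity
  have hNdL : (N : ℝ) / L ^ C ≤ Nd := by
    rw [hNd]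
    exact div_le_div_of_nonneg_left hNr.le hdpos hdC
  have hNd8 : 8 / δ * L ≤ Nd := by
    refine le_trans ?_ hNdL
    rw [le_div_iff₀ (by positivity)]
    calc 8 / δ * L * L ^ C = 8 / δ * L ^ (C + 1) := by ring
      _ ≤ N := e7
  have hNdδ : 8 * L ≤ δ * Nd := by
    have := mul_le_mul_of_nonneg_left hNd8 hδ.le
    have e : δ * (8 / δ * L) = 8 * L := by field_simp
    linarith
  have hNd1 : 8 * L ≤ Nd := hNdδ.trans (mul_le_of_le_one_left hNd0.le (by linarith))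
  have hfl : (N : ℝ) / d - 1 ≤ ((N / d : ℕ) : ℝ) := by
    have := Nat.lt_div_mul_add (a := N) hd0
    have h2 : (N : ℝ) < ((N / d : ℕ) : ℝ) * d + d := by exact_mod_cast this
    rw [sub_le_iff_le_add, div_le_iff₀ hdpos]
    linarith
  rw [← hNd] at hfl
  have hfl2 : ((N / d : ℕ) : ℝ) ≤ Nd := by
    rw [hNd]
    exact Nat.cast_div_le
  have hHNd : (H : ℝ) ≤ ((N / d : ℕ) : ℝ) := by
    have h1 : (L : ℝ) + 1 ≤ Nd := by linarith
    linarith
  have hHNd' : H ≤ N / d := by exact_mod_cast hHNd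
  have hm1r : (m1 : ℝ) = ((N / d : ℕ) : ℝ) - H := by
    rw [hm1, Nat.cast_sub hHNd']
  have hYr : (Y : ℝ) ≤ N / K0 := by
    rw [hY]
    exact Nat.cast_div_le
  have hm0r : (m0 : ℝ) ≤ 2 * Nd / K0 + 1 := by
    rw [hm0]
    push_cast
    have h1 : ((2 * Y / d : ℕ) : ℝ) ≤ (2 * Y : ℕ) / d := Nat.cast_div_le
    push_cast at h1
    have h2 : 2 * (Y : ℝ) / d ≤ 2 * Nd / K0 := by
      rw [div_le_div_iff₀ hdpos hK0pos]
      have h3 : (Y : ℝ) * K0 ≤ N := by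
        rwa [le_div_iff₀ hK0pos] at hYr
      have h4 : 2 * Nd * (d : ℝ) = 2 * N := by
        rw [hNd]; field_simp
      rw [h4]; linarith
    linarith
  have hM : (1 - δ) * Nd ≤ (m1 : ℝ) - m0 := by
    have h1 : 2 * Nd / K0 ≤ δ / 2 * Nd := by
      calc 2 * Nd / K0 = 2 / K0 * Nd := by ring
        _ ≤ δ / 2 * Nd := mul_le_mul_of_nonneg_right hK0' hNd0.le
    have h2 : L + 2 ≤ δ / 2 * Nd := by linarith
    rw [hm1r]
    linarith
  have hMpos : 0 < (m1 : ℝ) - m0 := lt_of_lt_of_le (mul_pos (by linarith) hNd0) hM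
  have hm : m0 ≤ m1 := by
    have : (m0 : ℝ) < m1 := by linarith
    exact_mod_cast this.le
  have hMhalf : Nd / 2 ≤ (m1 : ℝ) - m0 := by
    refine le_trans ?_ hM
    have := mul_le_mul_of_nonneg_right (by linarith : (1 : ℝ) / 2 ≤ 1 - δ) hNd0.le
    linarith
  have h2Y : 2 * Y < d * m0 := by
    rw [hm0]
    exact Nat.lt_mul_div_succ (2 * Y) hd0
  have hdm1 : d * (m1 + H) ≤ N := by
    have h1 : m1 + H = N / d := by omega
    rw [h1]
    exact Nat.mul_div_le N d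
  exact ⟨hNd0, hNdL, by linarith, hHNd', hm1r, hfl2, hM, hMpos, hm, hMhalf, h2Y, hdm1⟩

end Pool.Agent.Lib.MP_e3f158_nt.U
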