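import Pool.Agent.Lib.MP_e3f158_nt.U.Core
import Pool.Agent.Lib.MP_e3f158_nt.U.FinalA
import Pool.Agent.Lib.MP_e3f158_nt.Orbit2

/-!
# MP_e3f158_nt, theorem U: the set of `a`-primes used, and the final count
-/

set_option autoImplicit false

namespace Pool.Agent.Lib.MP_e3f158_nt.U

open Finset Filter Pool.MP_67663b_nt.Odd Pool.MP_dd84fd_nt.En Pool.MP_dd84fd_nt.E2

/-- The set of `a`-primes used. -/
noncomputable def Aa (a z Y : ℕ) : Finset ℕ := (sm a Y).filter (fun r => z < r)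

theorem mem_Aa {a z Y r : ℕ} (h : r ∈ Aa a z Y) : r.Prime ∧ z < r ∧ r ≤ Y := by
  have h1 := mem_filter.1 h
  obtain ⟨_, h3, _, x, _, hx⟩ := mem_sm h1.1
  exact ⟨hx ▸ ipr_prime a x, h1.2, h3⟩

theorem card_Aa (a z Y : ℕ) : ((sm a Y).card : ℝ) - z ≤ (Aa a z Y).card := by
  have h1 : (sm a Y).card ≤ (Aa a z Y).card + z := by
    unfold Aa
    have h2 := card_filter_add_card_filter_not (s := sm a Y) (fun r => z < r)
    have h3 : ((sm a Y).filter (fun r => ¬ z < r)).card ≤ z := by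
      calc _ ≤ (Icc 1 z).card := by
            apply card_le_card
            intro r hr
            have h4 := mem_filter.1 hr
            have h5 := (mem_sm h4.1).1
            exact mem_Icc.2 ⟨by omega, not_lt.1 h4.2⟩
        _ = z := by simp
    omega
  have : ((sm a Y).card : ℝ) ≤ (Aa a z Y).card + z := by exact_mod_cast h1
  linarith

theorem card_Aa_ge (a D K0 : ℕ) (hK0 : 1 ≤ K0) : ∀ᶠ N : ℕ in atTop,
    (N : ℝ) / (Real.log N) ^ (a + 2) ≤ (Aa a (wX D N) (N / K0)).card := by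
  have hdiv : Tendsto (fun N : ℕ => N / K0) atTop atTop := Nat.tendsto_div_const_atTop (by omega)
  filter_upwards [hdiv.eventually (card_sm_ge a), hdiv.eventually (eventually_ge_atTop 3),
    ev_log ((K0 : ℝ) * 2 ^ (a + 4)), ev_log 1, logs (a + 2 + D) 2 (by norm_num), eventually_ge_atTop (2 * K0)]
    with N h1 h2 h3 h4 h5 h6
  refine le_trans ?_ (card_Aa a (wX D N) (N / K0))
  set L := Real.log (N : ℝ) with hL
  set Y := N / K0 with hY
  have hL0 : 0 < L := by linarith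
  have hNpos : (0 : ℝ) < N := by
    have : 0 < N := by omega
    exact_mod_cast this
  have hK0r : (1 : ℝ) ≤ K0 := by exact_mod_cast hK0
  have hYN : (Y : ℝ) ≤ N := by exact_mod_cast Nat.div_le_self N K0
  have hY3 : (3 : ℝ) ≤ Y := by exact_mod_cast h2
  have hlogY : Real.log Y ≤ L := Real.log_le_log (by linarith) hYN
  have hlogY0 : 0 < Real.log Y := Real.log_pos (by linarith)
  have hYlow : (N : ℝ) / (2 * K0) ≤ Y := by
    have e1 : N < K0 * (Y + 1) := Nat.lt_mul_div_succ N (by omega)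
    have e2 : (N : ℝ) < K0 * (Y + 1) := by exact_mod_cast e1
    have e3 : (Y : ℝ) + 1 ≤ 2 * Y := by linarith
    rw [div_le_iff₀ (by positivity)]
    nlinarith
  have hz : ((wX D N : ℕ) : ℝ) ≤ L ^ D := Nat.floor_le (by positivity)
  have e1 : (N : ℝ) / (K0 * 2 ^ (a + 3) * L ^ (a + 1)) ≤ (sm a Y).card := by
    refine le_trans ?_ h1
    calc (N : ℝ) / (K0 * 2 ^ (a + 3) * L ^ (a + 1)) = (N / (2 * K0)) / (2 * (2 * L) ^ (a + 1)) := by
          rw [mul_pow]
          field_simp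
          ring
      _ ≤ Y / (2 * (2 * Real.log Y) ^ (a + 1)) := by
          apply div_le_div₀ (by positivity) hYlow (by positivity)
          gcongr
  have e2 : 2 * ((N : ℝ) / L ^ (a + 2)) ≤ (N : ℝ) / (K0 * 2 ^ (a + 3) * L ^ (a + 1)) := by
    rw [← mul_div_assoc, div_le_div_iff₀ (by positivity) (by positivity)]
    have e3 : (2 : ℝ) * (K0 * 2 ^ (a + 3)) ≤ L := by
      have : (2 : ℝ) * (K0 * 2 ^ (a + 3)) = (K0 : ℝ) * 2 ^ (a + 4) := by ring
      rw [this]
      exact h3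
    calc 2 * (N : ℝ) * (K0 * 2 ^ (a + 3) * L ^ (a + 1)) = N * L ^ (a + 1) * (2 * (K0 * 2 ^ (a + 3))) := by ring
      _ ≤ N * L ^ (a + 1) * L := mul_le_mul_of_nonneg_left e3 (by positivity)
      _ = N * L ^ (a + 2) := by ring
  have e3 : ((wX D N : ℕ) : ℝ) ≤ (N : ℝ) / L ^ (a + 2) := by
    refine hz.trans ?_
    rw [le_div_iff₀ (by positivity), ← pow_add]
    have e4 : D + (a + 2) = a + 2 + D := by ring
    rw [e4]
    have : 0 ≤ L ^ (a + 2 + D) := by positivity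
    linarith
  linarith

theorem ipr_zero_surj (p : ℕ) (hp : p.Prime) : ∃ y, 1 ≤ y ∧ ipr 0 y = p := by
  refine ⟨Nat.count Nat.Prime p + 1, by omega, ?_⟩
  show pr^[0 + 1] (Nat.count Nat.Prime p + 1) = p
  rw [Function.iterate_succ_apply, Function.iterate_zero, id, pr]
  simp only [Nat.add_sub_cancel]
  exact Nat.nth_count hp

theorem rep_of_RA (a z Y n : ℕ) (hn : 2 * Y < n) (h : 0 < RA (Aa a z Y) n) :
    Even n ∧ HasRep a 0 n := by
  unfold RA at h
  obtain ⟨r, hr, hr2⟩ : ∃ r ∈ (Aa a z Y).filter (fun r => r < n), (n - r).Prime := by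
    by_contra hcon
    push Not at hcon
    have : ∑ r ∈ (Aa a z Y).filter (fun r => r < n), (if (n - r).Prime then (1 : ℝ) else 0) = 0 :=
      sum_eq_zero fun r hr => if_neg (hcon r hr)
    linarith
  have h1 := mem_filter.1 hr
  have h2 := mem_filter.1 h1.1
  obtain ⟨h3, h4, h5, x, hx1, hx2⟩ := mem_sm h2.1
  have h6 : 2 < n - r := by omega
  have h7 : Odd (n - r) := hr2.odd_of_ne_two (by omega)
  obtain ⟨y, hy1, hy2⟩ := ipr_zero_surj (n - r) hr2
  refine ⟨?_, x, y, hx1, hy1, ?_, ?_⟩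
  · have h8 : n = r + (n - r) := by omega
    rw [h8]
    exact h5.add_odd h7
  · rw [hx2, hy2]; omega
  · rw [hx2, hy2]; omega

theorem count_ge (a N d H z Y m0 m1 : ℕ) (hd : 0 < d) (hm0 : 2 * Y < d * (m0 + 1))
    (hm1 : d * m1 ≤ N) :
    Gd (Aa a z Y) d H m0 m1 ≤
      (Set.ncard {m : ℕ | 1 ≤ m ∧ d * m ≤ N ∧ ∃ h < H, Even (d * (m + h)) ∧ HasRep a 0 (d * (m + h))} : ℝ) := by
  classical
  unfold Gd
  have hfin : {m : ℕ | 1 ≤ m ∧ d * m ≤ N ∧ ∃ h < H, Even (d * (m + h)) ∧ HasRep a 0 (d * (m + h))}.Finite := by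
    apply (Set.finite_Iic N).subset
    intro m hm
    simp only [Set.mem_Iic]
    exact (Nat.le_mul_of_pos_left m hd).trans hm.2.1
  have hsub : (((Ioc m0 m1).filter (fun m => 0 < ∑ h ∈ range H, RA (Aa a z Y) (d * (m + h))) : Finset ℕ) : Set ℕ) ⊆
      {m : ℕ | 1 ≤ m ∧ d * m ≤ N ∧ ∃ h < H, Even (d * (m + h)) ∧ HasRep a 0 (d * (m + h))} := by
    intro m hm
    rw [mem_coe, mem_filter, mem_Ioc] at hm
    obtain ⟨⟨h1, h2⟩, h3⟩ := hm
    refine ⟨by omega, (Nat.mul_le_mul_left d h2).trans hm1, ?_⟩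
    obtain ⟨h, hh, hpos⟩ : ∃ h ∈ range H, 0 < RA (Aa a z Y) (d * (m + h)) := by
      by_contra hcon
      push Not at hcon
      have := sum_nonpos hcon
      linarith
    refine ⟨h, mem_range.1 hh, ?_⟩
    apply rep_of_RA a z Y _ _ hpos
    exact hm0.trans_le (Nat.mul_le_mul_left d (by omega))
  have h1 := Set.ncard_le_ncard hsub hfin
  rw [Set.ncard_coe_finset] at h1
  exact_mod_cast h1

end Pool.Agent.Lib.MP_e3f158_nt.U
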