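import Pool.Agent.Lib.MP_e3f158_nt.U.Alg
import Pool.Agent.Lib.MP_e3f158_nt.U.FinalB

/-!
# MP_e3f158_nt, theorem U: the theorem
-/

set_option autoImplicit false

namespace Pool.Agent.Lib.MP_e3f158_nt.U

open Finset Filter Pool.MP_67663b_nt.Odd Pool.MP_dd84fd_nt.En Pool.MP_dd84fd_nt.E2

private theorem main_pos {ρ x : ℝ} (hx : 0 ≤ x) (h : 1 ≤ ρ * x) : 0 < x := by
  rcases hx.lt_or_eq with h' | h'
  · exact h'
  · rw [← h', mul_zero] at h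
    norm_num at h

private theorem main_eps (ε : ℝ) (hε : 0 < ε) : ∃ δ : ℝ, 0 < δ ∧ δ ≤ 1 / 8 ∧ 8 * δ ≤ ε ∧
    (1 + δ / 8) * (1 + 4 * (δ / 8)) ≤ 1 + δ := by
  have h0 : 0 < min ε 1 := lt_min hε one_pos
  have h1 : min ε 1 ≤ 1 := min_le_right _ _
  have h2 : min ε 1 ≤ ε := min_le_left _ _
  obtain ⟨t, ht⟩ : ∃ t, t = min ε 1 := ⟨_, rfl⟩
  rw [← ht] at h0 h1 h2
  refine ⟨t / 8, by positivity, by linarith, by linarith, ?_⟩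
  nlinarith

private theorem main_s1 (Hn κ M L X2 e δ : ℝ) (hHn : 0 ≤ Hn)
    (ha : X2 ≤ δ * (κ * M / L)) (he : e ≤ δ * (Hn * (κ * M / L))) :
    (1 - 2 * δ) * (Hn * (κ * M / L)) ≤ Hn * (κ * M / L - X2) - e := by
  have h1 : Hn * X2 ≤ Hn * (δ * (κ * M / L)) := mul_le_mul_of_nonneg_left ha hHn
  linarith

private theorem main_heS (Hn κ M L X2 e δ : ℝ) (hδ1 : δ ≤ 1 / 8) (hHn : 0 ≤ Hn)
    (hpos : 0 ≤ κ * M / L) (h : (1 - 2 * δ) * (Hn * (κ * M / L)) ≤ Hn * (κ * M / L - X2) - e) :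
    e ≤ Hn * (κ * M / L - X2) := by
  have h1 : 0 ≤ (1 - 2 * δ) * (Hn * (κ * M / L)) :=
    mul_nonneg (by linarith) (mul_nonneg hHn hpos)
  linarith

theorem main (a C : ℕ) (ε : ℝ) (hε : 0 < ε) : ∀ᶠ N : ℕ in atTop, ∀ d H : ℕ, 1 ≤ d →
    (d : ℝ) ≤ (Real.log N) ^ C → 1 ≤ H → (H : ℝ) ≤ Real.log N →
    (H * ps (PP ⌊Real.log (Real.log N)⌋₊ d) / (1 + (H - 1) * ps (PP ⌊Real.log (Real.log N)⌋₊ d)) - ε) *
      ((N : ℝ) / d) ≤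
      (Set.ncard {m : ℕ | 1 ≤ m ∧ d * m ≤ N ∧ ∃ h < H, Even (d * (m + h)) ∧ HasRep a 0 (d * (m + h))} : ℝ) := by
  obtain ⟨δ, hδ, hδ1, hδε, hε1δ⟩ := main_eps ε hε
  obtain ⟨ε1, hε1def⟩ : ∃ ε1 : ℝ, ε1 = δ / 8 := ⟨_, rfl⟩
  rw [← hε1def] at hε1δ
  have hε1 : 0 < ε1 := by rw [hε1def]; linarith
  have hε11 : ε1 ≤ 1 := by rw [hε1def]; linarith
  obtain ⟨D0, hD0⟩ := l2_primes (a + C + 5)
  obtain ⟨D, hD⟩ : ∃ D : ℕ, D = max D0 C + 1 := ⟨_, rfl⟩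
  obtain ⟨X1, hX1⟩ := hD0 D (by omega)
  obtain ⟨η1, hη1, hη14, X2, hX2⟩ := f2_class D (by omega)
  obtain ⟨X3, hX3⟩ := f1_le D
  obtain ⟨C2, hC2, hExc⟩ := exc ε1 hε1 ((a : ℝ) + 7) (by positivity)
  obtain ⟨K0, hK0⟩ := exists_nat_ge (4 / δ)
  have hK0pos : (0 : ℝ) < K0 := lt_of_lt_of_le (by positivity) hK0
  have hK01 : 1 ≤ K0 := by
    have : 0 < K0 := by exact_mod_cast hK0pos
    omega
  have hK0' : 2 / (K0 : ℝ) ≤ δ / 2 := by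
    rw [div_le_iff₀ hK0pos]
    rw [div_le_iff₀ hδ] at hK0
    linarith
  have hdiv : Tendsto (fun N : ℕ => N / K0) atTop atTop := Nat.tendsto_div_const_atTop (by omega)
  obtain ⟨cc, hcc⟩ : ∃ cc : ℝ, cc = 60 * ((D : ℝ) + 2) + (C + 2) + |Real.log ε1| := ⟨_, rfl⟩
  filter_upwards [eventually_ge_atTop X1, eventually_ge_atTop X2, eventually_ge_atTop X3,
    card_Aa_ge a D K0 hK01, ev_log 4, ev_log (4 * Real.log (2 * K0) / ε1), logs (C + 1) (8 / δ) (by positivity),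
    ev_rpow (C + 1) (4 / δ) η1 hη1, ev_log (2 / δ ^ 2), ev_loglog1 4, ev_loglog cc,
    ev_log (8 * C2 * Real.exp (a + 7) / ε1), logs (a + 5) (2 / ε1) (by positivity), ev_log (1 / ε1),
    hdiv.eventually (eventually_ge_atTop 2), eventually_ge_atTop (2 * K0)]
    with N e1 e2 e3 e4 e5 e6 e7 e8 e9 e10 e11 e12 e13 e14 e15 e16
  intro d H hd hdC hH hHL
  have hcl := hX2 N e2
  have hl2 := hX1 N e1
  have hrho := hX3 N e3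
  clear hD0 hX1 hX2 hX3 hdiv
  obtain ⟨Y, hY⟩ : ∃ Y : ℕ, Y = N / K0 := ⟨_, rfl⟩
  obtain ⟨z, hz⟩ : ∃ z : ℕ, z = wX D N := ⟨_, rfl⟩
  rw [← hY] at e4 e15
  rw [← hz] at e4 hl2
  have e6' := e6
  obtain ⟨A, hA⟩ : ∃ A : Finset ℕ, A = Aa a z Y := ⟨_, rfl⟩
  rw [← hA] at e4
  have hzN : z = ⌊(Real.log (N : ℝ)) ^ D⌋₊ := hz
  have hN0 : 0 < N := by omega
  have hNr : (0 : ℝ) < N := by exact_mod_cast hN0
  have hexpL : Real.exp (Real.log (N : ℝ)) = N := Real.exp_log hNr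
  have hcore0 := fun (w r0 m0 m1 : ℕ) (X : ℕ) (e : ℝ) => core N d H Y X z w r0 m0 m1 A
    (N / Real.log N ^ (a + C + 5)) ((N : ℝ) ^ (1 - η1)) ε1 e
  have hS20 := fun (w r0 m1 X : ℕ) => S2b_le w z d Y X H m1 r0 A.card N ε1 hε1 hε11
  have hlogYN : (1 - ε1 / 4) * Real.log N ≤ Real.log Y :=
    fin_logY N K0 Y ε1 hK01 hN0 hY e15 hε1 e6
  generalize hL : Real.log (N : ℝ) = L at e4 e5 e6 e7 e8 e9 e10 e11 e12 e13 e14 hdC hHL hcl hrho hl2 hcore0 hS20 hlogYN hzN hexpL ⊢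
  have hL1 : 1 ≤ L := by linarith
  have hL0 : 0 < L := by linarith
  obtain ⟨w, hw⟩ : ∃ w : ℕ, w = ⌊Real.log L⌋₊ := ⟨_, rfl⟩
  rw [← hw]
  obtain ⟨r0, hr0⟩ : ∃ r0 : ℕ, r0 = ⌈5 * Real.log L⌉₊ := ⟨_, rfl⟩
  have hd0 : 0 < d := by omega
  have hzL : (z : ℝ) ≤ L ^ D := by
    rw [hzN]
    exact Nat.floor_le (pow_nonneg hL0.le D)
  have hLD : L ^ C ≤ L ^ D := pow_le_pow_right₀ hL1 (by omega)
  have hdz : d ≤ z := by
    rw [hzN]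
    exact Nat.le_floor (hdC.trans hLD)
  have hloglog : Real.log L ≤ L := (Real.log_le_sub_one_of_pos hL0).trans (by linarith)
  have hwz : w ≤ z := by
    rw [hw, hzN]
    apply Nat.floor_le_floor
    calc Real.log L ≤ L := hloglog
      _ = L ^ 1 := (pow_one L).symm
      _ ≤ L ^ D := pow_le_pow_right₀ hL1 (by omega)
  have hw1 : 1 ≤ w := by
    rw [hw]
    apply Nat.le_floor
    push_cast
    linarith
  obtain ⟨Nd, hNd⟩ : ∃ Nd : ℝ, Nd = (N : ℝ) / d := ⟨_, rfl⟩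
  obtain ⟨m0, hm0⟩ : ∃ m0 : ℕ, m0 = 2 * Y / d + 1 := ⟨_, rfl⟩
  obtain ⟨m1, hm1⟩ : ∃ m1 : ℕ, m1 = N / d - H := ⟨_, rfl⟩
  obtain ⟨s1, s2, s3, s4, s5, s6, s7, s8, s9, s10, s11, s12⟩ :=
    fin_sizes N d H K0 Y m0 m1 C L δ Nd hN0 hd hdC hH hHL hL1 e5 hδ hδ1 hK01 hK0' hY hNd hm0 hm1 e7
  have hdN : d ≤ N := by
    have h1 : 1 ≤ N / d := by omega
    exact (Nat.div_pos_iff.1 h1).2
  have hdzp : ∀ p : ℕ, p.Prime → p ∣ d → p ≤ z := fun p hp hpd => (Nat.le_of_dvd hd0 hpd).trans hdz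
  have hEcl := hcl z hzL d hd hdN hdzp
  -- the set A
  have hn0 : (0 : ℝ) < A.card := lt_of_lt_of_le (by positivity) e4
  have hn0' : 0 < A.card := by exact_mod_cast hn0
  have hAmem : ∀ r ∈ A, r.Prime ∧ z < r ∧ r ≤ Y := by
    rw [hA]
    exact fun r hr => mem_Aa hr
  have hYN : Y ≤ N := by
    rw [hY]
    exact Nat.div_le_self N K0
  have hAsub : A ⊆ Icc 1 N := by
    intro r hr
    have h1 := hAmem r hr
    exact mem_Icc.2 ⟨h1.1.pos, h1.2.2.trans hYN⟩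
  have hl2A := hl2 A hAsub
  -- ρ, ψ, q, κ
  obtain ⟨ρ, hρ⟩ : ∃ ρ : ℝ, ρ = rho z := ⟨_, rfl⟩
  have hρL : ρ ≤ L := by
    rw [hρ]
    exact (hrho z hzL).1
  have hρ1 : 1 ≤ ρ := by
    rw [hρ]
    exact rho_ge_one z
  have hρ0 : 0 < ρ := by linarith
  obtain ⟨ψ, hψ⟩ : ∃ ψ : ℝ, ψ = ps (PP w d) := ⟨_, rfl⟩
  obtain ⟨q, hq⟩ : ∃ q : ℝ, q = ps (PQ w z d) := ⟨_, rfl⟩
  have hψ0 : 0 < ψ := by
    refine main_pos (ρ := ρ) ?_ ?_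
    · rw [hψ]
      exact ps_nonneg (PP w d) fun p hp => PP_prime hp
    · rw [hψ, hρ]
      exact one_le_rho_mul_ps z w d hwz
  have hψ1 : ψ ≤ 1 := by
    rw [hψ]
    exact ps_le_one _ fun p hp => PP_prime hp
  have hq0 : 0 < q := by
    refine main_pos (ρ := ρ * ψ) ?_ ?_
    · rw [hq]
      exact ps_nonneg (PQ w z d) fun p hp => PQ_prime hp
    · rw [mul_assoc, hψ, hq, hρ, ← ps_split hwz]
      exact one_le_rho_mul_ps z z d le_rfl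
  obtain ⟨κ, hκ⟩ : ∃ κ : ℝ, κ = (d : ℝ) / (Nat.totient d : ℝ) := ⟨_, rfl⟩
  have hκeq : κ = ρ * (ψ * q) := by
    rw [hκ, hψ, hq, hρ, ← ps_split hwz]
    exact (rho_mul z d hd0 hdzp).symm
  have hκ1 : 1 ≤ κ := by
    have hφ : (0 : ℝ) < Nat.totient d := by exact_mod_cast Nat.totient_pos.2 hd0
    rw [hκ, le_div_iff₀ hφ, one_mul]
    exact_mod_cast Nat.totient_le d
  have hcore1 := hcore0 w r0 m0 m1 (2 * N)
  have hS21 := hS20 w r0 m1 (2 * N)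
  have hExw := hExc w z (2 * N) hw1
  have hExdef : (((Icc 1 (2 * N)).filter fun k : ℕ => 1 + ε1 < GG w z (k : ℤ)).card : ℝ) = Ex w z (2 * N) ε1 := rfl
  rw [hExdef] at hExw
  rw [← hκ] at hcore1
  rw [← hψ, ← hq, ← hρ, ← hNd] at hS21
  obtain ⟨M, hM⟩ : ∃ M : ℝ, M = (m1 : ℝ) - m0 := ⟨_, rfl⟩
  rw [← hM] at s7 s8 s10 hcore1
  obtain ⟨n, hn⟩ : ∃ n : ℝ, n = (A.card : ℝ) := ⟨_, rfl⟩
  rw [← hn] at e4 hn0 hcore1 hS21 hl2A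
  -- (a), (b)
  have ha := fin_a N L δ κ M Nd η1 C hNr hL0 hδ hκ1 s8 s2 s10 e8
  have hb := fin_b N L δ κ M Nd n a C hNr hL0 hL1 hδ hκ1 s8 hn0 s2 s10 e4 e9
  have hHr : (1 : ℝ) ≤ H := by exact_mod_cast hH
  have hH0 : (0 : ℝ) < H := by linarith
  have hHn : 0 ≤ (H : ℝ) * n := (mul_pos hH0 hn0).le
  have hκM : 0 ≤ κ * M / L := div_nonneg (mul_nonneg (by linarith) s8.le) hL0.le
  obtain ⟨K, hK⟩ : ∃ K : ℝ, K = (N : ℝ) / L ^ (a + C + 5) := ⟨_, rfl⟩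
  rw [← hK] at hb hcore1 hl2A
  have hK0 : 0 < K := by rw [hK]; positivity
  obtain ⟨e, he⟩ : ∃ e : ℝ, e = H * (K * Real.sqrt (M * n)) := ⟨_, rfl⟩
  have he0 : 0 ≤ e := by
    rw [he]
    exact mul_nonneg hH0.le (mul_nonneg hK0.le (Real.sqrt_nonneg _))
  have hebound : e ≤ δ * (H * n * (κ * M / L)) := by
    rw [he]
    calc H * (K * Real.sqrt (M * n)) ≤ H * (δ * (n * (κ * M / L))) :=
          mul_le_mul_of_nonneg_left hb hH0.le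
      _ = _ := by ring
  have hs1 := main_s1 (H * n) κ M L (2 * (N : ℝ) ^ (1 - η1)) e δ hHn ha hebound
  have heS := main_heS (H * n) κ M L (2 * (N : ℝ) ^ (1 - η1)) e δ hδ1 hHn hκM hs1
  have hXY : Y + d * H ≤ 2 * N := by
    have h2 : d * H ≤ N := (Nat.mul_le_mul_left d s4).trans (Nat.mul_div_le N d)
    omega
  have hcore := hcore1 e hd0 hwz hdz hAmem e15 s9 s11.le s12 hXY hε1.le hEcl hl2A he0 (by
      have hss : Real.sqrt (M * n) ^ 2 = M * n := Real.sq_sqrt (mul_nonneg s8.le hn0.le)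
      rw [he, mul_pow, mul_pow, hss]
      apply le_of_eq
      ring) heS
  -- S2
  have hYpos : 0 < Real.log Y := lt_of_lt_of_le (mul_pos (by linarith) hL0) hlogYN
  have hS2 := hS21 hwz hn0' hL0 hYpos
    (by
      rw [s5]
      linarith)
    (fin_ex N L ρ ε1 C2 (Ex w z (2 * N) ε1) n (2 * N) a w hNr hL0 hL1 hε1 hC2 hw rfl
      (by exact_mod_cast hExw) (Nat.cast_nonneg _) hρ0 hρL e12 e13 e4)
    (fin_r0 L ρ ε1 r0 hL0 hL1 hε1 hρ0 hρL (by rw [hr0]; exact Nat.le_ceil _) e14)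
    (fin_z N L ρ ε1 Nd cc z r0 C D hL.symm hN0 hL1 e5 hε1 hρ0 hρL hzL e10 hr0 s2 hcc e11)
    hlogYN
  have hG0 : 0 ≤ Gd A d H m0 m1 := by
    unfold Gd
    positivity
  have hFFb : 0 ≤ ((H : ℝ) * ψ) ^ 2 + H * ψ * (1 - ψ) :=
    add_nonneg (sq_nonneg _) (mul_nonneg (mul_nonneg hH0.le hψ0.le) (by linarith))
  have hR : 0 ≤ (ρ / L) ^ 2 * (Nd * (q ^ 2 * (n ^ 2 * (((H : ℝ) * ψ) ^ 2 + H * ψ * (1 - ψ))))) :=
    mul_nonneg (sq_nonneg _) (mul_nonneg s1.le (mul_nonneg (sq_nonneg _) (mul_nonneg (sq_nonneg _) hFFb)))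
  have hS2' := hS2.trans (mul_le_mul_of_nonneg_right hε1δ hR)
  have hfin := final_alg L κ ρ ψ q n M Nd (Gd A d H m0 m1) _ _ H δ hL0 hρ0 hψ0 hψ1 hq0 hn0 hHr
    s1 hδ hδ1 hκeq hG0 hs1 hcore hS2' s7
  have hcount := count_ge a N d H z Y m0 m1 hd0
    (s11.trans_le (Nat.mul_le_mul_left d (by omega)))
    ((Nat.mul_le_mul_left d (by omega)).trans s12)
  rw [← hA] at hcount
  refine le_trans ?_ (hfin.trans hcount)
  rw [← hψ, ← hNd]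
  apply mul_le_mul_of_nonneg_right _ s1.le
  linarith

end Pool.Agent.Lib.MP_e3f158_nt.U
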