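import Pool.Agent.Lib.MP_e3f158_nt.U.Final

/-!
# MP_e3f158_nt, theorem U: windows of arbitrary length
-/

set_option autoImplicit false

namespace Pool.Agent.Lib.MP_e3f158_nt.U

open Finset Filter Pool.MP_67663b_nt.Odd Pool.MP_dd84fd_nt.En Pool.MP_dd84fd_nt.E2

theorem main2 (a C : ℕ) (ε : ℝ) (hε : 0 < ε) : ∀ᶠ N : ℕ in atTop, ∀ d H : ℕ, 1 ≤ d →
    (d : ℝ) ≤ (Real.log N) ^ C → 1 ≤ H →
    (H * ps (PP ⌊Real.log (Real.log N)⌋₊ d) / (1 + (H - 1) * ps (PP ⌊Real.log (Real.log N)⌋₊ d)) - ε) *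
      ((N : ℝ) / d) ≤
      (Set.ncard {m : ℕ | 1 ≤ m ∧ d * m ≤ N ∧ ∃ h < H, Even (d * (m + h)) ∧ HasRep a 0 (d * (m + h))} : ℝ) := by
  obtain ⟨C1, hC1, hr⟩ := primorial_ratio
  filter_upwards [main a C (ε / 2) (by positivity), ev_log 2, ev_loglog1 1, ev_loglog (4 * C1 / ε)]
    with N h1 h2 h3 h4
  intro d H hd hdC hH
  set L := Real.log (N : ℝ) with hL
  set w := ⌊Real.log L⌋₊ with hw
  set ψ := ps (PP w d) with hψ
  have hdr : (0 : ℝ) < d := by exact_mod_cast (by omega : 0 < d)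
  have hHr : (1 : ℝ) ≤ H := by exact_mod_cast hH
  have hw1 : 1 ≤ w := by
    apply Nat.le_floor
    push_cast
    exact h3
  have hρψ : 1 ≤ rho w * ψ := one_le_rho_mul_ps w w d le_rfl
  have hψ00 : 0 ≤ ψ := ps_nonneg _ fun p hp => PP_prime hp
  have hψ0 : 0 < ψ := by
    rcases hψ00.lt_or_eq with h | h
    · exact h
    · rw [← h] at hρψ
      norm_num at hρψ
  have hψ1 : ψ ≤ 1 := ps_le_one _ fun p hp => PP_prime hp
  have hNd : (0 : ℝ) ≤ (N : ℝ) / d := by positivity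
  by_cases hHL : (H : ℝ) ≤ L
  · refine le_trans ?_ (h1 d H hd hdC hH hHL)
    apply mul_le_mul_of_nonneg_right _ hNd
    linarith
  · set H' := ⌊L⌋₊ with hH'
    have hL0 : 0 < L := by linarith
    have hH'1 : 1 ≤ H' := by
      apply Nat.le_floor
      push_cast
      linarith
    have hH'L : (H' : ℝ) ≤ L := Nat.floor_le hL0.le
    have hH'H : H' ≤ H := by
      have : (H' : ℝ) ≤ H := by linarith
      exact_mod_cast this
    have h5 := h1 d H' hd hdC hH'1 hH'L
    have hfin : {m : ℕ | 1 ≤ m ∧ d * m ≤ N ∧ ∃ h < H, Even (d * (m + h)) ∧ HasRep a 0 (d * (m + h))}.Finite := by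
      apply (Set.finite_Iic N).subset
      intro m hm
      simp only [Set.mem_Iic]
      exact (Nat.le_mul_of_pos_left m (by omega)).trans hm.2.1
    have hsub : {m : ℕ | 1 ≤ m ∧ d * m ≤ N ∧ ∃ h < H', Even (d * (m + h)) ∧ HasRep a 0 (d * (m + h))} ⊆
        {m : ℕ | 1 ≤ m ∧ d * m ≤ N ∧ ∃ h < H, Even (d * (m + h)) ∧ HasRep a 0 (d * (m + h))} := by
      rintro m ⟨g1, g2, h, g3, g4⟩
      exact ⟨g1, g2, h, by omega, g4⟩
    have h6 : (Set.ncard {m : ℕ | 1 ≤ m ∧ d * m ≤ N ∧ ∃ h < H', Even (d * (m + h)) ∧ HasRep a 0 (d * (m + h))} : ℝ) ≤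
        Set.ncard {m : ℕ | 1 ≤ m ∧ d * m ≤ N ∧ ∃ h < H, Even (d * (m + h)) ∧ HasRep a 0 (d * (m + h))} := by
      exact_mod_cast Set.ncard_le_ncard hsub hfin
    refine le_trans ?_ (h5.trans h6)
    apply mul_le_mul_of_nonneg_right _ hNd
    have hden : 0 < 1 + ((H : ℝ) - 1) * ψ := by
      have : 0 ≤ ((H : ℝ) - 1) * ψ := mul_nonneg (by linarith) hψ0.le
      linarith
    have hH'r : (1 : ℝ) ≤ H' := by exact_mod_cast hH'1
    have hden' : 0 < 1 + ((H' : ℝ) - 1) * ψ := by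
      have : 0 ≤ ((H' : ℝ) - 1) * ψ := mul_nonneg (by linarith) hψ0.le
      linarith
    have h7 : (H : ℝ) * ψ / (1 + (H - 1) * ψ) ≤ 1 := by
      rw [div_le_one hden]
      linarith
    -- 1 - F(H') ≤ ε / 2
    have h8 : 1 - ε / 2 ≤ (H' : ℝ) * ψ / (1 + (H' - 1) * ψ) := by
      rw [le_div_iff₀ hden']
      have hρw : rho w ≤ C1 * Real.log (w + 1) := hr w hw1
      have hlogw : Real.log ((w : ℝ) + 1) ≤ w := by
        have := Real.log_le_sub_one_of_pos (by positivity : (0 : ℝ) < (w : ℝ) + 1)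
        linarith
      have hwL : (w : ℝ) ≤ Real.log L := Nat.floor_le (by linarith)
      have hρ2 : rho w ≤ C1 * Real.log L :=
        hρw.trans (mul_le_mul_of_nonneg_left (hlogw.trans hwL) hC1.le)
      have h9 : Real.log L ≤ Real.log L ^ 2 := by
        rw [sq]
        exact le_mul_of_one_le_left (by linarith) h3
      have h10 : 4 * (C1 * Real.log L) ≤ ε * L := by
        have e1 : 4 * C1 / ε * Real.log L ≤ L :=
          (mul_le_mul_of_nonneg_left h9 (by positivity)).trans h4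
        have e2 : 4 * C1 / ε * Real.log L = 4 * (C1 * Real.log L) / ε := by ring
        rw [e2, div_le_iff₀ hε] at e1
        linarith
      have h11 : L ≤ 2 * H' := by
        have := Nat.lt_floor_add_one L
        have e1 : L < (H' : ℝ) + 1 := this
        linarith
      have h12 : 2 ≤ ε * ((H' : ℝ) * ψ) := by
        have e1 : 4 * rho w ≤ ε * (2 * H') := by
          have := mul_le_mul_of_nonneg_left h11 hε.le
          linarith
        have e2 : 4 * rho w * ψ ≤ ε * (2 * H') * ψ := mul_le_mul_of_nonneg_right e1 hψ0.le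
        linarith
      have h13 : 0 ≤ ε * (1 - ψ) := mul_nonneg hε.le (by linarith)
      linarith
    linarith

end Pool.Agent.Lib.MP_e3f158_nt.U
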