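import Pool.Agent.Lib.MP_e3f158_nt.U.RedWin
import Pool.Agent.Lib.MP_e3f158_nt.U.Exc
import Pool.Agent.Lib.MP_dd84fd_nt.En.Defs

/-!
# MP_e3f158_nt, theorem U: products over primes
-/

set_option autoImplicit false

namespace Pool.Agent.Lib.MP_e3f158_nt.U

open Finset

/-- the primes `≤ z` not dividing `d` -/
def PP (z d : ℕ) : Finset ℕ := (Icc 1 z).filter (fun p => p.Prime ∧ ¬ p ∣ d)

/-- the primes in `(w, z]` not dividing `d` -/
def PQ (w z d : ℕ) : Finset ℕ := (Ioc w z).filter (fun p => p.Prime ∧ ¬ p ∣ d)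

/-- `∏_{p ≤ z} (1 - 1/p)⁻¹` -/
noncomputable def rho (z : ℕ) : ℝ := (primorial z : ℝ) / (Nat.totient (primorial z) : ℝ)

theorem PP_prime {z d p : ℕ} (h : p ∈ PP z d) : p.Prime := (mem_filter.1 h).2.1

theorem PQ_prime {w z d p : ℕ} (h : p ∈ PQ w z d) : p.Prime := (mem_filter.1 h).2.1

theorem PP_split {w z d : ℕ} (hwz : w ≤ z) : PP z d = PP w d ∪ PQ w z d := by
  ext p
  simp only [PP, PQ, mem_union, mem_filter, mem_Icc, mem_Ioc]
  constructor
  · rintro ⟨h1, h2⟩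
    by_cases h3 : p ≤ w
    · exact Or.inl ⟨⟨h1.1, h3⟩, h2⟩
    · exact Or.inr ⟨⟨by omega, h1.2⟩, h2⟩
  · rintro (⟨h1, h2⟩ | ⟨h1, h2⟩)
    · exact ⟨⟨h1.1, by omega⟩, h2⟩
    · exact ⟨⟨by omega, h1.2⟩, h2⟩

theorem PP_disj {w z d : ℕ} : Disjoint (PP w d) (PQ w z d) := by
  rw [disjoint_left]
  intro p hp hp'
  have := mem_Icc.1 (mem_filter.1 hp).1
  have := mem_Ioc.1 (mem_filter.1 hp').1
  omega

theorem LP_split {w z d : ℕ} (hwz : w ≤ z) (k : ℤ) :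
    LP (PP z d) k = LP (PP w d) k * LP (PQ w z d) k := by
  unfold LP
  rw [PP_split hwz, prod_union PP_disj]

theorem ps_split {w z d : ℕ} (hwz : w ≤ z) : ps (PP z d) = ps (PP w d) * ps (PQ w z d) := by
  unfold ps
  rw [PP_split hwz, prod_union PP_disj]

theorem ratio_eq (n : ℕ) (hn : 0 < n) :
    (n : ℝ) / (Nat.totient n : ℝ) = ∏ p ∈ n.primeFactors, (1 - 1 / (p : ℝ))⁻¹ := by
  have h1 := Nat.totient_eq_mul_prod_factors n
  have h2 : (Nat.totient n : ℝ) = n * ∏ p ∈ n.primeFactors, (1 - (p : ℝ)⁻¹) := by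
    have h3 := congrArg (Rat.cast : ℚ → ℝ) h1
    push_cast at h3
    exact h3
  have hn' : (n : ℝ) ≠ 0 := by exact_mod_cast hn.ne'
  rw [h2, prod_inv_distrib]
  have h3 : ∏ p ∈ n.primeFactors, (1 - (p : ℝ)⁻¹) = ∏ p ∈ n.primeFactors, (1 - 1 / (p : ℝ)) :=
    prod_congr rfl fun p _ => by rw [one_div]
  rw [h3]
  have h4 : ∏ p ∈ n.primeFactors, (1 - 1 / (p : ℝ)) ≠ 0 := by
    rw [prod_ne_zero_iff]
    intro p hp
    have hp' := Nat.prime_of_mem_primeFactors hp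
    have hp2 : (2 : ℝ) ≤ p := by exact_mod_cast hp'.two_le
    have h5 : 1 / (p : ℝ) ≤ 1 / 2 := one_div_le_one_div_of_le (by norm_num) hp2
    have : (0 : ℝ) < 1 - 1 / (p : ℝ) := by linarith
    exact this.ne'
  field_simp

theorem primorial_pf (z : ℕ) : (primorial z).primeFactors = (Icc 1 z).filter Nat.Prime := by
  have h1 : primorial z = ∏ p ∈ (Icc 1 z).filter Nat.Prime, p := by
    unfold primorial
    apply prod_congr _ fun _ _ => rfl
    ext p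
    simp only [mem_filter, mem_range, mem_Icc]
    constructor
    · rintro ⟨h2, h3⟩
      exact ⟨⟨h3.pos, by omega⟩, h3⟩
    · rintro ⟨h2, h3⟩
      exact ⟨by omega, h3⟩
  rw [h1]
  exact Nat.primeFactors_prod fun p hp => (mem_filter.1 hp).2

theorem primorial_pos' (z : ℕ) : 0 < primorial z := primorial_pos z

theorem rho_eq (z : ℕ) : rho z = ∏ p ∈ (Icc 1 z).filter Nat.Prime, (1 - 1 / (p : ℝ))⁻¹ := by
  unfold rho
  rw [ratio_eq _ (primorial_pos z), primorial_pf]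

theorem fac_pos {p : ℕ} (hp : p.Prime) : (0 : ℝ) < 1 - 1 / (p : ℝ) := by
  have hp2 : (2 : ℝ) ≤ p := by exact_mod_cast hp.two_le
  have h5 : 1 / (p : ℝ) ≤ 1 / 2 := one_div_le_one_div_of_le (by norm_num) hp2
  linarith

/-- `ρ_z ∏_{p ≤ z, p ∤ d} (1 - 1/p) = d/φ(d)` -/
theorem rho_mul (z d : ℕ) (hd : 0 < d) (hz : ∀ p : ℕ, p.Prime → p ∣ d → p ≤ z) :
    rho z * ps (PP z d) = (d : ℝ) / (Nat.totient d : ℝ) := by
  rw [rho_eq, ratio_eq d hd]
  have h1 := prod_filter_mul_prod_filter_not ((Icc 1 z).filter Nat.Prime) (fun p => p ∣ d)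
    (fun p => (1 - 1 / (p : ℝ))⁻¹)
  rw [← h1]
  have h2 : ((Icc 1 z).filter Nat.Prime).filter (fun p => p ∣ d) = d.primeFactors := by
    ext p
    simp only [mem_filter, mem_Icc, Nat.mem_primeFactors]
    constructor
    · rintro ⟨⟨_, h4⟩, h5⟩
      exact ⟨h4, h5, hd.ne'⟩
    · rintro ⟨h3, h4, _⟩
      exact ⟨⟨⟨h3.pos, hz p h3 h4⟩, h3⟩, h4⟩
  have h3 : ((Icc 1 z).filter Nat.Prime).filter (fun p => ¬ p ∣ d) = PP z d := by
    unfold PP
    rw [filter_filter]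
  rw [h2, h3, mul_assoc]
  have h4 : (∏ p ∈ PP z d, (1 - 1 / (p : ℝ))⁻¹) * ps (PP z d) = 1 := by
    unfold ps
    rw [← prod_mul_distrib]
    apply prod_eq_one
    intro p hp
    exact inv_mul_cancel₀ (fac_pos (PP_prime hp)).ne'
  rw [h4, mul_one]

theorem prod_sub_le (s t : Finset ℕ) (h : s ⊆ t) (f : ℕ → ℝ) (h1 : ∀ p ∈ t, 1 ≤ f p) :
    ∏ p ∈ s, f p ≤ ∏ p ∈ t, f p := by
  rw [← prod_sdiff h]
  have h2 : 1 ≤ ∏ p ∈ t \ s, f p := by
    have h3 : ∏ p ∈ t \ s, (1 : ℝ) ≤ ∏ p ∈ t \ s, f p :=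
      prod_le_prod (fun _ _ => zero_le_one) fun p hp => h1 p (mem_sdiff.1 hp).1
    simpa using h3
  have h4 : 0 ≤ ∏ p ∈ s, f p := prod_nonneg fun p hp => zero_le_one.trans (h1 p (h hp))
  nlinarith

theorem rho_ge_one (z : ℕ) : 1 ≤ rho z := by
  rw [rho_eq]
  have h1 : ∏ p ∈ (Icc 1 z).filter Nat.Prime, (1 : ℝ) ≤
      ∏ p ∈ (Icc 1 z).filter Nat.Prime, (1 - 1 / (p : ℝ))⁻¹ :=
    prod_le_prod (fun _ _ => zero_le_one) fun p hp => inv_fac_ge p (mem_filter.1 hp).2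
  simpa using h1

theorem GG_le_rho (w z : ℕ) (k : ℤ) : GG w z k ≤ rho z := by
  unfold GG
  rw [rho_eq]
  apply prod_sub_le
  · intro p hp
    rw [mem_filter, mem_Ioc] at hp
    rw [mem_filter, mem_Icc]
    exact ⟨⟨hp.2.1.pos, hp.1.2⟩, hp.2.1⟩
  · intro p hp
    exact inv_fac_ge p (mem_filter.1 hp).2

theorem exp_sum_le_rho (z d : ℕ) : Real.exp (∑ p ∈ PP z d, 1 / (p : ℝ)) ≤ rho z := by
  rw [rho_eq, Real.exp_sum]
  have h1 : ∏ p ∈ PP z d, Real.exp (1 / (p : ℝ)) ≤ ∏ p ∈ PP z d, (1 - 1 / (p : ℝ))⁻¹ := by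
    refine prod_le_prod (fun p _ => (Real.exp_pos _).le) fun p hp => ?_
    have h2 := fac_pos (PP_prime hp)
    have h3 := Real.add_one_le_exp (-(1 / (p : ℝ)))
    have h4 : Real.exp (1 / (p : ℝ)) * Real.exp (-(1 / (p : ℝ))) = 1 := by
      rw [← Real.exp_add, add_neg_cancel, Real.exp_zero]
    have h5 := Real.exp_pos (1 / (p : ℝ))
    rw [← one_div, le_div_iff₀ h2]
    nlinarith
  refine h1.trans ?_
  apply prod_sub_le
  · intro p hp
    unfold PP at hp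
    rw [mem_filter] at hp ⊢
    exact ⟨hp.1, hp.2.1⟩
  · intro p hp
    exact inv_fac_ge p (mem_filter.1 hp).2

theorem one_le_rho_mul_ps (z w d : ℕ) (hwz : w ≤ z) : 1 ≤ rho z * ps (PP w d) := by
  have h1 : rho z * ps (PP z 1) = 1 := by
    have := rho_mul z 1 one_pos (fun p hp h => by
      have := Nat.eq_one_of_dvd_one h
      exact absurd this hp.ne_one)
    simpa using this
  have h2 : ps (PP z 1) ≤ ps (PP w d) := by
    unfold ps
    have hsub : PP w d ⊆ PP z 1 := by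
      intro p hp
      unfold PP at hp ⊢
      rw [mem_filter, mem_Icc] at hp ⊢
      refine ⟨⟨hp.1.1, by omega⟩, hp.2.1, ?_⟩
      intro h
      exact hp.2.1.ne_one (Nat.eq_one_of_dvd_one h)
    rw [← prod_sdiff hsub]
    have h3 : ∏ p ∈ PP z 1 \ PP w d, (1 - 1 / (p : ℝ)) ≤ 1 := by
      apply prod_le_one
      · intro p hp
        exact (fac_pos (PP_prime (mem_sdiff.1 hp).1)).le
      · intro p _
        have : 0 ≤ 1 / (p : ℝ) := by positivity
        linarith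
    have h4 : 0 ≤ ∏ p ∈ PP w d, (1 - 1 / (p : ℝ)) :=
      prod_nonneg fun p hp => (fac_pos (PP_prime hp)).le
    nlinarith
  have h3 := rho_ge_one z
  nlinarith

theorem loc_nonneg {p : ℕ} (hp : p.Prime) (k : ℤ) : 0 ≤ loc p k := by
  unfold loc
  have hp2 : (2 : ℝ) ≤ p := by exact_mod_cast hp.two_le
  have h1 : (if (p : ℤ) ∣ k then (1 : ℝ) else 2) ≤ 2 := by split_ifs <;> norm_num
  rw [sub_nonneg, div_le_one (by linarith)]
  linarith

theorem loc_le_one (p : ℕ) (k : ℤ) : loc p k ≤ 1 := by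
  unfold loc
  have h1 : 0 ≤ (if (p : ℤ) ∣ k then (1 : ℝ) else 2) / (p : ℝ) := by
    apply div_nonneg _ (by positivity)
    split_ifs <;> norm_num
  linarith

theorem LP_nonneg (S : Finset ℕ) (hS : ∀ p ∈ S, p.Prime) (k : ℤ) : 0 ≤ LP S k :=
  prod_nonneg fun p hp => loc_nonneg (hS p hp) k

theorem LP_le_one (S : Finset ℕ) (hS : ∀ p ∈ S, p.Prime) (k : ℤ) : LP S k ≤ 1 :=
  prod_le_one (fun p hp => loc_nonneg (hS p hp) k) fun p _ => loc_le_one p k

theorem LP_neg (S : Finset ℕ) (k : ℤ) : LP S (-k) = LP S k := by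
  unfold LP loc
  simp only [dvd_neg]

theorem LP_PQ_le (w z d : ℕ) (k : ℤ) : LP (PQ w z d) k ≤ ps (PQ w z d) ^ 2 * GG w z k := by
  have h1 : LP (PQ w z d) k ≤ ∏ p ∈ PQ w z d,
      ((1 - 1 / (p : ℝ)) ^ 2 * (if (p : ℤ) ∣ k then (1 - 1 / (p : ℝ))⁻¹ else 1)) := by
    unfold LP
    refine prod_le_prod (fun p hp => loc_nonneg (PQ_prime hp) k) fun p hp => ?_
    have h2 := fac_pos (PQ_prime hp)
    unfold loc
    split_ifs with h
    · rw [sq, mul_assoc, mul_inv_cancel₀ h2.ne', mul_one]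
    · have : 0 ≤ (1 / (p : ℝ)) ^ 2 := by positivity
      have h3 : (2 : ℝ) / p = 2 * (1 / p) := by ring
      rw [h3]
      nlinarith
  refine h1.trans ?_
  rw [prod_mul_distrib, prod_pow]
  apply mul_le_mul_of_nonneg_left _ (sq_nonneg _)
  rw [← prod_filter]
  unfold GG
  apply prod_sub_le
  · intro p hp
    unfold PQ at hp
    rw [mem_filter, mem_filter] at hp
    rw [mem_filter]
    exact ⟨hp.1.1, hp.1.2.1, hp.2⟩
  · intro p hp
    exact inv_fac_ge p (mem_filter.1 hp).2.1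

end Pool.Agent.Lib.MP_e3f158_nt.U
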