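import Pool.Agent.Lib.MP_e3f158_nt.U.Defs

/-!
# MP_e3f158_nt, theorem U: variance of the number of reduced residues in a window

`FF S H = E X²`, `X` the number of elements of a random window of length `H` which are not
divisible by any `p ∈ S`; the variance is at most `H ψ (1 - ψ)`.
-/

namespace Pool.Agent.Lib.MP_e3f158_nt.U

open Finset

theorem ps_nonneg (S : Finset ℕ) (hS : ∀ p ∈ S, p.Prime) : 0 ≤ ps S := by
  apply prod_nonneg
  intro p hp
  have h1 : (1 : ℝ) ≤ p := by exact_mod_cast (hS p hp).one_le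
  have h2 : 1 / (p : ℝ) ≤ 1 := by
    rw [div_le_one (by linarith)]
    exact h1
  linarith

theorem ps_le_one (S : Finset ℕ) (hS : ∀ p ∈ S, p.Prime) : ps S ≤ 1 := by
  apply prod_le_one
  · intro p hp
    have h1 : (1 : ℝ) ≤ p := by exact_mod_cast (hS p hp).one_le
    have h2 : 1 / (p : ℝ) ≤ 1 := by
      rw [div_le_one (by linarith)]
      exact h1
    linarith
  · intro p hp
    have h2 : 0 ≤ 1 / (p : ℝ) := by positivity
    linarith

/-- number of elements of `range H` congruent to `j` mod `p` -/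
def nc (H p j : ℕ) : ℕ := ((range H).filter fun h => h % p = j).card

theorem nc_sum (H p : ℕ) (hp : 0 < p) : ∑ j ∈ range p, nc H p j = H := by
  unfold nc
  rw [← card_eq_sum_card_fiberwise (f := fun h => h % p) (t := range p)]
  · simp
  · intro h _
    simp only [coe_range, Set.mem_Iio]
    exact Nat.mod_lt _ hp

theorem nc_eq (H p j : ℕ) (hp : 0 < p) (hj : j < p) :
    nc H p j = H / p + (if j < H % p then 1 else 0) := by
  unfold nc
  have h1 := Nat.count_modEq_card H hp j
  rw [Nat.mod_eq_of_lt hj] at h1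
  rw [← h1, Nat.count_eq_card_filter_range]
  congr 1
  apply filter_congr
  intro x _
  rw [Nat.ModEq, Nat.mod_eq_of_lt hj]

theorem nc_sq (H p : ℕ) (hp : 0 < p) :
    (p : ℝ) * ∑ j ∈ range p, (nc H p j : ℝ) ^ 2 ≤ (H : ℝ) ^ 2 + H * (p - 1) := by
  set q := H / p with hq
  set s := H % p with hs
  have hsp : s < p := Nat.mod_lt _ hp
  have hH : (H : ℝ) = p * q + s := by exact_mod_cast (Nat.div_add_mod H p).symm
  have h1 : ∑ j ∈ range p, (nc H p j : ℝ) ^ 2 = p * (q : ℝ) ^ 2 + s * (2 * q + 1) := by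
    have h2 : ∀ j ∈ range p, (nc H p j : ℝ) ^ 2 = (q : ℝ) ^ 2 + (if j < s then (2 * (q : ℝ) + 1) else 0) := by
      intro j hj
      rw [nc_eq H p j hp (mem_range.1 hj)]
      by_cases h : j < s
      · rw [if_pos h, if_pos h]; push_cast; ring
      · rw [if_neg h, if_neg h]; push_cast; ring
    rw [sum_congr rfl h2, sum_add_distrib, sum_const, card_range, nsmul_eq_mul, ← sum_filter, sum_const,
      nsmul_eq_mul]
    have h3 : ((range p).filter (fun j => j < s)) = range s := by
      ext j
      simp only [mem_filter, mem_range]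
      omega
    rw [h3, card_range]
  rw [h1, hH]
  have hs0 : (0 : ℝ) ≤ s := by positivity
  have hq0 : (0 : ℝ) ≤ q := by positivity
  have hp1 : (1 : ℝ) ≤ p := by exact_mod_cast hp
  have hsp' : (s : ℝ) ≤ p - 1 := by
    have : (s : ℝ) + 1 ≤ p := by exact_mod_cast hsp
    linarith
  have hss : (s : ℝ) ≤ s ^ 2 := by
    rcases Nat.eq_zero_or_pos s with h | h
    · rw [h]; simp
    · have : (1 : ℝ) ≤ s := by exact_mod_cast h
      nlinarith
  nlinarith [mul_nonneg (mul_nonneg (by linarith : (0:ℝ) ≤ (p:ℝ)) hq0) (by linarith : (0:ℝ) ≤ (p:ℝ) - 1)]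

theorem FF_insert (S : Finset ℕ) (hS : ∀ p ∈ S, p.Prime) (p : ℕ) (hp : p.Prime) (hpS : p ∉ S) (H : ℕ) :
    FF (insert p S) H = (1 - 2 / (p : ℝ)) * FF S H + (1 / (p : ℝ)) * ∑ j ∈ range p, FF S (nc H p j) := by
  have hp0 : 0 < p := hp.pos
  have hpr : (0 : ℝ) < p := by exact_mod_cast hp0
  -- congruent pairs
  have key : ∀ j ∈ range p, FF S (nc H p j) =
      ∑ h ∈ (range H).filter (fun h => h % p = j), ∑ h' ∈ (range H).filter (fun h => h % p = j),
        LP S ((h : ℤ) - h') := by
    intro j hj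
    rw [mem_range] at hj
    -- enumeration k ↦ j + k p
    have himg : (range H).filter (fun h => h % p = j) = (range (nc H p j)).image (fun k => j + k * p) := by
      ext h
      simp only [mem_filter, mem_range, mem_image]
      rw [nc_eq H p j hp0 hj]
      have hd := Nat.div_add_mod H p
      have hmH := Nat.mod_lt H hp0
      constructor
      · rintro ⟨h1, h2⟩
        refine ⟨h / p, ?_, ?_⟩
        · have h3 := Nat.div_add_mod h p
          rw [h2] at h3
          split_ifs with h4
          · have : p * (h / p) < p * (H / p + 1) := by rw [mul_add]; omega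
            have := Nat.lt_of_mul_lt_mul_left this
            omega
          · have h5 : p * (h / p) < p * (H / p) := by omega
            have := Nat.lt_of_mul_lt_mul_left h5
            omega
        · have h3 := Nat.div_add_mod h p
          rw [h2] at h3
          rw [mul_comm (h / p) p]
          omega
      · rintro ⟨k, hk, rfl⟩
        refine ⟨?_, ?_⟩
        · split_ifs at hk with h4
          · have h5 : k * p ≤ (H / p) * p := Nat.mul_le_mul_right p (by omega)
            rw [mul_comm (H / p) p] at h5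
            omega
          · have h5 : (k + 1) * p ≤ (H / p) * p := Nat.mul_le_mul_right p (by omega)
            rw [mul_comm (H / p) p, add_mul] at h5
            omega
        · rw [Nat.add_mul_mod_self_right, Nat.mod_eq_of_lt hj]
    have hinj : Set.InjOn (fun k => j + k * p) (range (nc H p j) : Set ℕ) := by
      intro a _ b _ hab
      have h1 : a * p = b * p := by
        have : j + a * p = j + b * p := hab
        omega
      exact Nat.eq_of_mul_eq_mul_right hp0 h1
    rw [himg, sum_image hinj, FF]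
    apply sum_congr rfl
    intro a _
    rw [sum_image hinj]
    apply sum_congr rfl
    intro b _
    unfold LP
    apply prod_congr rfl
    intro p' hp'
    unfold loc
    have hne : p' ≠ p := fun h => hpS (h ▸ hp')
    have hcop : IsCoprime (p' : ℤ) (p : ℤ) := by
      rw [Nat.isCoprime_iff_coprime]
      exact (Nat.coprime_primes (hS p' hp') hp).2 hne
    have h1 : ((((j + a * p : ℕ) : ℤ)) - ((j + b * p : ℕ) : ℤ)) = ((a : ℤ) - b) * p := by
      push_cast; ring
    have h2 : (p' : ℤ) ∣ ((a : ℤ) - b) * p ↔ (p' : ℤ) ∣ (a : ℤ) - b :=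
      ⟨fun h => hcop.dvd_of_dvd_mul_right h, fun h => h.mul_right _⟩
    have h3 : ((p' : ℤ) ∣ (((fun k => j + k * p) a : ℕ) : ℤ) - (((fun k => j + k * p) b : ℕ) : ℤ)) ↔
        (p' : ℤ) ∣ (a : ℤ) - b := by
      show ((p' : ℤ) ∣ (((j + a * p : ℕ) : ℤ)) - ((j + b * p : ℕ) : ℤ)) ↔ _
      rw [h1, h2]
    simp only [h3]
  rw [sum_congr rfl key]
  have hfib : ∑ j ∈ range p, ∑ h ∈ (range H).filter (fun h => h % p = j),
      ∑ h' ∈ (range H).filter (fun h => h % p = j), LP S ((h : ℤ) - h') =
      ∑ h ∈ range H, ∑ h' ∈ range H, (if (p : ℤ) ∣ (h : ℤ) - h' then LP S ((h : ℤ) - h') else 0) := by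
    have h1 : ∀ j ∈ range p, ∑ h ∈ (range H).filter (fun h => h % p = j),
        ∑ h' ∈ (range H).filter (fun h => h % p = j), LP S ((h : ℤ) - h') =
        ∑ h ∈ (range H).filter (fun h => h % p = j),
          ∑ h' ∈ range H, (if (p : ℤ) ∣ (h : ℤ) - h' then LP S ((h : ℤ) - h') else 0) := by
      intro j _
      apply sum_congr rfl
      intro h hh
      rw [mem_filter] at hh
      rw [sum_filter]
      apply sum_congr rfl
      intro h' _
      have h3 : (h' % p = j) ↔ (p : ℤ) ∣ (h : ℤ) - h' := by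
        rw [← hh.2, ← Int.natCast_inj, Int.natCast_mod, Int.natCast_mod, ← Int.ModEq, Int.modEq_iff_dvd]
      simp only [h3]
    rw [sum_congr rfl h1]
    rw [sum_fiberwise_of_maps_to (g := fun h => h % p) (t := range p)]
    intro h _
    exact mem_range.2 (Nat.mod_lt _ hp0)
  rw [hfib]
  unfold FF
  rw [mul_sum, mul_sum, ← sum_add_distrib]
  apply sum_congr rfl
  intro h _
  rw [mul_sum, mul_sum, ← sum_add_distrib]
  apply sum_congr rfl
  intro h' _
  unfold LP
  rw [prod_insert hpS, loc]
  by_cases hd : (p : ℤ) ∣ (h : ℤ) - h'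
  · rw [if_pos hd, if_pos hd]; ring
  · rw [if_neg hd, if_neg hd]; ring

theorem redwin (S : Finset ℕ) (hS : ∀ p ∈ S, p.Prime) :
    ∀ H : ℕ, FF S H ≤ (H * ps S) ^ 2 + H * ps S * (1 - ps S) := by
  induction S using Finset.induction_on with
  | empty =>
    intro H
    simp [FF, LP, ps]
    nlinarith
  | insert p S hpS ih =>
    intro H
    have hS' : ∀ q ∈ S, q.Prime := fun q hq => hS q (mem_insert_of_mem hq)
    have hp : p.Prime := hS p (mem_insert_self _ _)
    have ih' := ih hS'
    have hp2 : (2 : ℝ) ≤ p := by exact_mod_cast hp.two_le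
    have hp0 : (0 : ℝ) < p := by linarith
    rw [FF_insert S hS' p hp hpS H]
    have h1 : ps (insert p S) = (1 - 1 / (p : ℝ)) * ps S := by
      unfold ps
      rw [prod_insert hpS]
    rw [h1]
    set P := ps S with hP
    have hP0 : 0 ≤ P := ps_nonneg S hS'
    have hP1 : P ≤ 1 := ps_le_one S hS'
    have h2 : ∑ j ∈ range p, FF S (nc H p j) ≤
        P ^ 2 * ∑ j ∈ range p, (nc H p j : ℝ) ^ 2 + H * (P * (1 - P)) := by
      calc ∑ j ∈ range p, FF S (nc H p j) ≤ ∑ j ∈ range p, ((nc H p j * P) ^ 2 + nc H p j * P * (1 - P)) :=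
            sum_le_sum fun j _ => ih' _
        _ = P ^ 2 * ∑ j ∈ range p, (nc H p j : ℝ) ^ 2 + (∑ j ∈ range p, (nc H p j : ℝ)) * (P * (1 - P)) := by
            rw [sum_add_distrib, mul_sum, sum_mul]
            congr 1
            · exact sum_congr rfl fun j _ => by ring
            · exact sum_congr rfl fun j _ => by ring
        _ = _ := by
            have : (∑ j ∈ range p, (nc H p j : ℝ)) = H := by exact_mod_cast nc_sum H p hp.pos
            rw [this]
    have h3 := nc_sq H p hp.pos
    have h4 := ih' H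
    have h5 : (0 : ℝ) ≤ 1 - 2 / (p : ℝ) := by
      rw [sub_nonneg, div_le_one hp0]
      exact hp2
    have h6 : ∑ j ∈ range p, (nc H p j : ℝ) ^ 2 ≤ ((H : ℝ) ^ 2 + H * (p - 1)) / p := by
      rw [le_div_iff₀ hp0]
      linarith
    have h7 : (1 / (p : ℝ)) * ∑ j ∈ range p, FF S (nc H p j) ≤
        (1 / (p : ℝ)) * (P ^ 2 * (((H : ℝ) ^ 2 + H * (p - 1)) / p) + H * (P * (1 - P))) := by
      apply mul_le_mul_of_nonneg_left _ (by positivity)
      refine h2.trans ?_
      have := mul_le_mul_of_nonneg_left h6 (sq_nonneg P)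
      linarith
    have h8 := mul_le_mul_of_nonneg_left h4 h5
    calc _ ≤ (1 - 2 / (p : ℝ)) * ((H * P) ^ 2 + H * P * (1 - P)) +
          (1 / (p : ℝ)) * (P ^ 2 * (((H : ℝ) ^ 2 + H * (p - 1)) / p) + H * (P * (1 - P))) := add_le_add h8 h7
      _ = (H * ((1 - 1 / (p : ℝ)) * P)) ^ 2 + H * ((1 - 1 / (p : ℝ)) * P) * (1 - (1 - 1 / (p : ℝ)) * P) := by
          field_simp
          ring

end Pool.Agent.Lib.MP_e3f158_nt.U
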