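import Pool.Agent.Lib.MP_e3f158_nt.U.Defs
import Pool.Agent.Lib.MP_e3f158_nt.Brun

/-!
# MP_e3f158_nt, theorem U: Brun's pure sieve with the exact main term, for two linear forms
-/

namespace Pool.Agent.Lib.MP_e3f158_nt.U

open Finset

/-- The number of `m < N` in a residue class mod `M` with `m % p ∈ Om p` for all `p ∈ D`. -/
theorem card_res (N : ℕ) (Om : ℕ → Finset ℕ) (hOm : ∀ p, Om p ⊆ range p) (D : Finset ℕ)
    (hD : ∀ p ∈ D, p.Prime) :
    ∀ M v : ℕ, 0 < M → (∀ p ∈ D, Nat.Coprime M p) →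
    |(((range N).filter fun m => m ≡ v [MOD M] ∧ ∀ p ∈ D, m % p ∈ Om p).card : ℝ) -
      (N : ℝ) / M * ∏ p ∈ D, (((Om p).card : ℝ) / p)| ≤ ∏ p ∈ D, ((Om p).card : ℝ) := by
  classical
  induction D using Finset.induction_on with
  | empty =>
    intro M v hM _
    simpa using card_class N M v hM
  | insert q D hq ih =>
    intro M v hM hcop
    have hD' : ∀ p ∈ D, p.Prime := fun p hp => hD p (mem_insert_of_mem hp)
    have hqp : q.Prime := hD q (mem_insert_self q D)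
    have hMq : Nat.Coprime M q := hcop q (mem_insert_self q D)
    have ih' := ih hD'
    have hcrt : ∀ e : ℕ, ∃ c : ℕ, ∀ m : ℕ, (m ≡ v [MOD M] ∧ m ≡ e [MOD q]) ↔ m ≡ c [MOD (M * q)] := by
      intro e
      obtain ⟨c, hc1, hc2⟩ := Nat.chineseRemainder hMq v e
      refine ⟨c, fun m => ?_⟩
      rw [← Nat.modEq_and_modEq_iff_modEq_mul hMq]
      constructor
      · rintro ⟨h1, h2⟩
        exact ⟨h1.trans hc1.symm, h2.trans hc2.symm⟩
      · rintro ⟨h1, h2⟩
        exact ⟨h1.trans hc1, h2.trans hc2⟩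
    choose c hc using hcrt
    have hMq0 : 0 < M * q := Nat.mul_pos hM hqp.pos
    have hcop' : ∀ p ∈ D, Nat.Coprime (M * q) p := by
      intro p hp
      refine Nat.Coprime.mul_left (hcop p (mem_insert_of_mem hp)) ?_
      refine (Nat.coprime_primes hqp (hD' p hp)).2 ?_
      rintro rfl
      exact hq hp
    have hmodq : ∀ e ∈ Om q, ∀ m : ℕ, m ≡ e [MOD q] ↔ m % q = e := by
      intro e he m
      have h1 := mem_range.1 (hOm q he)
      rw [Nat.ModEq, Nat.mod_eq_of_lt h1]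
    have hsplit : (range N).filter (fun m => m ≡ v [MOD M] ∧ ∀ p ∈ insert q D, m % p ∈ Om p) =
        (Om q).biUnion fun e => (range N).filter fun m => m ≡ c e [MOD (M * q)] ∧
          ∀ p ∈ D, m % p ∈ Om p := by
      ext m
      simp only [mem_filter, mem_range, mem_biUnion, mem_insert, forall_eq_or_imp]
      constructor
      · rintro ⟨hm, hv, hmq, hall⟩
        exact ⟨m % q, hmq, hm, (hc _ m).1 ⟨hv, (hmodq _ hmq m).2 rfl⟩, hall⟩
      · rintro ⟨e, he, hm, hmod, hall⟩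
        obtain ⟨h1, h2⟩ := (hc e m).2 hmod
        refine ⟨hm, h1, ?_, hall⟩
        rw [(hmodq e he m).1 h2]
        exact he
    have hdisj : ∀ e ∈ Om q, ∀ e' ∈ Om q, e ≠ e' → Disjoint
        ((range N).filter fun m => m ≡ c e [MOD (M * q)] ∧ ∀ p ∈ D, m % p ∈ Om p)
        ((range N).filter fun m => m ≡ c e' [MOD (M * q)] ∧ ∀ p ∈ D, m % p ∈ Om p) := by
      intro e he e' he' hne
      rw [Finset.disjoint_left]
      intro m hm hm'
      simp only [mem_filter] at hm hm'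
      have h1 := (hmodq e he m).1 ((hc e m).2 hm.2.1).2
      have h2 := (hmodq e' he' m).1 ((hc e' m).2 hm'.2.1).2
      exact hne (h1.symm.trans h2)
    rw [hsplit, card_biUnion hdisj, prod_insert hq, prod_insert hq]
    push_cast
    have hb : ∀ e ∈ Om q, |(((range N).filter fun m => m ≡ c e [MOD (M * q)] ∧
          ∀ p ∈ D, m % p ∈ Om p).card : ℝ) -
        (N : ℝ) / ((M * q : ℕ) : ℝ) * ∏ p ∈ D, (((Om p).card : ℝ) / p)| ≤
          ∏ p ∈ D, ((Om p).card : ℝ) := fun e _ => ih' (M * q) (c e) hMq0 hcop'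
    have hqr : (q : ℝ) ≠ 0 := by exact_mod_cast hqp.ne_zero
    have hMr : (M : ℝ) ≠ 0 := by exact_mod_cast hM.ne'
    have e1 : (N : ℝ) / M * (((Om q).card : ℝ) / q * ∏ p ∈ D, (((Om p).card : ℝ) / p)) =
        ∑ e ∈ Om q, (N : ℝ) / ((M * q : ℕ) : ℝ) * ∏ p ∈ D, (((Om p).card : ℝ) / p) := by
      rw [sum_const, nsmul_eq_mul]
      push_cast
      field_simp
    rw [e1, ← sum_sub_distrib]
    calc _ ≤ ∑ e ∈ Om q, _ := abs_sum_le_sum_abs _ _
      _ ≤ ∑ e ∈ Om q, ∏ p ∈ D, ((Om p).card : ℝ) := sum_le_sum hb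
      _ = ((Om q).card : ℝ) * ∏ p ∈ D, ((Om p).card : ℝ) := by
        rw [sum_const, nsmul_eq_mul]

/-- truncated product -/
theorem trunc_prod (P : Finset ℕ) (x : ℕ → ℝ) (hx0 : ∀ p ∈ P, 0 ≤ x p) (r : ℕ) :
    ∑ k ∈ range (2 * r + 1), ∑ D ∈ P.powersetCard k, ∏ p ∈ D, (-(x p)) ≤
      ∏ p ∈ P, (1 - x p) + Real.exp (3 * (∑ p ∈ P, x p) - 2 * r) := by
  classical
  have h5 : ∑ k ∈ range (2 * r + 1), ∑ D ∈ P.powersetCard k, ∏ p ∈ D, (-(x p)) =
      ∑ D ∈ P.powerset.filter (fun D => D.card < 2 * r + 1), ∏ p ∈ D, (-(x p)) := by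
    rw [← sum_fiberwise_of_maps_to (s := P.powerset.filter (fun D => D.card < 2 * r + 1))
      (t := range (2 * r + 1)) (g := fun D => D.card) (fun D hD => mem_range.2 (mem_filter.1 hD).2)]
    refine sum_congr rfl fun k hk => sum_congr ?_ fun _ _ => rfl
    ext D
    simp only [mem_powersetCard, mem_filter, mem_powerset]
    constructor
    · rintro ⟨h6, h7⟩
      exact ⟨⟨h6, by rw [h7]; exact mem_range.1 hk⟩, h7⟩
    · rintro ⟨⟨h6, _⟩, h7⟩
      exact ⟨h6, h7⟩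
  have h6 : ∏ p ∈ P, (1 + -(x p)) = ∑ D ∈ P.powerset, ∏ p ∈ D, (-(x p)) := prod_one_add P
  have h7 := sum_filter_add_sum_filter_not P.powerset (fun D => D.card < 2 * r + 1)
    (fun D => ∏ p ∈ D, (-(x p)))
  have h9 : -(∑ D ∈ P.powerset.filter (fun D => ¬ D.card < 2 * r + 1),
      ∏ p ∈ D, (-(x p))) ≤ Real.exp (3 * (∑ p ∈ P, x p) - 2 * r) := by
    rw [← sum_neg_distrib]
    calc ∑ D ∈ P.powerset.filter (fun D => ¬ D.card < 2 * r + 1), -∏ p ∈ D, (-(x p))
        ≤ ∑ D ∈ P.powerset.filter (fun D => ¬ D.card < 2 * r + 1),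
          Real.exp (-(2 * r)) * ∏ p ∈ D, (Real.exp 1 * (x p)) := by
          refine sum_le_sum fun D hD => ?_
          have h10 : ¬ D.card < 2 * r + 1 := (mem_filter.1 hD).2
          have h11 : D ⊆ P := mem_powerset.1 (mem_filter.1 hD).1
          have h12 : 0 ≤ ∏ p ∈ D, (x p) := prod_nonneg fun p hp => hx0 p (h11 hp)
          rw [prod_neg, prod_mul_distrib, prod_const, ← Real.exp_nat_mul, ← mul_assoc,
            ← Real.exp_add]
          have h13 : (1 : ℝ) ≤ Real.exp (-(2 * r) + D.card * 1) := by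
            apply Real.one_le_exp
            have : (2 * (r : ℝ)) ≤ D.card := by
              exact_mod_cast (by omega : 2 * r ≤ D.card)
            linarith
          refine le_trans ?_ (mul_le_mul_of_nonneg_right h13 h12)
          rcases neg_one_pow_eq_or ℝ D.card with h14 | h14
          · rw [h14]; linarith
          · rw [h14]; linarith
      _ ≤ ∑ D ∈ P.powerset, Real.exp (-(2 * r)) * ∏ p ∈ D, (Real.exp 1 * (x p)) := by
          refine sum_le_sum_of_subset_of_nonneg (filter_subset _ _) fun D hD _ => ?_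
          have h11 : D ⊆ P := mem_powerset.1 hD
          have : 0 ≤ ∏ p ∈ D, (Real.exp 1 * (x p)) :=
            prod_nonneg fun p hp => mul_nonneg (Real.exp_pos _).le (hx0 p (h11 hp))
          exact mul_nonneg (Real.exp_pos _).le this
      _ = Real.exp (-(2 * r)) * ∏ p ∈ P, (1 + Real.exp 1 * (x p)) := by
          rw [← mul_sum, prod_one_add]
      _ ≤ Real.exp (-(2 * r)) * Real.exp (3 * ∑ p ∈ P, x p) := by
          refine mul_le_mul_of_nonneg_left ?_ (Real.exp_pos _).le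
          rw [mul_sum, Real.exp_sum]
          refine prod_le_prod (fun p hp => ?_) fun p hp => ?_
          · have := mul_nonneg (Real.exp_pos 1).le (hx0 p hp)
            linarith
          · have h14 := Real.add_one_le_exp (3 * x p)
            have h15 := Real.exp_one_lt_d9
            have h19 : Real.exp 1 * (x p) ≤ 3 * (x p) :=
              mul_le_mul_of_nonneg_right (by linarith) (hx0 p hp)
            linarith
      _ = Real.exp (3 * (∑ p ∈ P, x p) - 2 * r) := by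
          rw [← Real.exp_add]
          congr 1
          ring
  rw [h5]
  have h20 : ∏ p ∈ P, (1 - x p) = ∏ p ∈ P, (1 + -(x p)) := prod_congr rfl fun p _ => by ring
  rw [h20]
  linarith

/-- Brun's pure sieve with exact main term. -/
theorem brun_res (N : ℕ) (Om : ℕ → Finset ℕ) (hOm : ∀ p, Om p ⊆ range p) (P : Finset ℕ)
    (hP : ∀ p ∈ P, p.Prime) (hOm2 : ∀ p ∈ P, (Om p).card ≤ 2) (r : ℕ) :
    (((range N).filter fun m => ∀ p ∈ P, m % p ∉ Om p).card : ℝ) ≤
      N * ∏ p ∈ P, (1 - ((Om p).card : ℝ) / p) +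
      N * Real.exp (6 * (∑ p ∈ P, (1 : ℝ) / p) - 2 * r) + (1 + 2 * P.card) ^ (2 * r) := by
  classical
  have hx0 : ∀ p ∈ P, 0 ≤ ((Om p).card : ℝ) / p := fun p _ => by positivity
  let E : ℕ → Finset ℕ := fun m => P.filter fun p => m % p ∈ Om p
  have h1 : (((range N).filter fun m => ∀ p ∈ P, m % p ∉ Om p).card : ℝ) ≤
      ∑ m ∈ range N, ∑ k ∈ range (2 * r + 1), (-1 : ℝ) ^ k * ((E m).card.choose k : ℝ) := by
    rw [card_filter]
    push_cast
    refine sum_le_sum fun m _ => ?_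
    refine le_trans ?_ (bonferroni (E m).card r)
    by_cases hm : ∀ p ∈ P, m % p ∉ Om p
    · rw [if_pos hm, if_pos]
      rw [card_eq_zero, filter_eq_empty_iff]
      intro p hp
      exact hm p hp
    · rw [if_neg hm]
      split_ifs <;> norm_num
  have h2 : ∀ k, ∑ m ∈ range N, ((E m).card.choose k : ℝ) =
      ∑ D ∈ P.powersetCard k, (((range N).filter fun m => ∀ p ∈ D, m % p ∈ Om p).card : ℝ) := by
    intro k
    have h3 : ∀ m ∈ range N, ((E m).card.choose k : ℝ) =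
        ∑ D ∈ P.powersetCard k, if (∀ p ∈ D, m % p ∈ Om p) then (1 : ℝ) else 0 := by
      intro m _
      rw [← card_powersetCard, ← Finset.sum_filter, sum_const, nsmul_eq_mul, mul_one]
      congr 2
      ext D
      simp only [mem_powersetCard, mem_filter, E]
      constructor
      · rintro ⟨h4, h5⟩
        refine ⟨⟨fun p hp => (mem_filter.1 (h4 hp)).1, h5⟩, fun p hp => (mem_filter.1 (h4 hp)).2⟩
      · rintro ⟨⟨h4, h5⟩, h6⟩
        exact ⟨fun p hp => mem_filter.2 ⟨h4 hp, h6 p hp⟩, h5⟩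
    rw [sum_congr rfl h3, sum_comm]
    refine sum_congr rfl fun D _ => ?_
    rw [card_filter]
    push_cast
    rfl
  rw [sum_comm] at h1
  simp_rw [← mul_sum, h2] at h1
  have h3 : ∀ k ∈ range (2 * r + 1), (-1 : ℝ) ^ k *
      ∑ D ∈ P.powersetCard k, (((range N).filter fun m => ∀ p ∈ D, m % p ∈ Om p).card : ℝ) ≤
      N * ∑ D ∈ P.powersetCard k, ∏ p ∈ D, (-(((Om p).card : ℝ) / p)) + (P.card.choose k : ℝ) * 2 ^ k := by
    intro k _
    have h4 : (P.card.choose k : ℝ) * 2 ^ k = ∑ D ∈ P.powersetCard k, (2 : ℝ) ^ k := by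
      rw [sum_const, card_powersetCard, nsmul_eq_mul]
    rw [h4, mul_sum, mul_sum, ← sum_add_distrib]
    refine sum_le_sum fun D hD => ?_
    have hDP : D ⊆ P := (mem_powersetCard.1 hD).1
    have h6 : D.card = k := (mem_powersetCard.1 hD).2
    have h5 := card_res N Om hOm D (fun p hp => hP p (hDP hp)) 1 0 one_pos
      (fun p _ => Nat.coprime_one_left p)
    simp only [Nat.modEq_one, true_and, Nat.cast_one, div_one] at h5
    have h8 : ∏ p ∈ D, ((Om p).card : ℝ) ≤ 2 ^ k := by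
      rw [← h6, ← prod_const]
      exact prod_le_prod (fun p _ => by positivity) fun p hp => by exact_mod_cast hOm2 p (hDP hp)
    have h7 : ∏ p ∈ D, (-(((Om p).card : ℝ) / p)) = (-1) ^ k * ∏ p ∈ D, (((Om p).card : ℝ) / p) := by
      rw [prod_neg, h6]
    rw [h7]
    rcases Nat.even_or_odd k with hk | hk
    · rw [hk.neg_one_pow]
      have := (abs_le.1 h5).2
      linarith
    · rw [hk.neg_one_pow]
      have := (abs_le.1 h5).1
      linarith
  have h4 := h1.trans (sum_le_sum h3)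
  rw [sum_add_distrib, ← mul_sum] at h4
  have herr : ∑ k ∈ range (2 * r + 1), (P.card.choose k : ℝ) * 2 ^ k ≤
      (1 + 2 * P.card) ^ (2 * r) := by
    rw [add_comm (1 : ℝ), add_pow]
    refine sum_le_sum fun k hk => ?_
    have hk' : k ≤ 2 * r := Nat.lt_succ_iff.1 (mem_range.1 hk)
    have h5 : (P.card.choose k : ℝ) ≤ (P.card : ℝ) ^ k := by
      exact_mod_cast Nat.choose_le_pow P.card k
    have h6 : (1 : ℝ) ≤ ((2 * r).choose k : ℝ) := by
      exact_mod_cast Nat.choose_pos hk'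
    calc (P.card.choose k : ℝ) * 2 ^ k ≤ (P.card : ℝ) ^ k * 2 ^ k := by gcongr
      _ = (2 * P.card) ^ k * 1 ^ (2 * r - k) * 1 := by rw [mul_pow]; ring
      _ ≤ (2 * P.card) ^ k * 1 ^ (2 * r - k) * ((2 * r).choose k : ℝ) := by gcongr
  have hmain : ∑ k ∈ range (2 * r + 1), ∑ D ∈ P.powersetCard k, ∏ p ∈ D, (-(((Om p).card : ℝ) / p)) ≤
      ∏ p ∈ P, (1 - ((Om p).card : ℝ) / p) + Real.exp (6 * (∑ p ∈ P, (1 : ℝ) / p) - 2 * r) := by
    refine (trunc_prod P (fun p => ((Om p).card : ℝ) / p) hx0 r).trans ?_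
    have h5 : ∑ p ∈ P, ((Om p).card : ℝ) / p ≤ 2 * ∑ p ∈ P, (1 : ℝ) / p := by
      rw [mul_sum]
      refine sum_le_sum fun p hp => ?_
      have h17 : ((Om p).card : ℝ) ≤ 2 := by exact_mod_cast hOm2 p hp
      have h18 : (0 : ℝ) ≤ 1 / (p : ℝ) := by positivity
      calc ((Om p).card : ℝ) / p = (Om p).card * (1 / (p : ℝ)) := by ring
        _ ≤ 2 * (1 / (p : ℝ)) := mul_le_mul_of_nonneg_right h17 h18
    have h6 : Real.exp (3 * (∑ p ∈ P, ((Om p).card : ℝ) / p) - 2 * r) ≤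
        Real.exp (6 * (∑ p ∈ P, (1 : ℝ) / p) - 2 * r) := by
      rw [Real.exp_le_exp]
      linarith
    linarith
  calc _ ≤ (N : ℝ) * ∑ k ∈ range (2 * r + 1), ∑ D ∈ P.powersetCard k, ∏ p ∈ D, (-(((Om p).card : ℝ) / p)) +
        ∑ k ∈ range (2 * r + 1), (P.card.choose k : ℝ) * 2 ^ k := h4
    _ ≤ (N : ℝ) * (∏ p ∈ P, (1 - ((Om p).card : ℝ) / p) +
        Real.exp (6 * (∑ p ∈ P, (1 : ℝ) / p) - 2 * r)) + (1 + 2 * P.card) ^ (2 * r) := by gcongr
    _ = _ := by ring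

/-- residues `x` mod `p` with `p ∣ d x + u` or `p ∣ d x + v` -/
def Om2 (d : ℕ) (u v : ℤ) (p : ℕ) : Finset ℕ :=
  (range p).filter fun x => (p : ℤ) ∣ d * (x : ℤ) + u ∨ (p : ℤ) ∣ d * (x : ℤ) + v

theorem Om2_one (d : ℕ) (u : ℤ) (p : ℕ) (hp : p.Prime) (hd : ¬ p ∣ d) :
    ∃ x0 < p, ∀ x : ℕ, x < p → ((p : ℤ) ∣ d * (x : ℤ) + u ↔ x = x0) := by
  have hcop : IsCoprime (d : ℤ) (p : ℤ) := by
    rw [Nat.isCoprime_iff_coprime]
    exact ((Nat.Prime.coprime_iff_not_dvd hp).2 hd).symm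
  obtain ⟨a, b, hab⟩ := hcop
  have hp0 : (0 : ℤ) < p := by exact_mod_cast hp.pos
  have hx0 : 0 ≤ (-(a * u)) % (p : ℤ) := Int.emod_nonneg _ hp0.ne'
  have hx1 : (-(a * u)) % (p : ℤ) < p := Int.emod_lt_of_pos _ hp0
  obtain ⟨x0, hx0'⟩ := Int.eq_ofNat_of_zero_le hx0
  have hroot : (p : ℤ) ∣ d * (x0 : ℤ) + u := by
    have h1 : (p : ℤ) ∣ -(a * u) - (x0 : ℤ) := by
      rw [← hx0']
      exact Int.dvd_self_sub_emod
    have h2 : (d : ℤ) * x0 + u = b * u * p - d * (-(a * u) - x0) := by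
      have : u = (a * d + b * p) * u := by rw [hab, one_mul]
      linear_combination (1 : ℤ) * this
    rw [h2]
    exact dvd_sub (dvd_mul_left _ _) (h1.mul_left _)
  refine ⟨x0, by exact_mod_cast hx0' ▸ hx1, fun x hx => ⟨fun h => ?_, fun h => by rw [h]; exact hroot⟩⟩
  have h3 : (p : ℤ) ∣ d * ((x : ℤ) - x0) := by
    have := dvd_sub h hroot
    have h4 : (d : ℤ) * x + u - (d * x0 + u) = d * ((x : ℤ) - x0) := by ring
    rwa [h4] at this
  have h4 : (p : ℤ) ∣ (x : ℤ) - x0 := by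
    rcases (Nat.prime_iff_prime_int.1 hp).dvd_or_dvd h3 with h5 | h5
    · exact absurd (by exact_mod_cast h5) hd
    · exact h5
  have hx0p : x0 < p := by exact_mod_cast hx0' ▸ hx1
  have h5 : (x : ℤ) - x0 = 0 := by
    apply Int.eq_zero_of_abs_lt_dvd h4
    rw [abs_lt]
    constructor
    · have : (x0 : ℤ) < p := by exact_mod_cast hx0p
      have : (0 : ℤ) ≤ x := by positivity
      linarith
    · have : (x : ℤ) < p := by exact_mod_cast hx
      have : (0 : ℤ) ≤ x0 := by positivity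
      linarith
  have h6 : (x : ℤ) = x0 := by linarith
  exact_mod_cast h6

theorem Om2_card (d : ℕ) (u v : ℤ) (p : ℕ) (hp : p.Prime) (hd : ¬ p ∣ d) :
    (Om2 d u v p).card = if (p : ℤ) ∣ u - v then 1 else 2 := by
  obtain ⟨x0, hx0, h0⟩ := Om2_one d u p hp hd
  obtain ⟨x1, hx1, h1⟩ := Om2_one d v p hp hd
  have hset : Om2 d u v p = {x0, x1} := by
    ext x
    unfold Om2
    rw [mem_filter, mem_range, mem_insert, mem_singleton]
    constructor
    · rintro ⟨hx, h2 | h2⟩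
      · exact Or.inl ((h0 x hx).1 h2)
      · exact Or.inr ((h1 x hx).1 h2)
    · rintro (rfl | rfl)
      · exact ⟨hx0, Or.inl ((h0 _ hx0).2 rfl)⟩
      · exact ⟨hx1, Or.inr ((h1 _ hx1).2 rfl)⟩
  rw [hset]
  have hr0 := (h0 x0 hx0).2 rfl
  have hr1 := (h1 x1 hx1).2 rfl
  by_cases h : (p : ℤ) ∣ u - v
  · rw [if_pos h]
    have h2 : (p : ℤ) ∣ d * (x1 : ℤ) + u := by
      have : (d : ℤ) * x1 + u = (d * x1 + v) + (u - v) := by ring
      rw [this]
      exact dvd_add hr1 h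
    have h3 := (h0 x1 hx1).1 h2
    rw [h3]
    simp
  · rw [if_neg h]
    apply card_pair
    intro h2
    apply h
    rw [h2] at hr0
    have := dvd_sub hr0 hr1
    have h3 : (d : ℤ) * x1 + u - (d * x1 + v) = u - v := by ring
    rwa [h3] at this

theorem sieve2 (P : Finset ℕ) (hP : ∀ p ∈ P, p.Prime) (d : ℕ) (hd : ∀ p ∈ P, ¬ p ∣ d) (u v : ℤ)
    (M r : ℕ) :
    (((range M).filter fun m : ℕ => ∀ p ∈ P, ¬ (p : ℤ) ∣ d * (m : ℤ) + u ∧
      ¬ (p : ℤ) ∣ d * (m : ℤ) + v).card : ℝ) ≤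
      M * LP P (u - v) + M * Real.exp (6 * (∑ p ∈ P, (1 : ℝ) / p) - 2 * r) +
        (1 + 2 * P.card) ^ (2 * r) := by
  have h1 := brun_res M (Om2 d u v) (fun p => filter_subset _ _) P hP (fun p hp => by
    rw [Om2_card d u v p (hP p hp) (hd p hp)]
    split_ifs <;> omega) r
  have h2 : ∏ p ∈ P, (1 - ((Om2 d u v p).card : ℝ) / p) = LP P (u - v) := by
    unfold LP
    apply prod_congr rfl
    intro p hp
    rw [Om2_card d u v p (hP p hp) (hd p hp), loc]
    split_ifs <;> norm_num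
  rw [h2] at h1
  have h3 : (range M).filter (fun m : ℕ => ∀ p ∈ P, ¬ (p : ℤ) ∣ d * (m : ℤ) + u ∧
      ¬ (p : ℤ) ∣ d * (m : ℤ) + v) = (range M).filter fun m => ∀ p ∈ P, m % p ∉ Om2 d u v p := by
    apply filter_congr
    intro m _
    apply forall₂_congr
    intro p hp
    have hp0 := (hP p hp).pos
    have h4 : ∀ t : ℤ, ((p : ℤ) ∣ d * ((m % p : ℕ) : ℤ) + t ↔ (p : ℤ) ∣ d * (m : ℤ) + t) := by
      intro t
      have h5 : (m : ℤ) = p * ((m / p : ℕ) : ℤ) + ((m % p : ℕ) : ℤ) := by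
        exact_mod_cast (Nat.div_add_mod m p).symm
      have h6 : (d : ℤ) * (m : ℤ) + t = (d * ((m % p : ℕ) : ℤ) + t) + p * (d * ((m / p : ℕ) : ℤ)) := by
        conv_lhs => rw [h5]
        ring
      rw [h6]
      exact (dvd_add_left (dvd_mul_right _ _)).symm
    unfold Om2
    rw [mem_filter, mem_range, h4 u, h4 v]
    have h7 := Nat.mod_lt m hp0
    tauto
  rw [h3]
  exact h1

end Pool.Agent.Lib.MP_e3f158_nt.U
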