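import Pool.Agent.Lib.MP_e3f158_nt.U.Prod
import Pool.Agent.Lib.MP_e3f158_nt.U.Corr
import Pool.Agent.Lib.MP_e3f158_nt.U.Sieve2
import Pool.Agent.Lib.MP_e3f158_nt.U.L2

/-!
# MP_e3f158_nt, theorem U: the second moment
-/

set_option autoImplicit false

namespace Pool.Agent.Lib.MP_e3f158_nt.U

open Finset Pool.MP_67663b_nt.Odd Pool.MP_dd84fd_nt.En Pool.MP_dd84fd_nt.E2

/-- difference of the two forms -/
def dl (d : ℕ) (x y : ℕ × ℕ) : ℤ := (x.1 : ℤ) - y.1 - d * ((x.2 : ℤ) - y.2)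

/-- number of `k ≤ X` with many prime factors in `(w, z]` -/
noncomputable def Ex (w z X : ℕ) (ε : ℝ) : ℕ :=
  ((Icc 1 X).filter fun k : ℕ => 1 + ε < GG w z (k : ℤ)).card

theorem GG_natAbs (w z : ℕ) (k : ℤ) : GG w z ((k.natAbs : ℕ) : ℤ) = GG w z k := by
  unfold GG
  simp only [Int.dvd_natAbs]

theorem exc_count (w z Y X d H : ℕ) (ε : ℝ) (A : Finset ℕ) (hA : ∀ r ∈ A, r ≤ Y)
    (hX : Y + d * H ≤ X) :
    (((A ×ˢ range H) ×ˢ (A ×ˢ range H)).filter
      (fun q : (ℕ × ℕ) × (ℕ × ℕ) => 1 + ε < GG w z (dl d q.1 q.2))).card ≤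
      (2 * Ex w z X ε + 1) * (A.card * H ^ 2) := by
  classical
  have hmap : ∀ q ∈ ((A ×ˢ range H) ×ˢ (A ×ˢ range H)).filter
      (fun q : (ℕ × ℕ) × (ℕ × ℕ) => 1 + ε < GG w z (dl d q.1 q.2)),
      ((q.1.2, q.2) : ℕ × (ℕ × ℕ)) ∈ range H ×ˢ (A ×ˢ range H) := by
    intro q hq
    rw [mem_filter, mem_product, mem_product] at hq
    rw [mem_product]
    exact ⟨hq.1.1.2, hq.1.2⟩
  have hcard : (range H ×ˢ (A ×ˢ range H)).card = A.card * H ^ 2 := by
    rw [card_product, card_product, card_range]; ring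
  rw [← hcard]
  apply card_le_mul_card_image_of_maps_to hmap
  rintro ⟨h, y⟩ hb
  rw [mem_product, mem_product] at hb
  set c : ℤ := (y.1 : ℤ) + d * ((h : ℤ) - y.2) with hc
  set F := (((A ×ˢ range H) ×ˢ (A ×ˢ range H)).filter
      (fun q : (ℕ × ℕ) × (ℕ × ℕ) => 1 + ε < GG w z (dl d q.1 q.2))).filter
      (fun q => ((q.1.2, q.2) : ℕ × (ℕ × ℕ)) = (h, y)) with hF
  set K := (Icc 1 X).filter (fun k : ℕ => 1 + ε < GG w z (k : ℤ)) with hK
  have h1 : (F.image (fun q => (q.1.1 : ℤ))).card = F.card := by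
    apply card_image_of_injOn
    intro q hq q' hq' hqq
    have h2 := (mem_filter.1 (mem_coe.1 hq)).2
    have h3 := (mem_filter.1 (mem_coe.1 hq')).2
    rw [Prod.mk.injEq] at h2 h3
    have h4' : (q.1.1 : ℤ) = (q'.1.1 : ℤ) := hqq
    have h4 : q.1.1 = q'.1.1 := by exact_mod_cast h4'
    have h5 : q.1 = q'.1 := Prod.ext h4 (h2.1.trans h3.1.symm)
    exact Prod.ext h5 (h2.2.trans h3.2.symm)
  have h2 : F.image (fun q => (q.1.1 : ℤ)) ⊆
      {c} ∪ (K.image (fun k : ℕ => c + k) ∪ K.image (fun k : ℕ => c - k)) := by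
    intro t ht
    rw [mem_image] at ht
    obtain ⟨q, hq, rfl⟩ := ht
    rw [hF, mem_filter, mem_filter, mem_product, mem_product] at hq
    obtain ⟨⟨⟨⟨hq1, hq2⟩, hq3⟩, hq4⟩, hq5⟩ := hq
    rw [Prod.mk.injEq] at hq5
    have hdl : dl d q.1 q.2 = (q.1.1 : ℤ) - c := by
      unfold dl
      rw [hq5.1, hq5.2, hc]
      ring
    rw [mem_union, mem_union, mem_singleton, mem_image, mem_image]
    by_cases h0 : (q.1.1 : ℤ) = c
    · exact Or.inl h0
    · right
      set k := (dl d q.1 q.2).natAbs with hk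
      have hk0 : dl d q.1 q.2 ≠ 0 := by
        rw [hdl]
        exact sub_ne_zero.2 h0
      have hk1 : 1 ≤ k := Int.natAbs_pos.2 hk0
      have hkX : k ≤ X := by
        have e1 : (q.1.1 : ℤ) ≤ Y := by exact_mod_cast hA _ hq1
        have e2 : (q.2.1 : ℤ) ≤ Y := by exact_mod_cast hA _ (mem_product.1 hq3).1
        have e3 : (q.1.2 : ℤ) ≤ H := by exact_mod_cast (mem_range.1 hq2).le
        have e4 : (q.2.2 : ℤ) ≤ H := by exact_mod_cast (mem_range.1 (mem_product.1 hq3).2).le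
        have e5 : (0 : ℤ) ≤ q.1.1 := by positivity
        have e6 : (0 : ℤ) ≤ q.2.1 := by positivity
        have e7 : (0 : ℤ) ≤ q.1.2 := by positivity
        have e8 : (0 : ℤ) ≤ q.2.2 := by positivity
        have e9 : (0 : ℤ) ≤ d := by positivity
        have e10 : (Y : ℤ) + d * H ≤ X := by exact_mod_cast hX
        have e11 : (d : ℤ) * ((q.1.2 : ℤ) - q.2.2) ≤ d * H := by
          apply mul_le_mul_of_nonneg_left _ e9
          linarith
        have e12 : -((d : ℤ) * H) ≤ (d : ℤ) * ((q.1.2 : ℤ) - q.2.2) := by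
          rw [← mul_neg]
          apply mul_le_mul_of_nonneg_left _ e9
          linarith
        have e13 : |dl d q.1 q.2| ≤ X := by
          unfold dl
          rw [abs_le]
          constructor <;> linarith
        have e14 : (k : ℤ) = |dl d q.1 q.2| := by rw [hk]; exact Int.natCast_natAbs _
        have : (k : ℤ) ≤ X := by rw [e14]; exact e13
        exact_mod_cast this
      have hkK : k ∈ K := by
        rw [hK, mem_filter, mem_Icc]
        refine ⟨⟨hk1, hkX⟩, ?_⟩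
        rw [hk, GG_natAbs]
        exact hq4
      rcases Int.natAbs_eq (dl d q.1 q.2) with h3 | h3
      · left
        refine ⟨k, hkK, ?_⟩
        rw [← hk] at h3
        rw [hdl] at h3
        linarith
      · right
        refine ⟨k, hkK, ?_⟩
        rw [← hk] at h3
        rw [hdl] at h3
        linarith
  rw [← h1]
  refine (card_le_card h2).trans ?_
  refine (card_union_le _ _).trans ?_
  rw [card_singleton]
  have h3 := card_union_le (K.image (fun k : ℕ => c + k)) (K.image (fun k : ℕ => c - k))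
  have h4 : (K.image (fun k : ℕ => c + k)).card ≤ K.card := card_image_le
  have h5 : (K.image (fun k : ℕ => c - k)).card ≤ K.card := card_image_le
  have h6 : Ex w z X ε = K.card := rfl
  rw [h6]
  omega

theorem sum_LP_le (w z d Y X H : ℕ) (hwz : w ≤ z) (ε : ℝ) (hε : 0 ≤ ε) (A : Finset ℕ)
    (hA : ∀ r ∈ A, r ≤ Y) (hX : Y + d * H ≤ X) :
    ∑ x ∈ A ×ˢ range H, ∑ y ∈ A ×ˢ range H, LP (PP z d) (dl d x y) ≤
      ps (PQ w z d) ^ 2 * ((1 + ε) * ((A.card : ℝ) ^ 2 * FF (PP w d) H) +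
        rho z * ((2 * Ex w z X ε + 1) * (A.card * (H : ℝ) ^ 2))) := by
  classical
  have h1 : ∀ x y : ℕ × ℕ, LP (PP z d) (dl d x y) ≤ ps (PQ w z d) ^ 2 *
      ((1 + ε) * LP (PP w d) (dl d x y) + rho z * (if 1 + ε < GG w z (dl d x y) then 1 else 0)) := by
    intro x y
    rw [LP_split hwz]
    have h2 := LP_PQ_le w z d (dl d x y)
    have h3 := LP_nonneg (PP w d) (fun p hp => PP_prime hp) (dl d x y)
    have h4 := LP_le_one (PP w d) (fun p hp => PP_prime hp) (dl d x y)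
    have h5 := GG_le_rho w z (dl d x y)
    have h6 := GG_ge_one w z (dl d x y)
    have h7 : LP (PP w d) (dl d x y) * GG w z (dl d x y) ≤
        (1 + ε) * LP (PP w d) (dl d x y) + rho z * (if 1 + ε < GG w z (dl d x y) then 1 else 0) := by
      split_ifs with h8
      · have h9 : LP (PP w d) (dl d x y) * GG w z (dl d x y) ≤ 1 * rho z :=
          mul_le_mul h4 h5 (by linarith) zero_le_one
        have h10 : 0 ≤ (1 + ε) * LP (PP w d) (dl d x y) := mul_nonneg (by linarith) h3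
        linarith
      · have h9 : LP (PP w d) (dl d x y) * GG w z (dl d x y) ≤ LP (PP w d) (dl d x y) * (1 + ε) :=
          mul_le_mul_of_nonneg_left (not_lt.1 h8) h3
        linarith
    calc LP (PP w d) (dl d x y) * LP (PQ w z d) (dl d x y)
        ≤ LP (PP w d) (dl d x y) * (ps (PQ w z d) ^ 2 * GG w z (dl d x y)) :=
          mul_le_mul_of_nonneg_left h2 h3
      _ = ps (PQ w z d) ^ 2 * (LP (PP w d) (dl d x y) * GG w z (dl d x y)) := by ring
      _ ≤ _ := mul_le_mul_of_nonneg_left h7 (sq_nonneg _)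
  refine (sum_le_sum fun x _ => sum_le_sum fun y _ => h1 x y).trans ?_
  simp only [← mul_sum]
  apply mul_le_mul_of_nonneg_left _ (sq_nonneg _)
  simp only [sum_add_distrib, ← mul_sum]
  have hcorr := corr (PP w d) (fun p hp => PP_prime hp) (d : ℤ) (fun p hp h => by
    have : p ∣ d := by exact_mod_cast h
    exact (mem_filter.1 hp).2.2 this) A H
  have h2 : ∑ x ∈ A ×ˢ range H, ∑ y ∈ A ×ˢ range H, (if 1 + ε < GG w z (dl d x y) then (1 : ℝ) else 0) ≤
      (2 * Ex w z X ε + 1) * (A.card * (H : ℝ) ^ 2) := by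
    rw [← sum_product', ← sum_filter, sum_const, nsmul_eq_mul, mul_one]
    exact_mod_cast exc_count w z Y X d H ε A hA hX
  have hrho : 0 ≤ rho z := zero_le_one.trans (rho_ge_one z)
  have h3 : (1 + ε) * ∑ x ∈ A ×ˢ range H, ∑ y ∈ A ×ˢ range H, LP (PP w d) (dl d x y) ≤
      (1 + ε) * ((A.card : ℝ) ^ 2 * FF (PP w d) H) :=
    mul_le_mul_of_nonneg_left hcorr (by linarith)
  have h4 := mul_le_mul_of_nonneg_left h2 hrho
  linarith

/-- The second moment of the model over windows. -/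
theorem second (w z d Y X H m0 m1 r0 : ℕ) (hwz : w ≤ z) (ε : ℝ) (hε : 0 ≤ ε) (A : Finset ℕ)
    (hA : ∀ r ∈ A, r ≤ Y) (hX : Y + d * H ≤ X) (hY : 2 ≤ Y) (hm : 2 * Y ≤ d * m0) :
    ∑ m ∈ Ioc m0 m1, (∑ h ∈ range H, Rz z A (d * (m + h))) ^ 2 ≤
      (rho z / Real.log Y) ^ 2 * (
        ((m1 : ℝ) + 1) * (ps (PQ w z d) ^ 2 * ((1 + ε) * ((A.card : ℝ) ^ 2 * FF (PP w d) H) +
          rho z * ((2 * Ex w z X ε + 1) * (A.card * (H : ℝ) ^ 2)))) +
        (A.card : ℝ) ^ 2 * (H : ℝ) ^ 2 * (((m1 : ℝ) + 1) * (rho z ^ 6 * Real.exp (-(2 * r0))) +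
          (1 + 2 * z) ^ (2 * r0))) := by
  classical
  have hYr : (2 : ℝ) ≤ Y := by exact_mod_cast hY
  have hlogY : 0 < Real.log Y := Real.log_pos (by linarith)
  have hrho : 0 ≤ rho z := zero_le_one.trans (rho_ge_one z)
  -- the indicator
  let I : ℕ → ℕ × ℕ → ℝ := fun m x => if ∀ p ∈ PP z d, ¬ (p : ℤ) ∣ d * (m : ℤ) + ((d : ℤ) * x.2 - x.1) then 1 else 0
  have h1 : ∀ m ∈ Ioc m0 m1, ∑ h ∈ range H, Rz z A (d * (m + h)) ≤
      (rho z / Real.log Y) * ∑ x ∈ A ×ˢ range H, I m x := by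
    intro m hm'
    have hm2 := mem_Ioc.1 hm'
    rw [sum_product, sum_comm, mul_sum]
    apply sum_le_sum
    intro h hh
    unfold Rz
    rw [mul_sum]
    have hbig : 2 * Y ≤ d * (m + h) := by
      have : d * m0 ≤ d * (m + h) := Nat.mul_le_mul_left d (by omega)
      omega
    have hfil : A.filter (fun r => r < d * (m + h)) = A := by
      apply filter_true_of_mem
      intro r hr
      have := hA r hr
      omega
    rw [hfil]
    apply sum_le_sum
    intro r hr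
    have hrY := hA r hr
    have hn : Y ≤ d * (m + h) - r := by omega
    have hnr : (Y : ℝ) ≤ ((d * (m + h) - r : ℕ) : ℝ) := by exact_mod_cast hn
    have hlogn : Real.log Y ≤ Real.log ((d * (m + h) - r : ℕ) : ℝ) := Real.log_le_log (by linarith) hnr
    unfold f2 f1
    by_cases hc : Nat.Coprime (d * (m + h) - r) (primorial z)
    · rw [if_pos hc]
      have hI : I m (r, h) = 1 := by
        show (if ∀ p ∈ PP z d, ¬ (p : ℤ) ∣ d * (m : ℤ) + ((d : ℤ) * h - r) then (1 : ℝ) else 0) = 1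
        rw [if_pos]
        intro p hp hdvd
        have hpp := PP_prime hp
        have e1 : (d : ℤ) * (m : ℤ) + ((d : ℤ) * h - r) = ((d * (m + h) - r : ℕ) : ℤ) := by
          rw [Nat.cast_sub (by omega)]
          push_cast
          ring
        rw [e1, Int.natCast_dvd_natCast] at hdvd
        have hpz : p ∣ primorial z := by
          rw [hpp.dvd_primorial_iff]
          exact (mem_Icc.1 (mem_filter.1 hp).1).2
        have := Nat.dvd_gcd hdvd hpz
        rw [hc] at this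
        exact hpp.one_lt.ne' (Nat.eq_one_of_dvd_one this)
      rw [hI, mul_one]
      exact div_le_div_of_nonneg_left hrho hlogY hlogn
    · rw [if_neg hc, zero_div]
      apply mul_nonneg (div_nonneg hrho hlogY.le)
      show 0 ≤ (if ∀ p ∈ PP z d, ¬ (p : ℤ) ∣ d * (m : ℤ) + ((d : ℤ) * h - r) then (1 : ℝ) else 0)
      split_ifs <;> norm_num
  have h2 : ∀ m ∈ Ioc m0 m1, 0 ≤ ∑ h ∈ range H, Rz z A (d * (m + h)) := by
    intro m _
    apply sum_nonneg
    intro h _
    apply sum_nonneg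
    intro r _
    unfold f2
    apply div_nonneg
    · unfold f1
      split_ifs
      · positivity
      · exact le_rfl
    · apply Real.log_natCast_nonneg
  have h3 : ∑ m ∈ Ioc m0 m1, (∑ h ∈ range H, Rz z A (d * (m + h))) ^ 2 ≤
      (rho z / Real.log Y) ^ 2 * ∑ m ∈ Ioc m0 m1, (∑ x ∈ A ×ˢ range H, I m x) ^ 2 := by
    rw [mul_sum]
    apply sum_le_sum
    intro m hm'
    rw [← mul_pow]
    exact pow_le_pow_left₀ (h2 m hm') (h1 m hm') 2
  refine h3.trans ?_
  apply mul_le_mul_of_nonneg_left _ (sq_nonneg _)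
  have h4 : ∑ m ∈ Ioc m0 m1, (∑ x ∈ A ×ˢ range H, I m x) ^ 2 =
      ∑ x ∈ A ×ˢ range H, ∑ y ∈ A ×ˢ range H, ∑ m ∈ Ioc m0 m1, I m x * I m y := by
    simp only [sq, sum_mul_sum]
    rw [sum_comm]
    apply sum_congr rfl
    intro x _
    rw [sum_comm]
  rw [h4]
  have h5 : ∀ x ∈ A ×ˢ range H, ∀ y ∈ A ×ˢ range H, ∑ m ∈ Ioc m0 m1, I m x * I m y ≤
      ((m1 : ℝ) + 1) * LP (PP z d) (dl d x y) + (((m1 : ℝ) + 1) * (rho z ^ 6 * Real.exp (-(2 * r0))) +
          (1 + 2 * z) ^ (2 * r0)) := by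
    intro x _ y _
    have hs := sieve2 (PP z d) (fun p hp => PP_prime hp) d (fun p hp => (mem_filter.1 hp).2.2)
      ((d : ℤ) * x.2 - x.1) ((d : ℤ) * y.2 - y.1) (m1 + 1) r0
    have e1 : (d : ℤ) * x.2 - x.1 - ((d : ℤ) * y.2 - y.1) = -(dl d x y) := by
      unfold dl
      ring
    rw [e1, LP_neg] at hs
    have h6 : ∑ m ∈ Ioc m0 m1, I m x * I m y ≤
        (((range (m1 + 1)).filter fun m : ℕ => ∀ p ∈ PP z d, ¬ (p : ℤ) ∣ d * (m : ℤ) + ((d : ℤ) * x.2 - x.1) ∧
          ¬ (p : ℤ) ∣ d * (m : ℤ) + ((d : ℤ) * y.2 - y.1)).card : ℝ) := by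
      rw [card_filter]
      push_cast
      have hI0 : ∀ m, I m x * I m y = if (∀ p ∈ PP z d, ¬ (p : ℤ) ∣ d * (m : ℤ) + ((d : ℤ) * x.2 - x.1) ∧
          ¬ (p : ℤ) ∣ d * (m : ℤ) + ((d : ℤ) * y.2 - y.1)) then 1 else 0 := by
        intro m
        show (if ∀ p ∈ PP z d, ¬ (p : ℤ) ∣ d * (m : ℤ) + ((d : ℤ) * x.2 - x.1) then (1 : ℝ) else 0) *
          (if ∀ p ∈ PP z d, ¬ (p : ℤ) ∣ d * (m : ℤ) + ((d : ℤ) * y.2 - y.1) then (1 : ℝ) else 0) = _
        by_cases ha : ∀ p ∈ PP z d, ¬ (p : ℤ) ∣ d * (m : ℤ) + ((d : ℤ) * x.2 - x.1)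
        · by_cases hb : ∀ p ∈ PP z d, ¬ (p : ℤ) ∣ d * (m : ℤ) + ((d : ℤ) * y.2 - y.1)
          · rw [if_pos ha, if_pos hb, if_pos (fun p hp => ⟨ha p hp, hb p hp⟩), mul_one]
          · rw [if_neg hb, mul_zero, if_neg (fun h => hb fun p hp => (h p hp).2)]
        · rw [if_neg ha, zero_mul, if_neg (fun h => ha fun p hp => (h p hp).1)]
      simp only [hI0]
      apply sum_le_sum_of_subset_of_nonneg
      · intro m hm'
        have := mem_Ioc.1 hm'
        exact mem_range.2 (by omega)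
      · intro m _ _
        split_ifs <;> norm_num
    have h7 : Real.exp (6 * (∑ p ∈ PP z d, (1 : ℝ) / p) - 2 * r0) ≤ rho z ^ 6 * Real.exp (-(2 * r0)) := by
      have e2 : 6 * (∑ p ∈ PP z d, (1 : ℝ) / p) - 2 * r0 = (6 : ℕ) * (∑ p ∈ PP z d, (1 : ℝ) / p) + -(2 * r0) := by
        push_cast; ring
      rw [e2, Real.exp_add, Real.exp_nat_mul]
      apply mul_le_mul_of_nonneg_right _ (Real.exp_pos _).le
      exact pow_le_pow_left₀ (Real.exp_pos _).le (exp_sum_le_rho z d) 6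
    have h8 : (1 + 2 * ((PP z d).card : ℝ)) ^ (2 * r0) ≤ (1 + 2 * z) ^ (2 * r0) := by
      apply pow_le_pow_left₀ (by positivity)
      have : (PP z d).card ≤ z := by
        refine (card_filter_le _ _).trans ?_
        simp
      have : ((PP z d).card : ℝ) ≤ z := by exact_mod_cast this
      linarith
    have h9 : ((m1 + 1 : ℕ) : ℝ) = (m1 : ℝ) + 1 := by push_cast; ring
    rw [h9] at hs
    have h10 : (0 : ℝ) ≤ (m1 : ℝ) + 1 := by positivity
    have h11 := mul_le_mul_of_nonneg_left h7 h10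
    linarith
  have h6 := sum_le_sum fun x hx => sum_le_sum fun y hy => h5 x hx y hy
  refine h6.trans ?_
  simp only [sum_add_distrib, ← mul_sum, sum_const, nsmul_eq_mul, card_product, card_range]
  have h7 := sum_LP_le w z d Y X H hwz ε hε A hA hX
  have h8 : (0 : ℝ) ≤ (m1 : ℝ) + 1 := by positivity
  have h9 := mul_le_mul_of_nonneg_left h7 h8
  push_cast
  linarith

end Pool.Agent.Lib.MP_e3f158_nt.U
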